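import Pool.Agent.Full.S4.Comp
import Pool.Agent.Full.Loc.WallT
import Pool.Agent.Full.Geo.SameZ
import Pool.Agent.Full.Geo.LabelZ

/-!
# Moving the interior end, several times

`Moved`: the domains of two interior ends, with shifted walls and marks, are the same outside windows
near `p`; marks go to marks, closed walls go to closed walls.  `Moved.trans`, `Moved.symm`; `MoveZ.moved`: one step.
-/

set_option autoImplicit false

namespace Full.Loc
open Function Relation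

variable {τ σ : Type*} [DecidableEq τ] [DecidableEq σ]
variable {T : Finset τ} {g : Half τ → Half τ} {B : Finset τ} {T' : Finset σ}
  {g' : Half σ → Half σ} {B' : Finset σ} {φ : τ → σ}

/-- the ways around the corners outside the window are transported -/
theorem Same.avoid (h : Same T g B T' g' B' φ) (hG : Glu T g) {x : Half τ} (hx : x.1 ∈ T \ B)
    (ha : Avoid g B x) : Avoid g' B' (hmap φ x) := by
  intro k hk
  have key : ∀ j, j ≤ k → ((rot g)^[j] x).1 ∈ T \ B ∧ (rot g')^[j] (hmap φ x) = hmap φ ((rot g)^[j] x) := by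
    intro j
    induction j using Nat.strong_induction_on with
    | _ j ih =>
      rcases j with _ | j
      · exact fun _ => ⟨hx, rfl⟩
      · intro hj
        obtain ⟨h1, h2⟩ := ih j (by omega) (by omega)
        have h3 : ((rot g)^[j + 1] x).1 ∉ B := by
          refine ha (j + 1) fun i hi hi' => ?_
          have h4 := hk i hi (by omega)
          obtain ⟨h5, h6⟩ := ih i (by omega) (by omega)
          rw [h6, Ne, h.fix_iff hG h5] at h4
          exact h4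
        have h4 : ((rot g)^[j + 1] x).1 ∈ T := by
          rw [iterate_succ_apply']
          exact hG.mem _ (Finset.mem_sdiff.1 h1).1
        refine ⟨Finset.mem_sdiff.2 ⟨h4, h3⟩, ?_⟩
        rw [iterate_succ_apply', h2, iterate_succ_apply']
        rw [iterate_succ_apply'] at h3 h4
        show rho (g' (hmap φ ((rot g)^[j] x))) = hmap φ (rho (g ((rot g)^[j] x)))
        rw [h.glue _ h1 (Finset.mem_sdiff.2 ⟨h4, h3⟩)]
        rfl
  have h1 := key k le_rfl
  rw [h1.2]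
  exact (Finset.mem_sdiff.1 (h.mem' h1.1)).2

end Full.Loc

namespace Full.S4
open Function Relation Full.Shape Full.Loc Full.Geo

variable {S : Shape} {m : S.Marks} {n : ℕ}

/-- the coordinates of a tile -/
abbrev xy (t : ZT) : ℤ × ℤ := Sum.elim id id t

/-- `t` is at sup distance at most `r` from `p` -/
def Ner (p : ℤ × ℤ) (r : ℤ) (t : ZT) : Prop := |(xy t).1 - p.1| ≤ r ∧ |(xy t).2 - p.2| ≤ r

/-- the ends of the closed wall -/
def Ez (m : S.Marks) (n : ℕ) (σ : Fin 4 → ℕ) (q : S.Q) (x y : ℤ) : Set (Half ZT) :=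
  {zz x y} ∪ Set.range fun j : Fin 3 => m.ez n σ q j.castSucc

/-- the domains of `(x, y)` and of `(x', y')` are the same outside the windows `W`, `W'` -/
structure MovedW (m : S.Marks) (n : ℕ) (p : ℤ × ℤ) (r k : ℤ) (s : S.Q × Bool → ℕ) (σ : Fin 4 → ℕ) (q : S.Q)
    (x y : ℤ) (s' : S.Q × Bool → ℕ) (σ' : Fin 4 → ℕ) (q' : S.Q) (x' y' : ℤ) (W W' : Finset ZT) (φ : ZT → ZT) :
    Prop where
  same : Same (S.zT n s q y) (S.zg n s q x y) W (S.zT n s' q' y') (S.zg n s' q' x' y') W' φ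
  z : (zz x y).1 ∈ W
  z' : (zz x' y').1 ∈ W'
  out : ∀ j, (m.ez n σ q j).1 ∈ S.zT n s q y \ W
  mark : ∀ j, m.ez n σ' q' j = hmap φ (m.ez n σ q j)
  wall : ∀ w, IsW (S.zT n s q y) (S.zg n s q x y) (Ez m n σ q x y) w →
    ∃ w', IsW (S.zT n s' q' y') (S.zg n s' q' x' y') (Ez m n σ' q' x' y') w' ∧
      Same (S.zT n s q y) w W (S.zT n s' q' y') w' W' φ
  wall' : ∀ w', IsW (S.zT n s' q' y') (S.zg n s' q' x' y') (Ez m n σ' q' x' y') w' →
    ∃ w, IsW (S.zT n s q y) (S.zg n s q x y) (Ez m n σ q x y) w ∧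
      Same (S.zT n s q y) w W (S.zT n s' q' y') w' W' φ
  ner : ∀ t ∈ W, Ner p (r + k) t
  ner' : ∀ t ∈ W', Ner p (r + k) t
  disp : ∀ t ∈ S.zT n s q y, t ∉ W → |(xy (φ t)).1 - (xy t).1| ≤ k ∧ (xy (φ t)).2 = (xy t).2

/-- **moving the interior end** from `(x, y)` in the room `q` to `(x', y')` in the room `q'`: the shifts `s`, `σ` of the walls
and of the marks become `s'`, `σ'`; the domains are the same outside windows at distance at most `r + k`
from `p`; the tiles outside are displaced by at most `k` -/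
def Moved (m : S.Marks) (n : ℕ) (p : ℤ × ℤ) (r k : ℤ) (s : S.Q × Bool → ℕ) (σ : Fin 4 → ℕ) (q : S.Q)
    (x y : ℤ) (s' : S.Q × Bool → ℕ) (σ' : Fin 4 → ℕ) (q' : S.Q) (x' y' : ℤ) : Prop :=
  ∃ W W' φ, MovedW m n p r k s σ q x y s' σ' q' x' y' W W' φ

variable {p : ℤ × ℤ} {r k k' : ℤ} {s s' s'' : S.Q × Bool → ℕ} {σ σ' σ'' : Fin 4 → ℕ} {q q' q'' : S.Q}
  {x y x' y' x'' y'' : ℤ}

lemma Ner.mono {r r' : ℤ} {t : ZT} (h : Ner p r t) (hr : r ≤ r') : Ner p r' t := ⟨h.1.trans hr, h.2.trans hr⟩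

/-- composition -/
theorem Moved.trans (h : Moved m n p r k s σ q x y s' σ' q' x' y')
    (h' : Moved m n p r k' s' σ' q' x' y' s'' σ'' q'' x'' y'') (hk : 0 ≤ k) (hk' : 0 ≤ k') :
    Moved m n p r (k + k') s σ q x y s'' σ'' q'' x'' y'' := by
  obtain ⟨W, W', φ, h⟩ := h
  obtain ⟨C', C'', ψ, h'⟩ := h'
  have hdC : ∀ t ∈ C', ∀ t0 ∈ S.zT n s q y, t0 ∉ W → φ t0 = t → Ner p (r + (k + k')) t0 := by
    intro t ht t0 h1 h2 h3
    have h4 := h'.ner t ht
    have h5 := h.disp t0 h1 h2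
    rw [h3] at h5
    unfold Ner at h4 ⊢
    rw [abs_le, abs_le] at h4
    rw [abs_le] at h5
    rw [abs_le, abs_le]
    constructor <;> constructor <;> omega
  refine ⟨cwin (S.zT n s q y) W C' φ, cwin' W' C' C'' ψ, ψ ∘ φ, h.same.comp h'.same, ?_, ?_, ?_, ?_, ?_, ?_,
    ?_, ?_, ?_⟩
  · exact mem_cwin.2 (Or.inl h.z)
  · exact mem_cwin'.2 (Or.inl h'.z')
  · intro j
    have h3 := Finset.mem_sdiff.1 (h.out j)
    refine Finset.mem_sdiff.2 ⟨h3.1, fun hj => ?_⟩
    rcases mem_cwin.1 hj with h1 | h1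
    · exact h3.2 h1
    · have h2 := (Finset.mem_sdiff.1 (h'.out j)).2
      rw [h.mark j] at h2
      exact h2 h1.2.2
  · intro j
    rw [h'.mark j, h.mark j]
    rfl
  · intro w hw
    obtain ⟨w', h1, h2⟩ := h.wall w hw
    obtain ⟨w'', h3, h4⟩ := h'.wall w' h1
    exact ⟨w'', h3, h2.comp h4⟩
  · intro w'' hw
    obtain ⟨w', h1, h2⟩ := h'.wall' w'' hw
    obtain ⟨w, h3, h4⟩ := h.wall' w' h1
    exact ⟨w, h3, h4.comp h2⟩
  · intro t ht
    rcases mem_cwin.1 ht with h1 | h1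
    · exact (h.ner t h1).mono (by omega)
    · exact hdC _ h1.2.2 t h1.1 h1.2.1 rfl
  · intro t ht
    rcases mem_cwin'.1 ht with h1 | ⟨u, hu, rfl⟩
    · exact (h'.ner' t h1).mono (by omega)
    · rw [Finset.mem_sdiff] at hu
      have h1 := h.ner' u hu.1
      have h2 := h'.disp u (h.same.sub' hu.1) hu.2
      unfold Ner at h1 ⊢
      obtain ⟨h3, h4⟩ := h1
      obtain ⟨h5, h6⟩ := h2
      rw [abs_le] at h3 h4 h5 ⊢
      constructor
      · constructor <;> omega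
      · rw [abs_le]; constructor <;> omega
  · intro t ht hW
    obtain ⟨h1, h2⟩ := not_mem_cwin (Finset.mem_sdiff.2 ⟨ht, hW⟩)
    obtain ⟨h3, h4⟩ := h.disp t ht (Finset.mem_sdiff.1 h1).2
    obtain ⟨h5, h6⟩ := h'.disp (φ t) (Finset.mem_sdiff.1 (h.same.mem' h1)).1 h2
    rw [abs_le] at h3 h5 ⊢
    exact ⟨⟨by simp only [comp_apply]; omega, by simp only [comp_apply]; omega⟩, by simp only [comp_apply]; omega⟩

lemma Moved.mono (h : Moved m n p r k s σ q x y s' σ' q' x' y') {r₁ k₁ : ℤ} (hr : r ≤ r₁) (hk : k ≤ k₁) :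
    Moved m n p r₁ k₁ s σ q x y s' σ' q' x' y' := by
  obtain ⟨W, W', φ, h⟩ := h
  exact ⟨W, W', φ, h.same, h.z, h.z', h.out, h.mark, h.wall, h.wall', fun t ht => (h.ner t ht).mono (by omega),
    fun t ht => (h.ner' t ht).mono (by omega), fun t ht hW => ⟨(h.disp t ht hW).1.trans hk, (h.disp t ht hW).2⟩⟩

/-- inverse -/
theorem Moved.symm (h : Moved m n p r k s σ q x y s' σ' q' x' y') :
    Moved m n p r k s' σ' q' x' y' s σ q x y := by
  obtain ⟨W, W', φ, h⟩ := h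
  have hG : Glu (S.zT n s q y) (S.zg n s q x y) := Surf.glu _ _
  obtain ⟨ψ, h1, h2, h3⟩ := h.same.symm hG ⟨_, h.same.sub h.z⟩
  refine ⟨W', W, ψ, h1, h.z', h.z, fun j => ?_, fun j => ?_, fun w' hw' => ?_, fun w hw => ?_, h.ner', h.ner,
    fun t ht hW => ?_⟩
  · rw [h.mark j]
    exact h.same.mem' (h.out j)
  · rw [h.mark j]
    exact (Prod.ext (h2 _ (h.out j)) rfl : hmap ψ (hmap φ (m.ez n σ q j)) = m.ez n σ q j).symm
  · obtain ⟨w, g1, g2⟩ := h.wall' w' hw'
    exact ⟨w, g1, g2.symm_of g1.toGlu h2⟩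
  · obtain ⟨w', g1, g2⟩ := h.wall w hw
    exact ⟨w', g1, g2.symm_of hw.toGlu h2⟩
  · have h4 := h1.mem' (Finset.mem_sdiff.2 ⟨ht, hW⟩)
    obtain ⟨h5, h6⟩ := h.disp (ψ t) (Finset.mem_sdiff.1 h4).1 (Finset.mem_sdiff.1 h4).2
    rw [h3 t (Finset.mem_sdiff.2 ⟨ht, hW⟩)] at h5 h6
    exact ⟨by rw [abs_sub_comm]; exact h5, h6.symm⟩

/-- **one step** -/
theorem MoveZ.moved (hS : S.Ok) (hm : m.Ok) (hs : S.Small2 n s) (hσ : ∀ j, 4 * σ j ≤ n) (hin : S.In n s q x y)
    {R : ℤ} {B B' : Finset ZT} {φ : ZT → ZT} (h : MoveZ S m n q x y s σ q' x' y' s' σ' R B B' φ)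
    (hp : Ner p (r - R) (.inl (x, y))) (hp' : Ner p (r - R) (.inl (x', y'))) :
    Moved m n p r 1 s σ q x y s' σ' q' x' y' := by
  have hG : Glu (S.zT n s q y) (S.zg n s q x y) := Surf.glu _ _
  have hG' : Glu (S.zT n s' q' y') (S.zg n s' q' x' y') := Surf.glu _ _
  have hez := ez_spec (σ := σ) hS hm hs hσ hin
  have hout : ∀ j, (m.ez n σ q j).1 ∈ S.zT n s q y \ B := by
    intro j
    refine Finset.mem_sdiff.2 ⟨(hez j).1.1, fun h1 => ?_⟩
    have h2 := h.bd _ h1 (hez j).1.2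
    have h3 := (hez j).2.1
    rw [h2] at h3
    exact Dir.noConfusion h3
  have hav : ∀ u, Bd (S.zT n s q y) (S.zg n s q x y) u → u.1 ∉ B → Avoid (S.zg n s q x y) B u :=
    fun u hu huB => avoid_of_reg hG h.reg hu.2 huB
  have hE : ∀ u, Bd (S.zT n s q y) (S.zg n s q x y) u → u.1 ∉ B →
      (u ∈ Ez m n σ q x y ↔ hmap φ u ∈ Ez m n σ' q' x' y') := by
    intro u hu huB
    have h1 : u.1 ∈ S.zT n s q y \ B := Finset.mem_sdiff.2 ⟨hu.1, huB⟩
    have h2 := (Finset.mem_sdiff.1 (h.same.mem' h1)).2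
    unfold Ez
    constructor
    · rintro (h3 | ⟨j, h3⟩)
      · have h4 : u = zz x y := h3
        rw [h4] at huB
        exact absurd h.z huB
      · right
        refine ⟨j, ?_⟩
        rw [← h3]
        exact (h.mark _).symm
    · rintro (h3 | ⟨j, h3⟩)
      · have h4 : hmap φ u = zz x' y' := h3
        have h5 : φ u.1 = (zz x' y').1 := congrArg Prod.fst h4
        rw [h5] at h2
        exact absurd h.z' h2
      · right
        refine ⟨j, ?_⟩
        have h4 : m.ez n σ' q' j.castSucc = hmap φ u := h3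
        rw [← h.mark] at h4
        exact h.same.hmap_inj (hout _) h1 h4
  obtain ⟨ψ, h1, h2, h3⟩ := h.same.symm hG ⟨_, h.same.sub h.z⟩
  refine ⟨B, B', φ, h.same, h.z, h.z', hout, fun j => (h.mark j).symm, fun w hw => ?_, fun w' hw' => ?_,
    fun t ht => ?_, fun t ht => ?_, fun t ht _ => ?_⟩
  · exact h.same.wall hG hG' h.bd h.bd' hav (Or.inl rfl) (Or.inl rfl) hE hw
  · have hpre : ∀ u, Bd (S.zT n s' q' y') (S.zg n s' q' x' y') u → u.1 ∉ B' →
        ∃ v, Bd (S.zT n s q y) (S.zg n s q x y) v ∧ v.1 ∉ B ∧ hmap φ v = u := by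
      intro u hu huB
      obtain ⟨v, hv, rfl⟩ := h.same.exists_pre (Finset.mem_sdiff.2 ⟨hu.1, huB⟩)
      exact ⟨v, (h.same.bd_iff hG hv).1 hu, (Finset.mem_sdiff.1 hv).2, rfl⟩
    obtain ⟨w, g1, g2⟩ := h1.wall hG' hG h.bd' h.bd (fun u hu huB => by
      obtain ⟨v, g1, g2, rfl⟩ := hpre u hu huB
      exact h.same.avoid hG (Finset.mem_sdiff.2 ⟨g1.1, g2⟩) (hav v g1 g2)) (Or.inl rfl) (Or.inl rfl)
      (fun u hu huB => by
        obtain ⟨v, g1, g2, rfl⟩ := hpre u hu huB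
        have g3 : hmap ψ (hmap φ v) = v := Prod.ext (h2 _ (Finset.mem_sdiff.2 ⟨g1.1, g2⟩)) rfl
        rw [g3]
        exact (hE v g1 g2).symm) hw'
    exact ⟨w, g1, g2.symm_of hw'.toGlu h3⟩
  · obtain ⟨c, g1, rfl⟩ := h.win t ht
    obtain ⟨i, j⟩ := c
    rw [mem_Bx] at g1
    unfold Ner at hp ⊢
    rw [abs_le, abs_le] at hp
    rw [abs_le, abs_le]
    have g2 : xy (chz x y (i, j)) = (x + i, y + j) := by
      unfold chz
      split_ifs <;> rfl
    rw [g2]
    simp only [xy, Sum.elim_inl, id] at g1 hp ⊢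
    constructor <;> constructor <;> omega
  · obtain ⟨c, g1, rfl⟩ := h.win' t ht
    obtain ⟨i, j⟩ := c
    rw [mem_Bx] at g1
    unfold Ner at hp' ⊢
    rw [abs_le, abs_le] at hp'
    rw [abs_le, abs_le]
    have g2 : xy (chz x' y' (i, j)) = (x' + i, y' + j) := by
      unfold chz
      split_ifs <;> rfl
    rw [g2]
    simp only [xy, Sum.elim_inl, id] at g1 hp' ⊢
    constructor <;> constructor <;> omega
  · obtain ⟨g1, g2, g3⟩ := h.disp t ht
    refine ⟨?_, g3⟩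
    rw [abs_le]
    simp only [xy]
    constructor <;> omega

end Full.S4
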