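import Pool.Agent.Full.Geo.LastFW
import Pool.Agent.Full.Geo.Stack
import Pool.Agent.Full.Geo.Walls
import Pool.Agent.Full.Geo.Label
import Pool.Agent.Full.S4.Moved

/-!
# The last move, for shapes

The domain with the end `z` right above the fourth mark and the fine region with the four marks are the
same outside the column between `z` and the mark, after moving the rooms attached to the floor on the
right of the mark by one column.
-/

set_option autoImplicit false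

namespace Full.Geo
open Function Relation Full.Shape

variable {S : Shape} {n : ℕ} {s s' : S.Q × Bool → ℕ}

theorem dom1 : Dom1 (bxs S n s) (S.T n s) (plane.glue (S.T n s)) := by
  refine ⟨fun t => ?_, rfl⟩
  rw [mem_T]
  constructor
  · rintro ⟨q, hq⟩
    rw [mem_room] at hq
    exact ⟨(q, t), ⟨hq.1.1, hq.1.2, hq.2.1, hq.2.2⟩, rfl⟩
  · rintro ⟨v, hv, rfl⟩
    exact ⟨v.1, mem_room.2 ⟨⟨hv.1, hv.2.1⟩, hv.2.2.1, hv.2.2.2⟩⟩

open Classical in
theorem bxs_dn {R : S.Q → Prop} (h : ∀ i : S.Q × Bool, (s' i : ℤ) = s i - if R i.1 then 1 else 0) :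
    bxs S n s' = (bxs S n s).dn R := by
  have h1 : S.fl n s' = fun u => S.fl n s u - if R u then 1 else 0 := by
    funext u
    unfold fl
    rw [h (u, false)]
    ring
  have h2 : S.fr n s' = fun u => S.fr n s u - if R u then 1 else 0 := by
    funext u
    unfold fr
    rw [h (u, true)]
    ring
  unfold bxs Bxs.dn
  rw [h1, h2]

/-- the rooms attached to the floor of the room of the fourth mark on the right of the mark -/
theorem exists_flr (hS : S.Ok) (hd : S.Tree) {m : S.Marks} (hm : m.Ok) (j : Fin 4) :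
    ∃ R : S.Q → Prop, ¬ R (.inl (m.room j)) ∧ ∀ (n : ℕ) (s : S.Q × Bool → ℕ), S.Small2 n s → ∀ x y : ℤ,
      n * m.x j ≤ x → x ≤ n * m.x j + n → S.fb n (.inl (m.room j)) < y → y < S.ft n (.inl (m.room j)) →
      Flr S.On (bxs S n s) (.inl (m.room j)) (fun u => u ∈ S.part (.inl (m.room j)) false) x y R := by
  classical
  set k : S.Q := .inl (m.room j) with hk
  obtain ⟨F, hF⟩ := exists_pot hd (fun u v => v = k ∧ m.x j < S.xl u)
  have hcut := cut hd k
  have one : (1 : ZMod 2) ≠ 0 := by decide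
  refine ⟨fun u => u ∈ S.part k false ∧ F u ≠ F k, fun h => hcut.self h.1, ?_⟩
  intro n s hs x y hx hx' hy hy'
  have hn : (8 : ℤ) ≤ n := by exact_mod_cast hs.1
  have a1 := fl_bound hs k
  have a2 := fr_bound hs k
  have a3 : (n : ℤ) * S.xl k + n ≤ n * m.x j := mul_step (n := n) (hm.left j)
  have a4 : (n : ℤ) * (m.x j + 1) + n ≤ n * S.xr k := mul_step (n := n) (hm.right j)
  rw [show (n : ℤ) * (m.x j + 1) = n * m.x j + n by ring] at a4
  refine ⟨⟨?_, ?_, hy, hy'⟩, fun u hu => hu.1, fun {u v} h hu hv => ?_, fun {u} h => ?_⟩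
  · show S.fl n s k + 3 ≤ x
    omega
  · show x + 3 ≤ S.fr n s k
    omega
  · have h1 : F v = F u := by
      rw [hF u v h, if_neg fun h2 => hv h2.1, add_zero]
    rw [hcut.cong h hu hv, h1]
  · have h1 : u ∈ S.part k false := hcut.below h
    have h2 := hF u k h
    rcases u with r | κ
    · exact absurd h id
    · have h3 : S.Att κ (m.room j) (m.top j) := by
        unfold Att
        rw [hm.low j]
        exact h
      have a5 := fl_bound hs (.inr κ)
      have a6 := fr_bound hs (.inr κ)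
      rcases hm.wall j κ h3 with h4 | h4
      · left
        have a7 := mul_step (n := n) h4
        rw [show (n : ℤ) * (m.x j + 1) = n * m.x j + n by ring] at a7
        refine ⟨⟨h1, fun h5 => ?_⟩, ?_⟩
        · rw [if_pos ⟨rfl, by omega⟩, h5] at h2
          exact one (add_left_cancel (h2.symm.trans (add_zero _).symm))
        · show x + 2 < S.fl n s (.inr κ)
          omega
      · right
        have a7 := mul_step (n := n) h4
        have a8 : S.xl (.inr κ) < S.xr (.inr κ) := hS.x_lt _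
        refine ⟨fun h5 => h5.2 ?_, ?_⟩
        · rw [if_neg (fun h6 => by have := h6.2; omega), add_zero] at h2
          exact h2.symm
        · show S.fr n s (.inr κ) ≤ x - 2
          omega

end Full.Geo

namespace Full.S4
open Function Relation Full.Shape Full.Loc Full.Geo

variable {S : Shape} {m : S.Marks} {n : ℕ}

/-- **the last move**: the domain with the end `z = (x, y)` above the fourth mark and the fine region -/
structure LastM (m : S.Marks) (n : ℕ) (s : S.Q × Bool → ℕ) (σ : Fin 4 → ℕ) (x y : ℤ)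
    (s' : S.Q × Bool → ℕ) (σ' : Fin 4 → ℕ) (B : Finset ZT) (B' : Finset (ℤ × ℤ)) (φ : ZT → ℤ × ℤ) :
    Prop where
  same : Same (S.zT n s (.inl (m.room 3)) y) (S.zg n s (.inl (m.room 3)) x y) B (S.T n s')
    (plane.glue (S.T n s')) B' φ
  z : (zz x y).1 ∈ B
  e3 : ∀ i, x - 1 ≤ i → i ≤ x → (i, S.fb n (.inl (m.room 3))) ∈ B'
  mark : ∀ j : Fin 3, (m.ez n σ (.inl (m.room 3)) j.castSucc).1 ∈ S.zT n s (.inl (m.room 3)) y \ B ∧
    m.e n σ' j.castSucc = hmap φ (m.ez n σ (.inl (m.room 3)) j.castSucc)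
  win : ∀ t ∈ B, |(xy t).1 - x| ≤ 1 ∧ S.fb n (.inl (m.room 3)) ≤ (xy t).2 ∧ (xy t).2 < y
  win' : ∀ t ∈ B', |t.1 - x| ≤ 1 ∧ S.fb n (.inl (m.room 3)) ≤ t.2 ∧ t.2 < y
  disp : ∀ t ∈ S.zT n s (.inl (m.room 3)) y, t ∉ B → |(φ t).1 - (xy t).1| ≤ 1 ∧ (φ t).2 = (xy t).2
  wall : ∀ σ'' : Fin 4 → ℕ, (∀ j, j ≠ 3 → σ'' j = σ' j) → (σ'' 3 = σ' 3 ∨ σ'' 3 + 1 = σ' 3) → ∀ w w',
    IsW (S.zT n s (.inl (m.room 3)) y) (S.zg n s (.inl (m.room 3)) x y) (Ez m n σ (.inl (m.room 3)) x y) w →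
    IsW (S.T n s') (plane.glue (S.T n s')) (Set.range (m.e n σ'')) w' →
    Same (S.zT n s (.inl (m.room 3)) y) w B (S.T n s') w' B' φ
  ex : 1 ≤ σ' 3 →
    (∃ w, IsW (S.zT n s (.inl (m.room 3)) y) (S.zg n s (.inl (m.room 3)) x y)
      (Ez m n σ (.inl (m.room 3)) x y) w) →
    ∃ σ'' : Fin 4 → ℕ, (∀ j, j ≠ 3 → σ'' j = σ' j) ∧ (σ'' 3 = σ' 3 ∨ σ'' 3 + 1 = σ' 3) ∧
      ∃ w', IsW (S.T n s') (plane.glue (S.T n s')) (Set.range (m.e n σ'')) w'
  ex' : ∀ σ'' : Fin 4 → ℕ, (∀ j, j ≠ 3 → σ'' j = σ' j) → (σ'' 3 = σ' 3 ∨ σ'' 3 + 1 = σ' 3) →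
    (∃ w', IsW (S.T n s') (plane.glue (S.T n s')) (Set.range (m.e n σ'')) w') →
    ∃ w, IsW (S.zT n s (.inl (m.room 3)) y) (S.zg n s (.inl (m.room 3)) x y)
      (Ez m n σ (.inl (m.room 3)) x y) w

lemma e_eq (hm : m.Ok) (σ : Fin 4 → ℕ) (j : Fin 4) :
    m.e n σ j = ((n * m.x j + σ j, S.fb n (.inl (m.room j))), .S) := by
  unfold Marks.e
  rw [dir_eq hm]
  unfold Marks.fy
  rw [hm.low j]
  rfl

/-- the mark as a tile -/
lemma ez_eq (hm : m.Ok) (σ : Fin 4 → ℕ) (q : S.Q) {y : ℤ} (hy : S.fb n q < y) (j : Fin 4) :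
    m.ez n σ q j = (tl (fun u => u ∈ S.part q false) q y
      (.inl (m.room j), n * m.x j + σ j, S.fb n (.inl (m.room j))), .S) := by
  unfold Marks.ez
  rw [dir_eq hm]
  have h1 : m.fy n j = S.fb n (.inl (m.room j)) := by
    unfold Marks.fy
    rw [hm.low j]
    rfl
  rw [h1]
  by_cases h : (Sum.inl (m.room j) : S.Q) ∈ S.part q false ∨ (Sum.inl (m.room j) = q ∧ m.top j = false)
  · rw [if_pos h, tl_lo]
    rcases h with h | h
    · exact Or.inl h
    · exact Or.inr ⟨h.1, by rw [h.1]; exact hy⟩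
  · rw [if_neg h, tl_up]
    rintro (h2 | h2)
    · exact h (Or.inl h2)
    · exact h (Or.inr ⟨h2.1, hm.low j⟩)

/-- marks on the same floor are in different cells -/
lemma cell_ne (hm : m.Ok) {i j : Fin 4} (hij : i ≠ j) (h : m.room i = m.room j) : m.x i ≠ m.x j :=
  fun h1 => hij (mark_uniq hm h (by rw [hm.low, hm.low]) h1)

theorem exists_last (hS : S.Ok) (hd : S.Tree) (hm : m.Ok) :
    ∃ (u : S.Q × Bool → ℤ) (v : Fin 4 → ℤ), (∀ i, u i = 0 ∨ u i = -1) ∧ (∀ j, v j = 0 ∨ v j = -1) ∧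
      v 3 = 0 ∧ ∀ (n : ℕ) (s : S.Q × Bool → ℕ) (σ : Fin 4 → ℕ) (s' : S.Q × Bool → ℕ) (σ' : Fin 4 → ℕ),
      (∀ i, (s' i : ℤ) = s i + u i) → (∀ j, (σ' j : ℤ) = σ j + v j) → S.Small2 n s → S.Small2 n s' →
      (∀ j, 4 * σ j ≤ n) → (∀ j, 4 * σ' j ≤ n) → ∀ y : ℤ, S.fb n (.inl (m.room 3)) < y →
      y < S.ft n (.inl (m.room 3)) →
      ∃ B B' φ, LastM m n s σ (n * m.x 3 + σ 3) y s' σ' B B' φ := by
  classical
  obtain ⟨R, hRk, hR⟩ := exists_flr hS hd hm 3
  refine ⟨fun i => if R i.1 then -1 else 0,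
    fun j => if R (.inl (m.room j)) ∨ (m.room j = m.room 3 ∧ m.x 3 < m.x j) then -1 else 0,
    fun i => ?_, fun j => ?_, ?_, ?_⟩
  · show (if R i.1 then (-1 : ℤ) else 0) = 0 ∨ (if R i.1 then (-1 : ℤ) else 0) = -1
    split_ifs <;> simp
  · show (if R (.inl (m.room j)) ∨ (m.room j = m.room 3 ∧ m.x 3 < m.x j) then (-1 : ℤ) else 0) = 0 ∨
      (if R (.inl (m.room j)) ∨ (m.room j = m.room 3 ∧ m.x 3 < m.x j) then (-1 : ℤ) else 0) = -1
    split_ifs <;> simp
  · show (if R (.inl (m.room 3)) ∨ (m.room 3 = m.room 3 ∧ m.x 3 < m.x 3) then (-1 : ℤ) else 0) = 0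
    rw [if_neg]
    rintro (h | h)
    · exact hRk h
    · exact absurd h.2 (lt_irrefl _)
  intro n s σ s' σ' hs' hσ' hs hs2 hσ hσ2 y hy hy'
  set k : S.Q := .inl (m.room 3) with hk
  set x : ℤ := n * m.x 3 + σ 3 with hx
  have hn : (8 : ℤ) ≤ n := by exact_mod_cast hs.1
  have hσ3 := hσ 3
  have hcs : ∀ i : Fin 3, i.castSucc ≠ (3 : Fin 4) := by decide
  have hcs' : ∀ j : Fin 4, j ≠ 3 → ∃ i : Fin 3, i.castSucc = j := by decide
  have hv3 : (σ' 3 : ℤ) = σ 3 := by
    have h := hσ' 3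
    simp only at h
    rw [if_neg, add_zero] at h
    · exact h
    · rintro (h1 | h1)
      · exact hRk h1
      · exact absurd h1.2 (lt_irrefl _)
  have hF := hR n s hs x y (by omega) (by omega) hy hy'
  have hX := good hS hs
  have hC := cut hd k
  have hbx : bxs S n s' = (bxs S n s).dn R := bxs_dn fun i => by
    rw [hs' i]
    show (s i : ℤ) + (if R i.1 then (-1 : ℤ) else 0) = s i - if R i.1 then 1 else 0
    split_ifs <;> ring
  have hX' : Good S.On ((bxs S n s).dn R) := by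
    rw [← hbx]
    exact good hS hs2
  have hD := dom2 (x := x) (s := s) hS hd k hy hy'
  have hD' : Dom1 ((bxs S n s).dn R) (S.T n s') (plane.glue (S.T n s')) := by
    rw [← hbx]
    exact dom1
  have hsame := hF.same hX hX' hC hD hD'
  have hG := hD.isGlu
  have hG' := hD'.isGlu
  have hRun := hF.run hX hC hD hX' hD'
  set lo : S.Q → Prop := fun u => u ∈ S.part k false with hlo
  set B := winLF (bxs S n s) k x y with hB
  set B' := winLF' (bxs S n s) k x y with hB'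
  set φ := mvF (bxs S n s) k lo x y R with hφ
  -- the marks
  have hval : ∀ j : Fin 4, Val (bxs S n s) k y
      (.inl (m.room j), n * m.x j + σ j, S.fb n (.inl (m.room j))) := by
    intro j
    have a1 := fl_bound hs (.inl (m.room j))
    have a2 := fr_bound hs (.inl (m.room j))
    have a3 := mul_step (n := n) (hm.left j)
    have a4 := mul_step (n := n) (hm.right j)
    rw [show (n : ℤ) * (m.x j + 1) = n * m.x j + n by ring] at a4
    have a5 := hσ j
    refine ⟨?_, le_rfl, hX.bt _, Or.inl ?_⟩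
    · show S.fl n s (.inl (m.room j)) ≤ n * m.x j + σ j
      omega
    · show n * m.x j + σ j < S.fr n s (.inl (m.room j))
      omega
  have hcell : ∀ j : Fin 4, j ≠ 3 → m.room j = m.room 3 →
      (m.x 3 < m.x j ∧ x + 2 < n * m.x j + σ j) ∨ (m.x j < m.x 3 ∧ n * m.x j + σ j < x - 2) := by
    intro j hj h1
    have h2 := cell_ne hm hj h1
    have a5 := hσ j
    rcases lt_or_gt_of_ne h2 with h3 | h3
    · right
      have a6 := mul_step (n := n) h3
      exact ⟨h3, by omega⟩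
    · left
      have a6 := mul_step (n := n) h3
      exact ⟨h3, by omega⟩
  have hout : ∀ j : Fin 4, j ≠ 3 → (m.ez n σ k j).1 ∈ S.zT n s k y \ B := by
    intro j hj
    rw [ez_eq hm σ k hy j]
    refine Finset.mem_sdiff.2 ⟨hD.mem_tl (hval j), fun h => ?_⟩
    obtain ⟨h1, h2, h3, h4⟩ := (hF.tl_mem_winLF hX (hval j)).1 h
    simp only at h1 h2 h3 h4
    rcases hcell j hj (Sum.inl.inj h1) with h5 | h5 <;> omega
  have hmark : ∀ j : Fin 4, j ≠ 3 → m.e n σ' j = hmap φ (m.ez n σ k j) := by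
    intro j hj
    rw [ez_eq hm σ k hy j, e_eq hm σ' j]
    show _ = (mvF (bxs S n s) k lo x y R (tl lo k y _), Dir.S)
    rw [Flr.mvF_tl hX (hval j)]
    unfold cvF
    simp only
    have h1 : n * m.x j + (σ' j : ℤ) = n * m.x j + σ j - (if R (.inl (m.room j)) ∨
        ((Sum.inl (m.room j) : S.Q) = k ∧ S.fb n (.inl (m.room j)) < y ∧ x < n * m.x j + σ j) then 1 else 0) := by
      rw [hσ' j]
      have h2 : (R (.inl (m.room j)) ∨ (m.room j = m.room 3 ∧ m.x 3 < m.x j)) ↔ (R (.inl (m.room j)) ∨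
        ((Sum.inl (m.room j) : S.Q) = k ∧ S.fb n (.inl (m.room j)) < y ∧ x < n * m.x j + σ j)) := by
        refine or_congr_right ?_
        constructor
        · rintro ⟨h3, h4⟩
          refine ⟨by rw [h3], by rw [h3]; exact hy, ?_⟩
          rcases hcell j hj h3 with h5 | h5 <;> omega
        · rintro ⟨h3, -, h4⟩
          have h5 : m.room j = m.room 3 := Sum.inl.inj h3
          refine ⟨h5, ?_⟩
          rcases hcell j hj h5 with h6 | h6
          · exact h6.1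
          · omega
      simp only [h2]
      split_ifs <;> ring
    refine Prod.ext (Prod.ext ?_ rfl) rfl
    show n * m.x j + (σ' j : ℤ) = _
    rw [h1]
    congr 1
    split_ifs <;> rfl
  have hbe : ∀ j : Fin 4, j ≠ 3 → Bd (S.zT n s k y) (S.zg n s k x y) (m.ez n σ k j) := by
    intro j hj
    refine (hsame.bd_iff hG (hout j hj)).1 ?_
    rw [← hmark j hj]
    exact (labCyc hS m hm hs2 hσ2).mem j
  -- the ends
  have hEB : ∀ u, u ∈ Ez m n σ k x y → Bd (S.zT n s k y) (S.zg n s k x y) u → u.1 ∈ B → u = zz x y := by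
    rintro u (h | ⟨i, rfl⟩) - hu
    · exact h
    · exact absurd hu (Finset.mem_sdiff.1 (hout _ (hcs i))).2
  have he3 : ∀ σ'' : Fin 4 → ℕ, ∀ i0 : ℤ, i0 = n * m.x 3 + σ'' 3 →
      ((i0, (bxs S n s).b k), Dir.S) ∈ Set.range (m.e n σ'') := by
    intro σ'' i0 h
    exact ⟨3, by rw [e_eq hm, h]; rfl⟩
  have hsplit : ∀ σ'' : Fin 4 → ℕ, (∀ j, j ≠ 3 → σ'' j = σ' j) → ∀ u, u ∈ Set.range (m.e n σ'') →
      u = m.e n σ'' 3 ∨ ∃ j, j ≠ 3 ∧ u = hmap φ (m.ez n σ k j) := by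
    rintro σ'' h _ ⟨j, rfl⟩
    by_cases hj : j = 3
    · left; rw [hj]
    · right
      refine ⟨j, hj, ?_⟩
      rw [← hmark j hj, e_eq hm, e_eq hm, h j hj]
  have hEB' : ∀ σ'' : Fin 4 → ℕ, (∀ j, j ≠ 3 → σ'' j = σ' j) → ∀ i0 : ℤ, i0 = n * m.x 3 + σ'' 3 →
      ∀ u, u ∈ Set.range (m.e n σ'') → Bd (S.T n s') (plane.glue (S.T n s')) u → u.1 ∈ B' →
      u = ((i0, (bxs S n s).b k), Dir.S) := by
    intro σ'' h i0 hi0 u hu _ huB
    rcases hsplit σ'' h u hu with h1 | ⟨j, hj, h1⟩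
    · rw [h1, e_eq hm, hi0]
      rfl
    · rw [h1] at huB
      exact absurd huB (Finset.mem_sdiff.1 (hsame.mem' (hout j hj))).2
  have hEE : ∀ σ'' : Fin 4 → ℕ, (∀ j, j ≠ 3 → σ'' j = σ' j) → (σ'' 3 = σ' 3 ∨ σ'' 3 + 1 = σ' 3) →
      ∀ u, Bd (S.zT n s k y) (S.zg n s k x y) u → u.1 ∉ B →
        (u ∈ Ez m n σ k x y ↔ hmap φ u ∈ Set.range (m.e n σ'')) := by
    intro σ'' h h3 u hu huB
    have huT : u.1 ∈ S.zT n s k y \ B := Finset.mem_sdiff.2 ⟨hu.1, huB⟩
    constructor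
    · rintro (h1 | ⟨i, rfl⟩)
      · exfalso
        have h2 : u = zz x y := h1
        rw [h2, hF.z_eq hX hC hD] at huB
        refine huB ((hF.tl_mem_winLF hX (hF.valk (by omega) (by omega) ?_ ?_)).2
          ⟨rfl, by simp only; omega, by simp only; omega, by simp only; omega⟩)
        · show S.fb n k ≤ y - 1
          omega
        · show y - 1 < S.ft n k
          omega
      · have hi := hcs i
        exact ⟨i.castSucc, by
          rw [e_eq hm, h _ hi]
          show ((n * m.x i.castSucc + (σ' i.castSucc : ℤ), S.fb n (.inl (m.room i.castSucc))), Dir.S) =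
            hmap φ (m.ez n σ k i.castSucc)
          rw [← hmark _ hi, e_eq hm]⟩
    · intro h1
      rcases hsplit σ'' h _ h1 with h2 | ⟨j, hj, h2⟩
      · exfalso
        have h4 : (hmap φ u).1 ∈ B' := by
          rw [h2, e_eq hm, hB']
          unfold winLF'
          show (n * m.x 3 + (σ'' 3 : ℤ), S.fb n k) ∈ _
          rw [mem_box]
          refine ⟨?_, le_rfl, hy⟩
          rcases h3 with h3 | h3 <;> omega
        exact (Finset.mem_sdiff.1 (hsame.mem' huT)).2 h4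
      · have h4 := hsame.hmap_inj huT (hout j hj) h2
        right
        rw [h4]
        obtain ⟨i, hi⟩ := hcs' j hj
        exact ⟨i, by rw [← hi]⟩
  have hcyc := (labCyc hS m hm hs2 hσ2).cyc
  have hM : Meets (S.zT n s k y) (S.zg n s k x y) (Ez m n σ k x y) :=
    hRun.meets hG hsame (Or.inl rfl) (fun u v hu hv => hcyc u hu v hv) (hbe 0 (by decide))
      (Finset.mem_sdiff.1 (hout 0 (by decide))).2 (Or.inr ⟨0, rfl⟩)
  have hM' : ∀ σ'' : Fin 4 → ℕ, (∀ j, j ≠ 3 → σ'' j = σ' j) →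
      Meets (S.T n s') (plane.glue (S.T n s')) (Set.range (m.e n σ'')) := by
    intro σ'' h u hu
    obtain ⟨i, hi⟩ := (labCyc hS m hm hs2 hσ2).cyc _ (hG'.next_bd hu) _ ((labCyc hS m hm hs2 hσ2).mem 0)
    refine ⟨i + 1, by omega, 0, ?_⟩
    rw [iterate_succ_apply, hi, e_eq hm, e_eq hm, h 0 (by decide)]
  refine ⟨B, B', φ, ⟨hsame, ?_, fun i hi hi' => ?_, fun j => ⟨hout _ (hcs j), hmark _ (hcs j)⟩,
    fun t ht => ?_, fun t ht => ?_, fun t ht htB => ?_, ?_, ?_, ?_⟩⟩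
  · rw [hF.z_eq hX hC hD]
    refine (hF.tl_mem_winLF hX (hF.valk (by omega) (by omega) ?_ ?_)).2
      ⟨rfl, by simp only; omega, by simp only; omega, by simp only; omega⟩
    · show S.fb n k ≤ y - 1
      omega
    · show y - 1 < S.ft n k
      omega
  · rw [hB']
    unfold winLF'
    rw [mem_box]
    exact ⟨⟨by omega, by omega⟩, le_rfl, hy⟩
  · rw [hB] at ht
    unfold winLF at ht
    rw [Finset.mem_disjSum] at ht
    rcases ht with ⟨⟨i, j⟩, h1, rfl⟩ | ⟨a, h1, -⟩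
    · rw [mem_box] at h1
      refine ⟨?_, h1.2.1, h1.2.2⟩
      show |i - x| ≤ 1
      rw [abs_le]
      omega
    · exact absurd h1 (Finset.notMem_empty _)
  · obtain ⟨i, j⟩ := t
    rw [hB'] at ht
    unfold winLF' at ht
    rw [mem_box] at ht
    refine ⟨?_, ht.2.1, ht.2.2⟩
    show |i - x| ≤ 1
    rw [abs_le]
    omega
  · obtain ⟨v, hv, rfl⟩ := (hD.mem t).1 ht
    have h1 : xy (tl lo k y v) = v.2 := by
      unfold tl
      split_ifs <;> rfl
    rw [h1, hφ, Flr.mvF_tl hX hv]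
    unfold cvF
    simp only
    refine ⟨?_, trivial⟩
    split_ifs
    · rw [abs_le]; omega
    · rw [abs_le]; omega
  · intro σ'' h h3 w w' hw hw'
    refine hF.wall hX hC hD hX' hD' (i0 := n * m.x 3 + σ'' 3) ?_ (he3 σ'' _ rfl) hEB (hEB' σ'' h _ rfl)
      (hEE σ'' h h3) hM (hM' σ'' h) hw hw'
    rcases h3 with h3 | h3 <;> omega
  · rintro h1 ⟨w, hw⟩
    -- the two choices
    let f : ℤ → Fin 4 → ℕ := fun i0 j => if j = 3 then (i0 - n * m.x 3).toNat else σ' j
    have hf : ∀ i0, i0 = x - 1 ∨ i0 = x → (∀ j, j ≠ 3 → f i0 j = σ' j) ∧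
        (f i0 3 = σ' 3 ∨ f i0 3 + 1 = σ' 3) ∧ i0 = n * m.x 3 + f i0 3 := by
      intro i0 hi0
      refine ⟨fun j hj => if_neg hj, ?_, ?_⟩
      · show (i0 - n * m.x 3).toNat = σ' 3 ∨ (i0 - n * m.x 3).toNat + 1 = σ' 3
        omega
      · show i0 = n * m.x 3 + ((i0 - n * m.x 3).toNat : ℤ)
        omega
    obtain ⟨i0, hi0, w', hw'⟩ := hF.exists_wall hX hC hD hX' hD' (E' := fun i0 => Set.range (m.e n (f i0)))
      (fun i0 hi0 => he3 _ i0 (hf i0 hi0).2.2) hEB
      (fun i0 hi0 => hEB' _ (hf i0 hi0).1 i0 (hf i0 hi0).2.2) (fun i0 hi0 => hEE _ (hf i0 hi0).1 (hf i0 hi0).2.1)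
      hM (fun i0 hi0 => hM' _ (hf i0 hi0).1) hw
    exact ⟨f i0, (hf i0 hi0).1, (hf i0 hi0).2.1, w', hw'⟩
  · rintro σ'' h h3 ⟨w', hw'⟩
    refine hF.exists_wall' hX hC hD hX' hD' (i0 := n * m.x 3 + σ'' 3) ?_ (he3 σ'' _ rfl) (Or.inl rfl) hEB
      (hEB' σ'' h _ rfl) (hEE σ'' h h3) hM (hM' σ'' h) hw'
    rcases h3 with h3 | h3 <;> omega

end Full.S4
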