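import Pool.Agent.Full.S4.PathOk
import Pool.Agent.Full.S4.LastS

/-!
# (S4) the fourth mark
-/

set_option autoImplicit false

namespace Full.S4
open Function Relation Full.Shape Full.Loc Full.Geo

/-- the last move -/
theorem lastOk {S : Shape} (hS : S.Ok) {m : S.Marks} (hm : m.Ok) : LastOk m := by
  obtain ⟨u, v, hu, hv, hv3, h⟩ := exists_last hS (tree hS) hm
  refine ⟨8, fun n hn => ⟨u, v, fun i => ?_, fun j => ?_, hv3, ?_⟩⟩
  · rcases hu i with h1 | h1 <;> rw [h1] <;> norm_num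
  · rcases hv j with h1 | h1 <;> rw [h1] <;> norm_num
  intro s s' σ σ' hs hσ hs4 hs4' hσ4 hσ4' h1 x y hx hy hy'
  subst hx
  have h3 : σ' 3 = σ 3 := by
    have := hσ 3
    rw [hv3] at this
    omega
  obtain ⟨B, B', φ, hM⟩ := h n s σ s' σ' hs hσ ⟨hn, fun i => by have := hs4 i; omega⟩
    ⟨hn, fun i => by have := hs4' i; omega⟩ hσ4 hσ4' y (by omega) (by omega)
  refine ⟨B, B', φ, hM.same, hM.z, ?_, fun j => ⟨(Finset.mem_sdiff.1 (hM.mark j).1).2, (hM.mark j).2⟩,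
    fun t ht => ?_, fun w w' hw hw' => ?_, fun w hw => hM.ex h1 ⟨w, hw⟩⟩
  · rw [e_eq hm, h3]
    exact hM.e3 _ (by omega) le_rfl
  · obtain ⟨h4, h5, h6⟩ := hM.win t ht
    exact ⟨h4.trans (by norm_num), h5, h6.le⟩
  · exact hM.wall σ' (fun _ _ => rfl) (Or.inl rfl) w w' hw hw'

end Full.S4

namespace Full

/-- **(S4) the fourth mark** -/
theorem s4 : S4 := S4.s4_of_last fun _ hS _ hm => S4.lastOk hS hm

end Full
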