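import Pool.Agent.Full.P5.Arcs
import Pool.Agent.Full.Geo.Label

/-!
# The fourth mark

* `Shape.lab4`: a shape with its closed wall with four marks is a labelled region in the sense of
  `P5.Lab`, the end `z` is the mark `3`;
* `Shape.exit_ne_one`: the strand of the mark `3` does not end at the mark `1`;
  `Shape.P_exit_zero`, `Shape.P_exit_one`, `Shape.P_exit_two`: the probabilities of its exits;
* `Shape.avSh_half`: averages over the admissible shifts of the marks `0, 1, 2` and of the four marks.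
-/

set_option autoImplicit false

namespace Full
open Function Relation Build Geo Pool.Agent.Helper69.RSW

namespace Shape
variable {S : Shape} {m : S.Marks} {n : ℕ}

/-- the label (mark `3` = end `z`) of the part of the boundary between two marks -/
def tri : Fin 4 → Fin 3 := ![2, 0, 1, 1]

lemma fin4_cases (j : Fin 4) : j = 3 ∨ ∃ i : Fin 3, j = i.castSucc := by
  revert j
  decide

section
variable (hS : S.Ok) (hm : m.Ok) {a : Sh S n} (hs : S.Small2 n a.s) (hσ : ∀ j, 4 * a.σ j ≤ n)
  {w : Half (ℤ × ℤ) → Half (ℤ × ℤ)} (hw : IsW4 m n a w)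
include hS hm hs hσ

/-- every boundary half edge is followed by a mark -/
theorem meets4 : Meets (S.T n a.s) (plane.glue (S.T n a.s)) (Set.range (m.e n a.σ)) := by
  have h := labCyc hS m hm hs hσ
  intro x hx
  obtain ⟨k, h1, h2⟩ := h.reach_e hx
  exact ⟨k, h1, h2⟩

include hw

/-- **the region with the four marks, the mark `3` is the end `z`** -/
theorem lab4 : P5.Lab (S.T n a.s) (plane.glue (S.T n a.s)) w (m.e n a.σ 3)
    (fun j : Fin 3 => m.e n a.σ j.castSucc) (fun u => tri (S.lab m n a.s a.σ u)) := by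
  have h := labCyc hS m hm hs hσ
  have hG := plane.glu (S.T n a.s)
  have hE : ∀ j, Bd (S.T n a.s) w (m.e n a.σ j) := fun j =>
    ⟨(h.mem j).1, (hw.ends _ (h.mem j)).2 ⟨j, rfl⟩⟩
  have hinj : ∀ i j : Fin 4, i ≠ j → m.e n a.σ i ≠ m.e n a.σ j := fun i j hij => h.e_ne hij
  refine ⟨hG, hw.toWall, hE 3, fun i => hE _, fun i => ?_, fun i j hij => ?_, fun x hx => ?_,
    P5.SCz.of_sc (sc hS hs) _, fun u hu hne => ?_, fun i => ?_, fun u hu _ i => ?_⟩
  · refine hinj _ _ ?_
    revert i
    decide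
  · by_contra hne
    exact hinj i.castSucc j.castSucc (fun h1 => hne (Fin.castSucc_injective _ h1)) hij
  · have hbd : Bd (S.T n a.s) (plane.glue (S.T n a.s)) x := by
      refine ⟨hx.1, ?_⟩
      by_contra h1
      have h2 := hw.toWall.ext x h1
      rw [hx.2] at h2
      exact h1 h2.symm
    obtain ⟨j, hj⟩ := (hw.ends x hbd).1 hx.2
    rcases fin4_cases j with rfl | ⟨i, rfl⟩
    · exact Or.inl hj.symm
    · exact Or.inr ⟨i, hj.symm⟩
  · show tri (S.lab m n a.s a.σ _) = tri (S.lab m n a.s a.σ u)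
    by_cases h3 : u = m.e n a.σ 3
    · rw [h3, h.lab_n 3, h.lab_e 3]
      decide
    · rw [h.step u hu]
      intro j
      rcases fin4_cases j with rfl | ⟨i, rfl⟩
      · exact h3
      · exact hne i
  · show tri (S.lab m n a.s a.σ _) = _ ∧ tri (S.lab m n a.s a.σ _) = _
    rw [h.lab_e, h.lab_n]
    revert i
    decide
  · obtain ⟨k, hk⟩ := h.cyc u hu _ (h.mem i.castSucc)
    exact ⟨k, hk⟩

/-- **the strand of the mark `3` does not end at the mark `1`** -/
theorem exit_ne_one (ω : Finset (ℤ × ℤ)) : other (mate ω) w (m.e n a.σ 3) ≠ m.e n a.σ 1 := by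
  intro h1
  have h := lab4 hS hm hs hσ hw
  obtain ⟨c, hc⟩ := h.mk'.col (ω := ω) (j := 1) h1
  have hz := hc.hit _ (Conn.refl _)
  have hlab : tri (S.lab m n a.s a.σ (m.e n a.σ 3)) = 1 := by
    rw [(labCyc hS m hm hs hσ).lab_e 3]
    decide
  have hne : next (plane.glue (S.T n a.s)) (m.e n a.σ 3) ≠ m.e n a.σ 3 := by
    intro h2
    have h3 := (labCyc hS m hm hs hσ).lab_n 3
    rw [h2, (labCyc hS m hm hs hσ).lab_e 3] at h3
    exact absurd h3 (by decide)
  have h2 := h.val_w hc.corner (by rw [hz.1, hz.2]) (h.bd_of_w h.bz) (Or.inl hne) (Or.inr h.bz.2)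
  simp only [hlab] at h2
  have h3 : c (m.e n a.σ 0) = 1 := hc.e2
  have h4 : c (m.e n a.σ 3) = c (m.e n a.σ 0) := h2
  rw [hz.1, h3] at h4
  exact absurd h4 (by decide)

/-- the exits of the strand of the mark `3` -/
theorem exit_cases (ω : Finset (ℤ × ℤ)) : other (mate ω) w (m.e n a.σ 3) = m.e n a.σ 0 ∨
    other (mate ω) w (m.e n a.σ 3) = m.e n a.σ 2 := by
  have h := lab4 hS hm hs hσ hw
  have h1 := h.mk'.glu.other_bd (ω := ω) h.bz
  rcases h.ends _ h1 with h2 | ⟨i, hi⟩
  · exact absurd h2 (h.mk'.glu.other_ne h.bz)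
  · fin_cases i
    · exact Or.inl hi
    · exact absurd hi (exit_ne_one hS hm hs hσ hw ω)
    · exact Or.inr hi

omit hw in
/-- the closed wall is unique -/
theorem isW4_unique {w w' : Half (ℤ × ℤ) → Half (ℤ × ℤ)} (h : IsW4 m n a w) (h' : IsW4 m n a w') :
    w = w' := by
  have h1 : IsW (S.T n a.s) (plane.glue (S.T n a.s)) (Set.range (m.e n a.σ)) w := h
  exact h1.eq_of (plane.glu _) (meets4 hS hm hs hσ) h'

/-- the probability of the exit `e 0` -/
theorem P_exit_zero : P (S.T n a.s) (fun ω => other (mate ω) w (m.e n a.σ 3) = m.e n a.σ 0) =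
    P4 m n a := by
  have hex : ∃ w, IsW4 m n a w := ⟨w, hw⟩
  unfold P4
  rw [dif_pos hex, isW4_unique hS hm hs hσ hw hex.choose_spec]

theorem P_exit_one : P (S.T n a.s) (fun ω => other (mate ω) w (m.e n a.σ 3) = m.e n a.σ 1) = 0 := by
  rw [← P_false (S.T n a.s)]
  exact P_congr fun ω _ => ⟨fun h => exit_ne_one hS hm hs hσ hw ω h, fun h => h.elim⟩

/-- the probability of the exit `e 2` -/
theorem P_exit_two : P (S.T n a.s) (fun ω => other (mate ω) w (m.e n a.σ 3) = m.e n a.σ 2) =
    1 - P4 m n a := by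
  rw [← P_exit_zero hS hm hs hσ hw, ← P_true (S.T n a.s), eq_sub_iff_add_eq,
    ← P_add_of_disjoint]
  · refine P_congr fun ω _ => ⟨fun _ => trivial, fun _ => ?_⟩
    exact (exit_cases hS hm hs hσ hw ω).symm
  · rintro ω - ⟨h1, h2⟩
    rw [h1] at h2
    exact (labCyc hS m hm hs hσ).e_ne (show (2 : Fin 4) ≠ 0 by decide) h2

end

/-! ### averages -/

/-- an alternating predicate holds for half of the numbers -/
lemma card_alt (M : ℕ) (A : ℕ → Prop) [DecidablePred A] (h : ∀ v, v + 1 < M → (A (v + 1) ↔ ¬ A v)) :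
    M ≤ 2 * ((Finset.range M).filter A).card + 1 ∧ 2 * ((Finset.range M).filter A).card ≤ M + 1 := by
  induction M using Nat.strong_induction_on with
  | _ M ih =>
    rcases M with _ | _ | M
    · simp
    · have h1 : ((Finset.range 1).filter A).card ≤ 1 := by
        have := Finset.card_filter_le (Finset.range 1) A
        simpa using this
      show 1 ≤ 2 * ((Finset.range 1).filter A).card + 1 ∧ 2 * ((Finset.range 1).filter A).card ≤ 1 + 1
      omega
    · have h1 := ih M (by omega) fun v hv => h v (by omega)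
      have h2 := h M (by omega)
      have h3 : ((Finset.range (M + 1 + 1)).filter A).card = ((Finset.range M).filter A).card + 1 := by
        rw [Finset.range_add_one, Finset.filter_insert, Finset.range_add_one, Finset.filter_insert]
        by_cases h4 : A M
        · rw [if_pos h4, if_neg fun h5 => (h2.1 h5) h4, Finset.card_insert_of_notMem (by simp)]
        · rw [if_neg h4, if_pos (h2.2 h4), Finset.card_insert_of_notMem (by simp)]
      show M + 1 + 1 ≤ 2 * ((Finset.range (M + 1 + 1)).filter A).card + 1 ∧ _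
      rw [h3]
      omega

/-- weights which are equal up to one half change an average by at most `2 K / (M - 1)` -/
lemma avg_half {ι : Type*} [Fintype ι] {M : ℕ} (hM : 2 ≤ M) {P : ι → Prop} [DecidablePred P] {F : ι → ℂ}
    {N : ι → ℕ} (hN : ∀ b, P b → M ≤ 2 * N b + 1 ∧ 2 * N b ≤ M + 1) (hN0 : ∀ b, ¬ P b → N b = 0) {K : ℝ}
    (hK0 : 0 ≤ K) (hK : ∀ b, P b → ‖F b‖ ≤ K) :
    ‖(∑ b, if P b then F b else 0) / ((Finset.univ.filter P).card : ℂ) -
      (∑ b, (N b : ℂ) * F b) / ((∑ b, N b : ℕ) : ℂ)‖ ≤ 2 * K / (M - 1) := by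
  have hM' : (2 : ℝ) ≤ M := by exact_mod_cast hM
  have hM1 : (0 : ℝ) < (M : ℝ) - 1 := by linarith
  set B := (Finset.univ.filter P).card with hB
  rcases Nat.eq_zero_or_pos B with h0 | h0
  · have h1 : ∀ b, ¬ P b := by
      intro b hb
      have h2 := Finset.card_eq_zero.1 (hB.symm.trans h0)
      have h3 : b ∈ Finset.univ.filter P := Finset.mem_filter.2 ⟨Finset.mem_univ _, hb⟩
      rw [h2] at h3
      exact absurd h3 (Finset.notMem_empty _)
    have h2 : ∑ b, (if P b then F b else 0) = 0 := Finset.sum_eq_zero fun b _ => if_neg (h1 b)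
    have h3 : ∑ b, (N b : ℂ) * F b = 0 := Finset.sum_eq_zero fun b _ => by rw [hN0 b (h1 b)]; simp
    rw [h2, h3]
    simp only [zero_div, sub_zero, norm_zero]
    positivity
  have hBR : (0 : ℝ) < B := by exact_mod_cast h0
  set W : ℕ := ∑ b, N b with hW
  set A : ℂ := (∑ b, if P b then F b else 0) / (B : ℂ) with hA
  have hBC : (B : ℂ) ≠ 0 := by exact_mod_cast h0.ne'
  have hsumF : ∑ b, (if P b then F b else 0) = B * A := by
    rw [hA]; field_simp
  have hAK : ‖A‖ ≤ K := by
    rw [hA, norm_div, Complex.norm_natCast, div_le_iff₀ hBR]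
    calc ‖∑ b, (if P b then F b else 0)‖ ≤ ∑ b, ‖(if P b then F b else 0)‖ := norm_sum_le _ _
      _ ≤ ∑ b, (if P b then K else 0) := by
          refine Finset.sum_le_sum fun b _ => ?_
          by_cases hb : P b
          · rw [if_pos hb, if_pos hb]; exact hK b hb
          · rw [if_neg hb, if_neg hb]; simp
      _ = K * B := by rw [← Finset.sum_filter, Finset.sum_const, nsmul_eq_mul, mul_comm]
  -- the total weight
  have hWeq : (W : ℝ) = ∑ b, (if P b then (N b : ℝ) else 0) := by
    rw [hW]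
    push_cast
    refine Finset.sum_congr rfl fun b _ => ?_
    by_cases hb : P b
    · rw [if_pos hb]
    · rw [if_neg hb, hN0 b hb]; simp
  have hWlow : (M - 1) / 2 * B ≤ (W : ℝ) := by
    rw [hWeq, ← Finset.sum_filter]
    calc ((M : ℝ) - 1) / 2 * B = ∑ b ∈ Finset.univ.filter P, ((M : ℝ) - 1) / 2 := by
          rw [Finset.sum_const, nsmul_eq_mul, mul_comm]
      _ ≤ _ := by
          refine Finset.sum_le_sum fun b hb => ?_
          have h1 := (hN b (Finset.mem_filter.1 hb).2).1
          have h2 : (M : ℝ) ≤ 2 * N b + 1 := by exact_mod_cast h1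
          linarith
  have hWpos : (0 : ℝ) < W := lt_of_lt_of_le (mul_pos (by linarith) hBR) hWlow
  have hWC : (W : ℂ) ≠ 0 := by
    have h1 : (W : ℝ) ≠ 0 := hWpos.ne'
    exact_mod_cast h1
  -- the difference
  have key : ‖A * W - ∑ b, (N b : ℂ) * F b‖ ≤ K * B := by
    have e1 : A * W - ∑ b, (N b : ℂ) * F b =
        ∑ b, (if P b then ((M : ℂ) / 2 - N b) * (F b - A) else 0) := by
      have e2 : ∀ b, (if P b then ((M : ℂ) / 2 - N b) * (F b - A) else 0) =
          (M : ℂ) / 2 * (if P b then F b else 0) - (N b : ℂ) * F b -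
            ((M : ℂ) / 2 * (if P b then A else 0) - A * N b) := by
        intro b
        by_cases hb : P b
        · rw [if_pos hb, if_pos hb, if_pos hb]; ring
        · rw [if_neg hb, if_neg hb, if_neg hb, hN0 b hb]; push_cast; ring
      simp only [e2]
      rw [Finset.sum_sub_distrib, Finset.sum_sub_distrib, Finset.sum_sub_distrib, ← Finset.mul_sum,
        ← Finset.mul_sum, ← Finset.mul_sum, hsumF, ← Finset.sum_filter, Finset.sum_const, nsmul_eq_mul, hW]
      push_cast
      ring
    rw [e1]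
    calc ‖∑ b, (if P b then ((M : ℂ) / 2 - N b) * (F b - A) else 0)‖
        ≤ ∑ b, ‖(if P b then ((M : ℂ) / 2 - N b) * (F b - A) else 0)‖ := norm_sum_le _ _
      _ ≤ ∑ b, (if P b then K else 0) := by
          refine Finset.sum_le_sum fun b _ => ?_
          by_cases hb : P b
          · rw [if_pos hb, if_pos hb, norm_mul]
            have h1 := hN b hb
            have h2 : (M : ℝ) ≤ 2 * N b + 1 := by exact_mod_cast h1.1
            have h3 : 2 * (N b : ℝ) ≤ M + 1 := by exact_mod_cast h1.2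
            have h4 : ‖(M : ℂ) / 2 - N b‖ ≤ 1 / 2 := by
              have h5 : (M : ℂ) / 2 - N b = (((M : ℝ) / 2 - N b : ℝ) : ℂ) := by push_cast; ring
              rw [h5, Complex.norm_real, Real.norm_eq_abs, abs_le]
              constructor <;> linarith
            have h6 : ‖F b - A‖ ≤ 2 * K := by
              have h7 := norm_sub_le (F b) A
              have h8 := hK b hb
              linarith
            calc _ ≤ 1 / 2 * (2 * K) := mul_le_mul h4 h6 (norm_nonneg _) (by norm_num)
              _ = K := by ring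
          · rw [if_neg hb, if_neg hb]; simp
      _ = K * B := by rw [← Finset.sum_filter, Finset.sum_const, nsmul_eq_mul, mul_comm]
  have e3 : A - (∑ b, (N b : ℂ) * F b) / (W : ℂ) = (A * W - ∑ b, (N b : ℂ) * F b) / (W : ℂ) := by
    field_simp
  rw [e3, norm_div, Complex.norm_natCast, div_le_div_iff₀ hWpos hM1]
  calc ‖A * W - ∑ b, (N b : ℂ) * F b‖ * ((M : ℝ) - 1) ≤ K * B * (M - 1) :=
        mul_le_mul_of_nonneg_right key hM1.le
    _ = 2 * K * ((M - 1) / 2 * B) := by ring
    _ ≤ 2 * K * W := mul_le_mul_of_nonneg_left hWlow (by positivity)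

/-- the shifts as the shifts without the mark `3`, and the shift of the mark `3` -/
def Sh.split (S : Shape) (n : ℕ) :
    ((S.Q × Bool → Fin (n / 4)) × (Fin 3 → Fin (n / 4))) × Fin (n / 4) ≃ Sh S n where
  toFun b := (b.1.1, Fin.snoc b.1.2 b.2)
  invFun a := ((a.1, fun j => a.2 j.castSucc), a.2 3)
  left_inv b := by
    obtain ⟨⟨s, c⟩, v⟩ := b
    have h1 : (Fin.snoc c v : Fin 4 → Fin (n / 4)) 3 = v := Fin.snoc_last (α := fun _ => Fin (n / 4)) v c
    refine Prod.ext (Prod.ext rfl ?_) h1
    funext j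
    exact Fin.snoc_castSucc (α := fun _ => Fin (n / 4)) v c j
  right_inv a := by
    obtain ⟨s, c⟩ := a
    refine Prod.ext rfl ?_
    funext j
    rcases fin4_cases j with rfl | ⟨i, rfl⟩
    · show (Fin.snoc (fun j : Fin 3 => c j.castSucc) (c 3) : Fin 4 → Fin (n / 4)) (Fin.last 3) = c 3
      exact Fin.snoc_last (α := fun _ => Fin (n / 4)) _ _
    · exact Fin.snoc_castSucc (α := fun _ => Fin (n / 4)) _ _ i

lemma Sh.split_three (b : (S.Q × Bool → Fin (n / 4)) × (Fin 3 → Fin (n / 4))) (v : Fin (n / 4)) :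
    (Sh.split S n (b, v)).2 3 = v := by
  show (Fin.snoc b.2 v : Fin 4 → Fin (n / 4)) (Fin.last 3) = v
  exact Fin.snoc_last (α := fun _ => Fin (n / 4)) _ _

lemma Sh.split_castSucc (b : (S.Q × Bool → Fin (n / 4)) × (Fin 3 → Fin (n / 4))) (v : Fin (n / 4))
    (i : Fin 3) : (Sh.split S n (b, v)).2 i.castSucc = b.2 i :=
  Fin.snoc_castSucc (α := fun _ => Fin (n / 4)) _ _ i

/-- the shifts differ at the mark `3` only -/
def SameBut (a a' : Sh S n) : Prop := a.1 = a'.1 ∧ ∀ j, j ≠ 3 → a.2 j = a'.2 j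

lemma sameBut_split (b : (S.Q × Bool → Fin (n / 4)) × (Fin 3 → Fin (n / 4))) (v v' : Fin (n / 4)) :
    SameBut (Sh.split S n (b, v)) (Sh.split S n (b, v')) := by
  refine ⟨rfl, fun j hj => ?_⟩
  rcases fin4_cases j with rfl | ⟨i, rfl⟩
  · exact absurd rfl hj
  · rw [Sh.split_castSucc, Sh.split_castSucc]

open Classical in
/-- **averages over the admissible shifts of three and of four marks**: `p` and `f` do not depend on the
shift of the mark `3`, and `p₁` holds for every second shift of the mark `3` -/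
theorem avSh_half {p p₁ : Sh S n → Prop} {f : Sh S n → ℂ} (h1 : ∀ a, p₁ a → p a)
    (hp : ∀ a a', SameBut a a' → (p a ↔ p a')) (hf : ∀ a a', SameBut a a' → p a → f a = f a')
    (halt : ∀ a a', SameBut a a' → (a'.2 3 : ℕ) = a.2 3 + 1 → p a → (p₁ a' ↔ ¬ p₁ a)) {K : ℝ} (hK0 : 0 ≤ K)
    (hK : ∀ a, p a → ‖f a‖ ≤ K) (hn : 16 ≤ n) :
    ‖avSh n p f - avSh n p₁ f‖ ≤ 16 * K / n := by
  set M := n / 4 with hM
  have hM4 : 4 ≤ M := by omega
  set v0 : Fin M := ⟨0, by omega⟩ with hv0
  set sp := Sh.split S n with hsp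
  set P : (S.Q × Bool → Fin M) × (Fin 3 → Fin M) → Prop := fun b => p (sp (b, v0)) with hP
  set F : (S.Q × Bool → Fin M) × (Fin 3 → Fin M) → ℂ := fun b => if P b then f (sp (b, v0)) else 0 with hF
  set N : (S.Q × Bool → Fin M) × (Fin 3 → Fin M) → ℕ :=
    fun b => (Finset.univ.filter fun v : Fin M => p₁ (sp (b, v))).card with hNdef
  have hpP : ∀ b v, p (sp (b, v)) ↔ P b := fun b v => hp _ _ (sameBut_split b v v0)
  have hfF : ∀ b v, P b → f (sp (b, v)) = F b := fun b v hb => by
    simp only [hF]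
    rw [if_pos hb]
    exact hf _ _ (sameBut_split b v v0) ((hpP b v).2 hb)
  have hN0 : ∀ b, ¬ P b → N b = 0 := by
    intro b hb
    rw [hNdef]
    simp only
    rw [Finset.card_eq_zero, Finset.filter_eq_empty_iff]
    intro v _ hv
    exact hb ((hpP b v).1 (h1 _ hv))
  have hN : ∀ b, P b → M ≤ 2 * N b + 1 ∧ 2 * N b ≤ M + 1 := by
    intro b hb
    have e1 : N b = ((Finset.range M).filter fun v => ∃ h : v < M, p₁ (sp (b, ⟨v, h⟩))).card := by
      rw [hNdef]
      simp only
      refine Finset.card_bij (fun v _ => (v : ℕ)) (fun v hv => ?_) (fun v _ v' _ h => Fin.ext h)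
        (fun v hv => ?_)
      · rw [Finset.mem_filter] at hv ⊢
        exact ⟨Finset.mem_range.2 v.2, v.2, hv.2⟩
      · rw [Finset.mem_filter] at hv
        obtain ⟨-, h, hv⟩ := hv
        exact ⟨⟨v, h⟩, Finset.mem_filter.2 ⟨Finset.mem_univ _, hv⟩, rfl⟩
    rw [e1]
    refine card_alt M _ fun v hv => ?_
    have h2 := halt (sp (b, ⟨v, by omega⟩)) (sp (b, ⟨v + 1, hv⟩)) (sameBut_split b _ _) (by
      rw [Sh.split_three, Sh.split_three]) ((hpP b _).2 hb)
    constructor
    · rintro ⟨_, h3⟩ ⟨_, h4⟩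
      exact (h2.1 h3) h4
    · intro h3
      exact ⟨hv, h2.2 fun h4 => h3 ⟨by omega, h4⟩⟩
  -- the two averages
  have hMC : (M : ℂ) ≠ 0 := by
    have : M ≠ 0 := by omega
    exact_mod_cast this
  have hcard : ∀ q : Sh S n → Prop, (Finset.univ.filter q).card =
      ∑ b, (Finset.univ.filter fun v : Fin M => q (sp (b, v))).card := by
    intro q
    rw [Finset.card_filter, ← Equiv.sum_comp sp, Fintype.sum_prod_type]
    refine Finset.sum_congr rfl fun b _ => ?_
    rw [Finset.card_filter]
  have hsum : ∀ q : Sh S n → Prop, (∀ a, q a → p a) → ∑ a, (if q a then f a else 0) =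
      ∑ b, ((Finset.univ.filter fun v : Fin M => q (sp (b, v))).card : ℂ) * F b := by
    intro q hq
    rw [← Equiv.sum_comp sp, Fintype.sum_prod_type]
    refine Finset.sum_congr rfl fun b _ => ?_
    rw [← Finset.sum_filter, ← nsmul_eq_mul, ← Finset.sum_const]
    refine Finset.sum_congr rfl fun v hv => ?_
    exact hfF b v ((hpP b v).1 (hq _ (Finset.mem_filter.1 hv).2))
  have hcP : ∀ b, (Finset.univ.filter fun v : Fin M => p (sp (b, v))).card = if P b then M else 0 := by
    intro b
    by_cases hb : P b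
    · rw [if_pos hb, Finset.filter_true_of_mem fun v _ => (hpP b v).2 hb, Finset.card_univ,
        Fintype.card_fin]
    · rw [if_neg hb, Finset.card_eq_zero, Finset.filter_eq_empty_iff]
      exact fun v _ hv => hb ((hpP b v).1 hv)
  have eA : avSh n p f = (∑ b, if P b then F b else 0) / ((Finset.univ.filter P).card : ℂ) := by
    unfold avSh
    rw [hsum p fun _ h => h, hcard p]
    simp only [hcP]
    rw [← Finset.sum_filter, Finset.sum_const, smul_eq_mul]
    have e2 : ∑ b, (((if P b then M else 0 : ℕ)) : ℂ) * F b = M * ∑ b, (if P b then F b else 0) := by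
      rw [Finset.mul_sum]
      refine Finset.sum_congr rfl fun b _ => ?_
      by_cases hb : P b
      · rw [if_pos hb, if_pos hb]
      · rw [if_neg hb, if_neg hb]; simp
    rw [e2, Nat.cast_mul, mul_comm ((Finset.univ.filter P).card : ℂ), mul_div_mul_left _ _ hMC]
  have eB : avSh n p₁ f = (∑ b, (N b : ℂ) * F b) / ((∑ b, N b : ℕ) : ℂ) := by
    unfold avSh
    rw [hsum p₁ h1, hcard p₁]
  rw [eA, eB]
  refine (avg_half (by omega) hN hN0 hK0 fun b hb => ?_).trans ?_
  · simp only [hF]
    rw [if_pos hb]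
    exact hK _ hb
  · have hnM : (n : ℝ) < 4 * M + 4 := by
      have : n < 4 * M + 4 := by omega
      exact_mod_cast this
    have hM4' : (4 : ℝ) ≤ M := by exact_mod_cast hM4
    have hn0 : (0 : ℝ) < n := by
      have : 0 < n := by omega
      exact_mod_cast this
    rw [div_le_div_iff₀ (by linarith) hn0]
    nlinarith

end Shape
end Full
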