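import Pool.Agent.Full.Geo.WallsF
import Pool.Agent.Full.Geo.AvSh
import Pool.Agent.Full.S4.Four

/-!
# The fourth mark: admissible shifts and averages

The domains with the end `z` in the room `q` for the shifts `a` are compared with the plane regions with
four marks for the shifts `a' = a + (u, v)`.
* `Shape.isWz_shift`, `Shape.isW4_shift`: if both closed walls exist for one pair `a`, `a'` then the
  criteria for all pairs correspond;
* `Shape.avSh_four`: comparison of the averages.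
-/

set_option autoImplicit false

namespace Full
open Function Relation Build Geo

namespace Shape
variable {S : Shape} {m : S.Marks} {n : ℕ}

/-- the parity of a mark as a sum -/
lemma mpar_add (hm : m.Ok) : ∃ c : Fin 4 → ℤ, ∀ (σ : Fin 4 → ℕ) (j : Fin 4),
    mpar m n σ j = (c j + σ j) % 2 :=
  ⟨fun j => n * m.x j + S.fb n (.inl (m.room j)), fun σ j => by rw [mpar_eq hm]; congr 1; ring⟩

section
variable (hS : S.Ok) (hm : m.Ok) (hn : 8 ≤ n) {q : S.Q} {x y : ℤ} (hin : ∀ a : Sh S n, S.In n a.s q x y)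
  {v : Fin 4 → ℤ} {a₀ a₀' : Sh S n} (hv₀ : ∀ j, (a₀'.σ j : ℤ) = a₀.σ j + v j)
  (h₀ : ∃ w, IsWz m n q x y a₀ w) (h₀' : ∃ w, IsW4 m n a₀' w)
include hS hm hn hin hv₀ h₀ h₀'

/-- **the criterion for `z` in terms of the shifted marks** -/
theorem isWz_shift (a a' : Sh S n) (hv : ∀ j, (a'.σ j : ℤ) = a.σ j + v j) :
    (∃ w, IsWz m n q x y a w) ↔
      (mpar m n a'.σ 1 + mpar m n a'.σ 0) % 2 = 1 ∧ (mpar m n a'.σ 2 + mpar m n a'.σ 1) % 2 = 1 := by
  rw [isWz_adm hS m hm hn q a₀ (hin _)] at h₀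
  rw [isW4_adm hS m hm hn a₀'] at h₀'
  rw [isWz_adm hS m hm hn q a (hin _)]
  obtain ⟨c, hc⟩ := mpar_add (n := n) hm
  unfold Adm at h₀ ⊢
  have e0 := h₀' 0
  have e1 := h₀' 1
  rw [show (0 : Fin 4) + 1 = 1 from rfl] at e0
  rw [show (1 : Fin 4) + 1 = 2 from rfl] at e1
  simp only [hc] at h₀ e0 e1 ⊢
  have v0 := hv₀ 0
  have v1 := hv₀ 1
  have v2 := hv₀ 2
  have w0 := hv 0
  have w1 := hv 1
  have w2 := hv 2
  generalize (if m.wr q = 0 then (1 : ℤ) else 0) = k0 at *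
  generalize (if m.wr q = 1 then (1 : ℤ) else 0) = k1 at *
  omega

/-- **the criterion for the four marks in terms of the criterion for `z`** -/
theorem isW4_shift (a a' : Sh S n) (hv : ∀ j, (a'.σ j : ℤ) = a.σ j + v j) :
    (∃ w, IsW4 m n a' w) ↔ (∃ w, IsWz m n q x y a w) ∧
      (mpar m n a'.σ 3 + mpar m n a'.σ 2) % 2 = 1 := by
  rw [isWz_shift hS hm hn hin hv₀ h₀ h₀' a a' hv, isW4_adm hS m hm hn a']
  constructor
  · intro h
    have e0 := h 0
    have e1 := h 1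
    have e2 := h 2
    rw [show (0 : Fin 4) + 1 = 1 from rfl] at e0
    rw [show (1 : Fin 4) + 1 = 2 from rfl] at e1
    rw [show (2 : Fin 4) + 1 = 3 from rfl] at e2
    exact ⟨⟨e0, e1⟩, e2⟩
  · rintro ⟨⟨e0, e1⟩, e2⟩ j
    obtain ⟨c, hc⟩ := mpar_add (n := n) hm
    simp only [hc] at e0 e1 e2 ⊢
    fin_cases j
    · show ((c 1 + a'.σ 1) % 2 + (c 0 + a'.σ 0) % 2) % 2 = 1
      exact e0
    · show ((c 2 + a'.σ 2) % 2 + (c 1 + a'.σ 1) % 2) % 2 = 1
      exact e1
    · show ((c 3 + a'.σ 3) % 2 + (c 2 + a'.σ 2) % 2) % 2 = 1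
      exact e2
    · show ((c 0 + a'.σ 0) % 2 + (c 3 + a'.σ 3) % 2) % 2 = 1
      omega

/-- **comparison of the averages**: `f` for the domain with the end `z`, `f'` for the region with four marks -/
theorem avSh_four {u : S.Q × Bool → ℤ} {N : ℕ} (hN : 1 ≤ N) (hu : ∀ i, |u i| ≤ N) (hvN : ∀ j, |v j| ≤ N)
    (hnN : 8 * N + 8 ≤ n) {f f' : Sh S n → ℂ} (hf3 : ∀ a a', SameBut a a' → f a = f a') {K ε : ℝ}
    (hK : ∀ a, ‖f a‖ ≤ K) (hK' : ∀ a, ‖f' a‖ ≤ K) (hε : 0 ≤ ε)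
    (hff : ∀ a a' : Sh S n, (∀ i, (a'.s i : ℤ) = a.s i + u i) → (∀ j, (a'.σ j : ℤ) = a.σ j + v j) →
      (∀ i, N ≤ a.s i ∧ a.s i + N < n / 4) → (∀ j, N ≤ a.σ j ∧ a.σ j + N < n / 4) →
      (∃ w, IsWz m n q x y a w) → (∃ w, IsW4 m n a' w) → ‖f a - f' a'‖ ≤ ε) :
    ‖avSh n (fun a => ∃ w, IsWz m n q x y a w) f - avSh n (fun a => ∃ w, IsW4 m n a w) f'‖ ≤
      ε + 9000 * K * N * (2 * Fintype.card S.Q + 4) / n := by
  obtain ⟨c, hc⟩ := mpar_add (n := n) hm
  set p : Sh S n → Prop := fun a => ∃ w, IsWz m n q x y a w with hp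
  set p₁ : Sh S n → Prop := fun a => p a ∧ (c 3 + c 2 + a.σ 3 + a.σ 2 + v 3 + v 2) % 2 = 1 with hp₁
  have hK0 : 0 ≤ K := (norm_nonneg _).trans (hK a₀)
  have hpar : ∀ a a' : Sh S n, (∀ j, j ≠ 3 → a.σ j % 2 = a'.σ j % 2) → (p a ↔ p a') := by
    intro a a' h
    show (∃ w, IsWz m n q x y a w) ↔ ∃ w, IsWz m n q x y a' w
    rw [isWz_adm hS m hm hn q a (hin _), isWz_adm hS m hm hn q a' (hin _)]
    exact adm_congr hm q h
  have hσ : ∀ {a a' : Sh S n}, SameBut a a' → ∀ j, j ≠ 3 → a.σ j = a'.σ j := by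
    intro a a' h j hj
    have h1 := h.2 j hj
    show (a.2 j : ℕ) = a'.2 j
    rw [h1]
  -- the fourth mark
  have k1 : ‖avSh n p f - avSh n p₁ f‖ ≤ 16 * K / n := by
    refine avSh_half (fun a h => h.1) (fun a a' h => hpar a a' fun j hj => by rw [hσ h j hj])
      (fun a a' h _ => hf3 a a' h) (fun a a' h h3 ha => ?_) hK0 (fun a _ => hK a) (by omega)
    have h4 := (hpar a a' fun j hj => by rw [hσ h j hj]).1 ha
    have h5 := hσ h 2 (by decide)
    have h6 : a'.σ 3 = a.σ 3 + 1 := h3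
    show (p a' ∧ _) ↔ ¬ (p a ∧ _)
    constructor
    · rintro ⟨-, h7⟩ ⟨-, h8⟩
      rw [h6, ← h5] at h7
      push_cast at h7
      omega
    · intro h7
      refine ⟨h4, ?_⟩
      have h8 : ¬ ((c 3 + c 2 + a.σ 3 + a.σ 2 + v 3 + v 2) % 2 = 1) := fun h8 => h7 ⟨ha, h8⟩
      rw [h6, ← h5]
      push_cast
      omega
  -- the shift
  have k2 : ‖avSh n p₁ f - avSh n (fun a => ∃ w, IsW4 m n a w) f'‖ ≤
      ε + 8000 * K * N * (2 * Fintype.card S.Q + 4) / n := by
    refine norm_avSh_sub_le_int p₁ _ f f' u v hu hvN hK hK' (fun a a' h => ?_) (fun a a' h => ?_)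
      (fun a a' h1 h2 h3 h4 => ?_) hε hN hnN
    · have h1 := hpar a a' fun j _ => h j
      have h2 := h 2
      have h3 := h 3
      show (p a ∧ _) ↔ (p a' ∧ _)
      rw [h1]
      refine and_congr_right fun _ => ?_
      omega
    · exact wall4_inv hS m hm hn a a' h
    · have e1 := isW4_shift hS hm hn hin hv₀ h₀ h₀' a a' h2
      have e2 : p₁ a ↔ ∃ w, IsW4 m n a' w := by
        rw [e1]
        show (p a ∧ _) ↔ (p a ∧ _)
        refine and_congr_right fun _ => ?_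
        rw [hc, hc]
        have h5 := h2 2
        have h6 := h2 3
        omega
      exact ⟨e2, fun h5 => hff a a' h1 h2 h3 h4 h5.1 (e2.1 h5)⟩
  have hnR : (0 : ℝ) < n := by
    have : 0 < n := by omega
    exact_mod_cast this
  have hN1 : (1 : ℝ) ≤ N := by exact_mod_cast hN
  have hQ : (0 : ℝ) ≤ Fintype.card S.Q := Nat.cast_nonneg _
  calc _ = ‖(avSh n p f - avSh n p₁ f) + (avSh n p₁ f - avSh n (fun a => ∃ w, IsW4 m n a w) f')‖ := by
        congr 1; ring
    _ ≤ 16 * K / n + (ε + 8000 * K * N * (2 * Fintype.card S.Q + 4) / n) :=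
        (norm_add_le _ _).trans (add_le_add k1 k2)
    _ ≤ ε + 9000 * K * N * (2 * Fintype.card S.Q + 4) / n := by
        have h1 : 16 * K ≤ 1000 * K * N * (2 * Fintype.card S.Q + 4) := by
          have h2 : 16 ≤ 1000 * (N : ℝ) * (2 * Fintype.card S.Q + 4) := by nlinarith
          calc 16 * K ≤ 1000 * (N : ℝ) * (2 * Fintype.card S.Q + 4) * K :=
                mul_le_mul_of_nonneg_right h2 hK0
            _ = _ := by ring
        have h3 : 16 * K / n ≤ 1000 * K * N * (2 * Fintype.card S.Q + 4) / n :=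
          div_le_div_of_nonneg_right h1 hnR.le
        have h4 : 9000 * K * N * (2 * Fintype.card S.Q + 4) / n =
            1000 * K * N * (2 * Fintype.card S.Q + 4) / n + 8000 * K * N * (2 * Fintype.card S.Q + 4) / n := by
          ring
        rw [h4]
        linarith

end

end Shape
end Full
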