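import Pool.Agent.Full.Geo.Deep
import Pool.Agent.Full.Geo.Stack

/-!
# S4: rows near a deep point
-/

set_option autoImplicit false

namespace Full
namespace S4
open Shape Geo

variable {S : Shape}

/-- the rows near a deep point are away from the walls -/
theorem deep_row (hS : S.Ok) {n : ℕ} (hn : 64 ≤ n) {z : ℂ} (hz : S.Deep z) {x j : ℤ}
    (hx : |(n : ℝ) * z.re - x| ≤ 1) (hj : |(n : ℝ) * z.im - j| ≤ (n : ℝ) / 2) :
    ∃ u : S.Q, 2 * (n * S.xl u) + n ≤ 2 * (x - (n : ℤ) / 8) ∧ x + (n : ℤ) / 8 < n * S.xr u ∧ S.fb n u ≤ j ∧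
      j < S.ft n u := by
  have hn0 : (64 : ℝ) ≤ n := by exact_mod_cast hn
  have hnz : (0 : ℤ) < n := by omega
  set J : ℤ := j / n with hJ
  have hJ1 : n * J ≤ j := Int.mul_ediv_self_le hnz.ne'
  have hJ2 : j < n * J + n := Int.lt_mul_ediv_self_add hnz
  have hJ1' : (n : ℝ) * J ≤ j := by exact_mod_cast hJ1
  have hJ2' : (j : ℝ) + 1 ≤ n * J + n := by exact_mod_cast hJ2
  set v : ℝ := (j + 1 / 2) / n with hv
  have hv0 : (n : ℝ) * v = j + 1 / 2 := by rw [hv]; field_simp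
  have hv1 : (J : ℝ) ≤ v := by
    rw [hv, le_div_iff₀ (by linarith)]; linarith
  have hv2 : v ≤ (J : ℝ) + 1 := by
    rw [hv, div_le_iff₀ (by linarith)]; linarith
  rw [abs_le] at hx hj
  have hd1 : |v - z.im| ≤ 51 / 100 := by
    rw [abs_le]
    constructor <;> nlinarith
  -- points of the row
  have hpt : ∀ t : ℝ, |t| ≤ 8 / 10 → (⟨z.re + t, v⟩ : ℂ) ∈ S.dom := by
    intro t ht
    refine hz ?_
    rw [Metric.mem_closedBall, Complex.dist_eq, ← sq_le_one_iff₀ (norm_nonneg _), ← Complex.normSq_eq_norm_sq,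
      Complex.normSq_apply, Complex.sub_re, Complex.sub_im]
    simp only [add_sub_cancel_left]
    have e1 : t * t ≤ 64 / 100 := by
      rw [← abs_mul_abs_self t]
      nlinarith [abs_nonneg t]
    have e2 : (v - z.im) * (v - z.im) ≤ 2601 / 10000 := by
      rw [← abs_mul_abs_self (v - z.im)]
      nlinarith [abs_nonneg (v - z.im)]
    linarith
  have hf1 := Int.floor_le z.re
  have hf2 := Int.lt_floor_add_one z.re
  obtain ⟨u, ⟨h1, h2⟩, h3, h4⟩ := cell_of_mem_dom (c := (⌊z.re⌋, J)) (hpt 0 (by norm_num))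
    (by simpa using hf1) (by simpa using hf2.le) hv1 hv2
  simp only at h1 h2 h3 h4
  have g1 : (S.xl u : ℝ) ≤ z.re := Int.le_floor.1 h1
  have g2 : z.re < S.xr u := Int.floor_lt.1 h2
  have k1 : (S.xl u : ℝ) + 7 / 10 ≤ z.re := by
    by_contra hlt
    have hlt := not_le.1 hlt
    obtain ⟨q', ⟨h1', h2'⟩, h3', h4'⟩ := cell_of_mem_dom (c := (S.xl u - 1, J))
      (hpt (-(8 / 10)) (by rw [abs_neg, abs_of_pos] <;> norm_num))
      (by push_cast; show (S.xl u : ℝ) - 1 ≤ z.re + -(8 / 10); linarith)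
      (by push_cast; show z.re + -(8 / 10) ≤ (S.xl u : ℝ) - 1 + 1; linarith) hv1 hv2
    simp only at h1' h2' h3' h4'
    obtain rfl := room_of_row hS le_rfl (hS.x_lt u) h3 h4 h1' h2' h3' h4'
    omega
  have k2 : z.re + 7 / 10 < S.xr u := by
    by_contra hlt
    have hlt := not_lt.1 hlt
    obtain ⟨q', ⟨h1', h2'⟩, h3', h4'⟩ := cell_of_mem_dom (c := (S.xr u, J))
      (hpt (8 / 10) (by rw [abs_of_pos] <;> norm_num))
      (by show (S.xr u : ℝ) ≤ z.re + 8 / 10; linarith)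
      (by show z.re + 8 / 10 ≤ (S.xr u : ℝ) + 1; linarith) hv1 hv2
    simp only at h1' h2' h3' h4'
    have hxl := hS.x_lt u
    obtain rfl := room_of_row hS h1' h2' h3' h4' (show S.xl u ≤ S.xr u - 1 by omega)
      (show S.xr u - 1 < S.xr u by omega) h3 h4
    omega
  have n8 : (((n : ℤ) / 8 : ℤ) : ℝ) ≤ (n : ℝ) / 8 := by
    have h6 : (((n : ℤ) / 8 : ℤ)) * 8 ≤ (n : ℤ) := by omega
    have h7 : ((((n : ℤ) / 8 : ℤ)) : ℝ) * 8 ≤ (n : ℝ) := by exact_mod_cast h6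
    linarith
  generalize (n : ℤ) / 8 = N8 at n8 ⊢
  refine ⟨u, ?_, ?_, ?_, ?_⟩
  · have : (2 * (n * S.xl u) + n : ℝ) ≤ 2 * (x - N8) := by nlinarith
    exact_mod_cast this
  · have : (x + N8 : ℝ) < n * S.xr u := by nlinarith
    exact_mod_cast this
  · unfold fb
    nlinarith
  · unfold ft
    nlinarith

/-- a deep point is in its room, and the rows near it are away from the walls -/
theorem deep_inq (hS : S.Ok) {n : ℕ} (hn : 64 ≤ n) {z : ℂ} (hz : S.Deep z) {q : S.Q}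
    (hq : ((S.xl q : ℝ) < z.re ∧ z.re < S.xr q) ∧ (S.yb q : ℝ) ≤ z.im ∧ z.im < S.yt q) :
    Inq S n q ⌊(n : ℝ) * z.re⌋ (min (⌊(n : ℝ) * z.im⌋ + 1) (S.ft n q - 1)) ∧
    ∀ y' : ℤ, |y' - min (⌊(n : ℝ) * z.im⌋ + 1) (S.ft n q - 1)| ≤ (n : ℤ) / 4 →
      Strip S n ⌊(n : ℝ) * z.re⌋ ((n : ℤ) / 8) (y' - (n : ℤ) / 8) (y' + (n : ℤ) / 8) := by
  have hn0 : (64 : ℝ) ≤ n := by exact_mod_cast hn
  have hnp : (0 : ℝ) < n := by linarith
  obtain ⟨⟨h1, h2⟩, h3, h4⟩ := hq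
  have hf := fb_lt_ft (n := n) hS (by omega) q
  have hyy := hS.y_lt q
  have e1 : (n * S.xl q : ℤ) ≤ ⌊(n : ℝ) * z.re⌋ := by
    rw [Int.le_floor]
    push_cast
    exact mul_le_mul_of_nonneg_left h1.le hnp.le
  have e2 : ⌊(n : ℝ) * z.re⌋ < (n * S.xr q : ℤ) := by
    rw [Int.floor_lt]
    push_cast
    exact mul_lt_mul_of_pos_left h2 hnp
  have e3 : (n * S.yb q : ℤ) ≤ ⌊(n : ℝ) * z.im⌋ := by
    rw [Int.le_floor]
    push_cast
    exact mul_le_mul_of_nonneg_left h3 hnp.le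
  have e4 : ⌊(n : ℝ) * z.im⌋ < (n * S.yt q : ℤ) := by
    rw [Int.floor_lt]
    push_cast
    exact mul_lt_mul_of_pos_left h4 hnp
  have e5 : (n * S.yb q : ℤ) + n ≤ n * S.yt q := by nlinarith
  have f1 := Int.floor_le ((n : ℝ) * z.im)
  have f2 := Int.lt_floor_add_one ((n : ℝ) * z.im)
  have f3 := Int.floor_le ((n : ℝ) * z.re)
  have f4 := Int.lt_floor_add_one ((n : ℝ) * z.re)
  set y : ℤ := min (⌊(n : ℝ) * z.im⌋ + 1) (S.ft n q - 1) with hy
  have y1 : ⌊(n : ℝ) * z.im⌋ ≤ y := by unfold ft at hy; omega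
  have y2 : y ≤ ⌊(n : ℝ) * z.im⌋ + 1 := by omega
  refine ⟨?_, fun y' hy' j hj1 hj2 => ?_⟩
  · unfold Inq fb
    unfold ft at hy ⊢
    refine ⟨⟨e1, e2⟩, ?_, ?_⟩ <;> omega
  · rw [abs_le] at hy'
    refine deep_row hS hn hz ?_ ?_
    · rw [abs_le]
      constructor <;> linarith
    · have g1 : 8 * (y - j) ≤ 3 * n := by omega
      have g2 : 8 * (j - y) ≤ 3 * n := by omega
      have g1' : 8 * ((y : ℝ) - j) ≤ 3 * n := by exact_mod_cast g1
      have g2' : 8 * ((j : ℝ) - y) ≤ 3 * n := by exact_mod_cast g2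
      have y1' : ((⌊(n : ℝ) * z.im⌋ : ℤ) : ℝ) ≤ y := by exact_mod_cast y1
      have y2' : (y : ℝ) ≤ ((⌊(n : ℝ) * z.im⌋ : ℤ) : ℝ) + 1 := by exact_mod_cast y2
      rw [abs_le]
      constructor <;> linarith

end S4
end Full
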