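import Pool.Agent.Full.S4.Moved
import Pool.Agent.Full.S4.Start
import Pool.Agent.Full.P5.ZPath

/-!
# Moving the interior end along a path of rooms
-/

set_option autoImplicit false

namespace Full.S4
open Function Relation Full.Shape Full.Loc Full.Geo

variable {S : Shape} {m : S.Marks} {n : ℕ} {p : ℤ × ℤ} {r : ℤ}

/-- `(x, y)` is in the room `q`, the box of size `n / 8` around it is in the region, it is near `p` -/
structure Ps (S : Shape) (n : ℕ) (p : ℤ × ℤ) (r : ℤ) (q : S.Q) (x y : ℤ) : Prop where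
  inq : Inq S n q x y
  st : Strip S n x (n / 8) (y - n / 8) (y + n / 8)
  ner : Ner p r (.inl (x, y))

/-- moving in a room, no shifts -/
def Go0 (m : S.Marks) (n : ℕ) (p : ℤ × ℤ) (r : ℤ) (k : ℕ) (q : S.Q) (x y x' y' : ℤ) : Prop :=
  ∀ (s : S.Q × Bool → ℕ) (σ : Fin 4 → ℕ), S.Small2 n s → (∀ j, 4 * σ j ≤ n) →
    Moved m n p r k s σ q x y s σ q x' y'

/-- moving with at most `k` steps, the shifts `u`, `v` do not depend on `s`, `σ` -/
def Go (m : S.Marks) (n : ℕ) (p : ℤ × ℤ) (r : ℤ) (k : ℕ) (q : S.Q) (x y : ℤ) (q' : S.Q) (x' y' : ℤ) : Prop :=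
  ∃ (u : S.Q × Bool → ℤ) (v : Fin 4 → ℤ), (∀ i, |u i| ≤ k) ∧ (∀ j, |v j| ≤ k) ∧
    ∀ (s s' : S.Q × Bool → ℕ) (σ σ' : Fin 4 → ℕ), (∀ i, (s' i : ℤ) = s i + u i) →
      (∀ j, (σ' j : ℤ) = σ j + v j) → (∀ i, k ≤ s i ∧ 4 * (s i + k) ≤ n) →
      (∀ j, k ≤ σ j ∧ 4 * (σ j + k) ≤ n) → Moved m n p r k s σ q x y s' σ' q' x' y'

lemma Ps.in_ (hS : S.Ok) (hn : 8 ≤ n) {s : S.Q × Bool → ℕ} (hs : S.Small2 n s) {q : S.Q} {x y : ℤ}
    (h : Ps S n p r q x y) : S.In n s q x y := by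
  have hn' : (8 : ℤ) ≤ n := by exact_mod_cast hn
  obtain ⟨h1, h2, h3⟩ := h.inq
  have h4 := marg hS hn h.st (u := q) (i := x) (j := y) (by omega) (by omega) (by omega) (by omega) h1.1 h1.2
    h2.le h3
  have h5 := fl_bound hs q
  have h6 := fr_bound hs q
  exact ⟨⟨by omega, by omega⟩, h2, h3⟩

lemma Go0.trans {k k' : ℕ} {q : S.Q} {x y x' y' x'' y'' : ℤ} (h : Go0 m n p r k q x y x' y')
    (h' : Go0 m n p r k' q x' y' x'' y'') : Go0 m n p r (k + k') q x y x'' y'' := by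
  intro s σ hs hσ
  have h1 := (h s σ hs hσ).trans (h' s σ hs hσ) (by positivity) (by positivity)
  push_cast
  exact h1

lemma Go0.mono {k k' : ℕ} {q : S.Q} {x y x' y' : ℤ} (h : Go0 m n p r k q x y x' y') (hk : k ≤ k') :
    Go0 m n p r k' q x y x' y' :=
  fun s σ hs hσ => (h s σ hs hσ).mono le_rfl (by exact_mod_cast hk)

lemma Go0.go (hn : 8 ≤ n) {k : ℕ} {q : S.Q} {x y x' y' : ℤ} (h : Go0 m n p r k q x y x' y') :
    Go m n p r k q x y q x' y' := by
  refine ⟨fun _ => 0, fun _ => 0, fun _ => by simp, fun _ => by simp, fun s s' σ σ' h1 h2 h3 h4 => ?_⟩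
  have e1 : s' = s := by funext i; have := h1 i; beta_reduce at this; omega
  have e2 : σ' = σ := by funext i; have := h2 i; beta_reduce at this; omega
  rw [e1, e2]
  exact h s σ ⟨hn, fun i => by have := h3 i; omega⟩ fun j => by have := h4 j; omega

lemma Go.trans {k k' : ℕ} {q q' q'' : S.Q} {x y x' y' x'' y'' : ℤ} (h : Go m n p r k q x y q' x' y')
    (h' : Go m n p r k' q' x' y' q'' x'' y'') : Go m n p r (k + k') q x y q'' x'' y'' := by
  obtain ⟨u, v, h1, h2, h3⟩ := h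
  obtain ⟨u', v', h1', h2', h3'⟩ := h'
  refine ⟨fun i => u i + u' i, fun j => v j + v' j, fun i => ?_, fun j => ?_,
    fun s s'' σ σ'' g1 g2 g3 g4 => ?_⟩
  · push_cast
    exact (abs_add_le _ _).trans (add_le_add (h1 i) (h1' i))
  · push_cast
    exact (abs_add_le _ _).trans (add_le_add (h2 j) (h2' j))
  · have a1 := fun i => abs_le.1 (h1 i)
    have a2 := fun j => abs_le.1 (h2 j)
    have b1 : ∀ i, (((s i + u i).toNat : ℕ) : ℤ) = s i + u i := fun i => by
      have := a1 i; have := g3 i; omega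
    have b2 : ∀ j, (((σ j + v j).toNat : ℕ) : ℤ) = σ j + v j := fun j => by
      have := a2 j; have := g4 j; omega
    have c1 := h3 s (fun i => (s i + u i).toNat) σ (fun j => (σ j + v j).toNat) b1 b2
      (fun i => by have := g3 i; omega) (fun j => by have := g4 j; omega)
    have c2 := h3' (fun i => (s i + u i).toNat) s'' (fun j => (σ j + v j).toNat) σ''
      (fun i => by have d := g1 i; have := b1 i; beta_reduce at d ⊢; omega)
      (fun j => by have d := g2 j; have := b2 j; beta_reduce at d ⊢; omega)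
      (fun i => by have := g3 i; have := b1 i; have := a1 i; omega)
      (fun j => by have := g4 j; have := b2 j; have := a2 j; omega)
    have c3 := c1.trans c2 (by positivity) (by positivity)
    push_cast
    exact c3

lemma Go.mono {k k' : ℕ} {q q' : S.Q} {x y x' y' : ℤ} (h : Go m n p r k q x y q' x' y') (hk : k ≤ k') :
    Go m n p r k' q x y q' x' y' := by
  obtain ⟨u, v, h1, h2, h3⟩ := h
  have hk' : (k : ℤ) ≤ k' := by exact_mod_cast hk
  exact ⟨u, v, fun i => (h1 i).trans hk', fun j => (h2 j).trans hk', fun s s' σ σ' g1 g2 g3 g4 =>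
    (h3 s s' σ σ' g1 g2 (fun i => by have := g3 i; omega) fun j => by have := g4 j; omega).mono le_rfl hk'⟩

section step
variable (hS : S.Ok) (hm : m.Ok) (hn : 256 ≤ n)
include hS hm hn

/-- one step in a room -/
theorem step0 {q : S.Q} {x y x' y' : ℤ} (h : Ps S n p r q x y) (h' : Ps S n p r q x' y')
    (hx : |x' - x| ≤ n / 64) (hy : |y' - y| ≤ n / 64) : Go0 m n p (r + n / 8) 1 q x y x' y' := by
  have hn8 : 8 ≤ n := by omega
  have hn' : (256 : ℤ) ≤ n := by exact_mod_cast hn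
  have hd := tree hS
  rw [abs_le] at hx hy
  have key : ∀ {x y x' y' : ℤ}, Ps S n p r q x y → Ps S n p r q x' y' → (x' - x ≤ n / 64 ∧ x - x' ≤ n / 64) →
      y' - y ≤ n / 64 → y ≤ y' → ∀ (s : S.Q × Bool → ℕ) (σ : Fin 4 → ℕ), S.Small2 n s → (∀ j, 4 * σ j ≤ n) →
      Moved m n p (r + n / 8) 1 s σ q x y s σ q x' y' := by
    intro x y x' y' h h' hx hy hyy s σ hs hσ
    obtain ⟨B, B', φ, h1⟩ := same_move (ρ := n / 32) (M := n / 8) (s := s) (σ := σ) hS hd hm hn8 h.inq h'.inq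
      hyy (by omega) (by omega) (by omega) h.st hs fun j => by have := hσ j; omega
    refine MoveZ.moved hS hm hs hσ (h.in_ hS hn8 hs) h1 ?_ ?_
    · exact h.ner.mono (by omega)
    · exact h'.ner.mono (by omega)
  intro s σ hs hσ
  push_cast
  rcases le_total y y' with h1 | h1
  · exact key h h' (by omega) (by omega) h1 s σ hs hσ
  · exact (key h' h (by omega) (by omega) h1 s σ hs hσ).symm

/-- one step between two rooms -/
theorem step1 {q q' : S.Q} {x y x' y' : ℤ} (h : Ps S n p r q x y) (h' : Ps S n p r q' x' y')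
    (hx : |x' - x| ≤ n / 64) (hy : |y' - y| ≤ n / 64) : Go m n p (r + n / 8) 1 q x y q' x' y' := by
  have hn8 : 8 ≤ n := by omega
  have hn' : (256 : ℤ) ≤ n := by exact_mod_cast hn
  have hd := tree hS
  rw [abs_le] at hx hy
  have key : ∀ {q q' : S.Q} {x y x' y' : ℤ}, Ps S n p r q x y → Ps S n p r q' x' y' →
      (x' - x ≤ n / 64 ∧ x - x' ≤ n / 64) → y' - y ≤ n / 64 → y ≤ y' →
      ∃ (u : S.Q × Bool → ℕ) (v : Fin 4 → ℕ), (∀ i, u i ≤ 1) ∧ (∀ j, v j ≤ 1) ∧
        ∀ (s : S.Q × Bool → ℕ) (σ : Fin 4 → ℕ), S.Small2 n s → S.Small2 n (fun i => s i + u i) →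
        (∀ j, 4 * σ j ≤ n) → (∀ j, 4 * (σ j + v j) ≤ n) →
        Moved m n p (r + n / 8) 1 s σ q x y (fun i => s i + u i) (fun j => σ j + v j) q' x' y' := by
    intro q q' x y x' y' h h' hx hy hyy
    obtain ⟨u, v, h1, h2, h3⟩ := exists_move (ρ := n / 32) (M := n / 8) hS hd hm hn8 h.inq h'.inq
      hyy (by omega) (by omega) (by omega) h.st
    refine ⟨u, v, h1, h2, fun s σ hs hs' hσ hσ' => ?_⟩
    obtain ⟨B, B', φ, h4⟩ := h3 s σ hs hs' (fun j => by have := hσ j; omega) fun j => by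
      have := hσ' j; omega
    refine MoveZ.moved hS hm hs hσ (h.in_ hS hn8 hs) h4 ?_ ?_
    · exact h.ner.mono (by omega)
    · exact h'.ner.mono (by omega)
  rcases le_total y y' with h1 | h1
  · obtain ⟨u, v, h2, h3, h4⟩ := key h h' (by omega) (by omega) h1
    refine ⟨fun i => u i, fun j => v j, fun i => ?_, fun j => ?_, fun s s' σ σ' g1 g2 g3 g4 => ?_⟩
    · have := h2 i; rw [abs_le]; push_cast; omega
    · have := h3 j; rw [abs_le]; push_cast; omega
    · have e1 : s' = fun i => s i + u i := by funext i; have := g1 i; simp only at this ⊢; omega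
      have e2 : σ' = fun j => σ j + v j := by funext j; have := g2 j; simp only at this ⊢; omega
      rw [e1, e2]
      push_cast
      exact h4 s σ ⟨hn8, fun i => by have := g3 i; omega⟩
        ⟨hn8, fun i => by have := g3 i; have := h2 i; simp only; omega⟩
        (fun j => by have := g4 j; omega) fun j => by have := g4 j; have := h3 j; omega
  · obtain ⟨u, v, h2, h3, h4⟩ := key h' h (by omega) (by omega) h1
    refine ⟨fun i => -u i, fun j => -v j, fun i => ?_, fun j => ?_, fun s s' σ σ' g1 g2 g3 g4 => ?_⟩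
    · have := h2 i; rw [abs_le]; push_cast; omega
    · have := h3 j; rw [abs_le]; push_cast; omega
    · have e1 : s = fun i => s' i + u i := by funext i; have := g1 i; simp only at this ⊢; omega
      have e2 : σ = fun j => σ' j + v j := by funext j; have := g2 j; simp only at this ⊢; omega
      have h5 := h4 s' σ' ⟨hn8, fun i => by have := g1 i; have := g3 i; have := h2 i; simp only at *; omega⟩
        ⟨hn8, fun i => by have := g1 i; have := g3 i; have := h2 i; simp only at *; omega⟩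
        (fun j => by have := g2 j; have := g4 j; have := h3 j; simp only at *; omega)
        fun j => by have := g2 j; have := g4 j; have := h3 j; simp only at *; omega
      rw [← e1, ← e2] at h5
      push_cast
      exact h5.symm

/-- moving in a rectangle -/
theorem rect0 {q : S.Q} {x' y' : ℤ} (k : ℕ) : ∀ {x y : ℤ}, |x' - x| ≤ (k + 1) * (n / 64 : ℤ) →
    |y' - y| ≤ (k + 1) * (n / 64 : ℤ) →
    (∀ a b, min x x' ≤ a → a ≤ max x x' → min y y' ≤ b → b ≤ max y y' → Ps S n p r q a b) →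
    Go0 m n p (r + n / 8) (k + 1) q x y x' y' := by
  induction k with
  | zero =>
    intro x y hx hy h
    rw [Nat.cast_zero, zero_add, one_mul] at hx hy
    exact step0 hS hm hn (h x y (by omega) (by omega) (by omega) (by omega))
      (h x' y' (by omega) (by omega) (by omega) (by omega)) hx hy
  | succ k ih =>
    intro x y hx hy h
    have hn' : (256 : ℤ) ≤ n := by exact_mod_cast hn
    push_cast at hx hy ⊢
    have e : ((k : ℤ) + 1 + 1) * (n / 64 : ℤ) = (k + 1) * (n / 64 : ℤ) + n / 64 := by ring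
    rw [e, abs_le] at hx hy
    have hk : 0 ≤ ((k : ℤ) + 1) * (n / 64 : ℤ) := by positivity
    set H : ℤ := ((k : ℤ) + 1) * (n / 64 : ℤ) with hH
    obtain ⟨x₁, hx₁⟩ : ∃ x₁, x₁ = x + max (-(n / 64 : ℤ)) (min (n / 64 : ℤ) (x' - x)) := ⟨_, rfl⟩
    obtain ⟨y₁, hy₁⟩ : ∃ y₁, y₁ = y + max (-(n / 64 : ℤ)) (min (n / 64 : ℤ) (y' - y)) := ⟨_, rfl⟩
    have h1 : Go0 m n p (r + n / 8) 1 q x y x₁ y₁ := by
      refine step0 hS hm hn (h x y (by omega) (by omega) (by omega) (by omega))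
        (h x₁ y₁ (by omega) (by omega) (by omega) (by omega)) ?_ ?_
      · rw [abs_le]; omega
      · rw [abs_le]; omega
    have h2 : Go0 m n p (r + n / 8) (k + 1) q x₁ y₁ x' y' := by
      refine ih ?_ ?_ fun a b ha ha' hb hb' => h a b (by omega) (by omega) (by omega) (by omega)
      · rw [abs_le]; omega
      · rw [abs_le]; omega
    exact (h1.trans h2).mono (by omega)

end step

/-! ### robust positions in a room -/

/-- the box of size `n / 8` around `(x, y)` is in the room `q` -/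
structure Rb (S : Shape) (n : ℕ) (p : ℤ × ℤ) (r : ℤ) (q : S.Q) (x y : ℤ) : Prop where
  hl : 2 * (n * S.xl q) + n ≤ 2 * (x - n / 8)
  hr : x + n / 8 < n * S.xr q
  hb : S.fb n q + n / 8 < y
  ht : y + n / 8 < S.ft n q
  ner : Ner p r (.inl (x, y))

lemma ner_iff {x y : ℤ} : Ner p r (.inl (x, y)) ↔ (p.1 - r ≤ x ∧ x ≤ p.1 + r) ∧ p.2 - r ≤ y ∧ y ≤ p.2 + r := by
  unfold Ner
  rw [abs_le, abs_le]
  simp only [xy, Sum.elim_inl, id]
  constructor
  · rintro ⟨⟨h1, h2⟩, h3, h4⟩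
    exact ⟨⟨by omega, by omega⟩, by omega, by omega⟩
  · rintro ⟨⟨h1, h2⟩, h3, h4⟩
    exact ⟨⟨by omega, by omega⟩, by omega, by omega⟩

lemma Rb.ps {q : S.Q} {x y : ℤ} (h : Rb S n p r q x y) : Ps S n p r q x y := by
  obtain ⟨h1, h2, h3, h4, h5⟩ := h
  exact ⟨⟨⟨by omega, by omega⟩, by omega, by omega⟩, fun j hj hj' => ⟨q, h1, h2, by omega, by omega⟩, h5⟩

lemma Rb.rect {q : S.Q} {x y x' y' : ℤ} (h : Rb S n p r q x y) (h' : Rb S n p r q x' y') {a b : ℤ}
    (ha : min x x' ≤ a) (ha' : a ≤ max x x') (hb : min y y' ≤ b) (hb' : b ≤ max y y') : Rb S n p r q a b := by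
  obtain ⟨h1, h2, h3, h4, h5⟩ := h
  obtain ⟨k1, k2, k3, k4, k5⟩ := h'
  rw [ner_iff] at h5 k5
  refine ⟨by omega, by omega, by omega, by omega, ?_⟩
  rw [ner_iff]
  omega

/-- the positions between two rooms, in the column `x` -/
lemma ps_low (hS : S.Ok) (hn : 256 ≤ n) {a b : S.Q} (h : S.On a b) {x y : ℤ}
    (ha : 2 * (n * S.xl a) + n ≤ 2 * (x - n / 8)) (ha' : x + n / 8 < n * S.xr a)
    (hb : 2 * (n * S.xl b) + n ≤ 2 * (x - n / 8)) (hb' : x + n / 8 < n * S.xr b)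
    (hy : S.ft n a - n / 4 ≤ y) (hy' : y < S.ft n a) (hp : Ner p r (.inl (x, y))) : Ps S n p r a x y := by
  have hn' : (256 : ℤ) ≤ n := by exact_mod_cast hn
  have h1 := on_ft (n := n) hS h
  have h2 := mul_stepS (n := n) (hS.y_lt a)
  have h3 := mul_stepS (n := n) (hS.y_lt b)
  have h4 : S.fb n a + n ≤ S.ft n a := h2
  have h5 : S.fb n b + n ≤ S.ft n b := h3
  refine ⟨⟨⟨by omega, by omega⟩, by omega, by omega⟩, fun j hj hj' => ?_, hp⟩
  by_cases h6 : j < S.ft n a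
  · exact ⟨a, ha, ha', by omega, h6⟩
  · exact ⟨b, hb, hb', by omega, by omega⟩

lemma ps_upp (hS : S.Ok) (hn : 256 ≤ n) {a b : S.Q} (h : S.On a b) {x y : ℤ}
    (ha : 2 * (n * S.xl a) + n ≤ 2 * (x - n / 8)) (ha' : x + n / 8 < n * S.xr a)
    (hb : 2 * (n * S.xl b) + n ≤ 2 * (x - n / 8)) (hb' : x + n / 8 < n * S.xr b)
    (hy : S.fb n b < y) (hy' : y ≤ S.fb n b + n / 4) (hp : Ner p r (.inl (x, y))) : Ps S n p r b x y := by
  have hn' : (256 : ℤ) ≤ n := by exact_mod_cast hn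
  have h1 := on_ft (n := n) hS h
  have h2 := mul_stepS (n := n) (hS.y_lt a)
  have h3 := mul_stepS (n := n) (hS.y_lt b)
  have h4 : S.fb n a + n ≤ S.ft n a := h2
  have h5 : S.fb n b + n ≤ S.ft n b := h3
  refine ⟨⟨⟨by omega, by omega⟩, by omega, by omega⟩, fun j hj hj' => ?_, hp⟩
  by_cases h6 : j < S.ft n a
  · exact ⟨a, ha, ha', by omega, h6⟩
  · exact ⟨b, hb, hb', by omega, by omega⟩

section cross
variable (hS : S.Ok) (hm : m.Ok) (hn : 256 ≤ n)
include hS hm hn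

/-- two robust positions in a room -/
theorem go_room {K : ℕ} (hK : ∀ q : S.Q, S.xr q - S.xl q ≤ K ∧ S.yt q - S.yb q ≤ K) {q : S.Q} {x y x' y' : ℤ}
    (h : Rb S n p r q x y) (h' : Rb S n p r q x' y') :
    Go0 m n p (r + n / 8) (128 * K + 1) q x y x' y' := by
  have hn' : (256 : ℤ) ≤ n := by exact_mod_cast hn
  have h1 : (n : ℤ) * K ≤ (128 * K : ℤ) * (n / 64 : ℤ) := by
    have : (n : ℤ) ≤ 128 * (n / 64 : ℤ) := by omega
    nlinarith [mul_le_mul_of_nonneg_right this (by positivity : (0 : ℤ) ≤ (K : ℤ))]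
  have h2 : (n : ℤ) * (S.xr q - S.xl q) ≤ n * K := mul_le_mul_of_nonneg_left (hK q).1 (by positivity)
  have h3 : (n : ℤ) * (S.yt q - S.yb q) ≤ n * K := mul_le_mul_of_nonneg_left (hK q).2 (by positivity)
  rw [mul_sub] at h2 h3
  have h4 := h.hl
  have h5 := h.hr
  have h6 := h.hb
  have h7 := h.ht
  have h4' := h'.hl
  have h5' := h'.hr
  have h6' := h'.hb
  have h7' := h'.ht
  unfold fb at h6 h6'
  unfold ft at h7 h7'
  refine rect0 hS hm hn (128 * K) ?_ ?_ fun a b ha ha' hb hb' => (h.rect h' ha ha' hb hb').ps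
  · push_cast
    rw [add_mul, one_mul, abs_le]
    omega
  · push_cast
    rw [add_mul, one_mul, abs_le]
    omega

/-- upwards through an opening -/
theorem go_up {a b : S.Q} (h : S.On a b) {x : ℤ}
    (ha : 2 * (n * S.xl a) + n ≤ 2 * (x - n / 8)) (ha' : x + n / 8 < n * S.xr a)
    (hb : 2 * (n * S.xl b) + n ≤ 2 * (x - n / 8)) (hb' : x + n / 8 < n * S.xr b)
    (hp : ∀ y, S.ft n a - n / 4 ≤ y → y ≤ S.ft n a + n / 4 → Ner p r (.inl (x, y))) :
    Go m n p (r + n / 8) 65 a x (S.ft n a - n / 4) b x (S.fb n b + n / 4) ∧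
      Go m n p (r + n / 8) 65 b x (S.fb n b + n / 4) a x (S.ft n a - n / 4) := by
  have hn' : (256 : ℤ) ≤ n := by exact_mod_cast hn
  have hn8 : 8 ≤ n := by omega
  have h1 := on_ft (n := n) hS h
  have l1 : ∀ y, S.ft n a - n / 4 ≤ y → y < S.ft n a → Ps S n p r a x y := fun y h2 h3 =>
    ps_low hS hn h ha ha' hb hb' h2 h3 (hp y h2 (by omega))
  have l2 : ∀ y, S.fb n b < y → y ≤ S.fb n b + n / 4 → Ps S n p r b x y := fun y h2 h3 =>
    ps_upp hS hn h ha ha' hb hb' h2 h3 (hp y (by omega) (by omega))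
  have g1 : Go0 m n p (r + n / 8) 32 a x (S.ft n a - n / 4) x (S.ft n a - 1) := by
    refine rect0 hS hm hn 31 ?_ ?_ fun c d hc hc' hd hd' => ?_
    · rw [abs_le]; push_cast; omega
    · rw [abs_le]; push_cast; omega
    · obtain rfl : c = x := by omega
      exact l1 d (by omega) (by omega)
  have g1' : Go0 m n p (r + n / 8) 32 a x (S.ft n a - 1) x (S.ft n a - n / 4) := by
    refine rect0 hS hm hn 31 ?_ ?_ fun c d hc hc' hd hd' => ?_
    · rw [abs_le]; push_cast; omega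
    · rw [abs_le]; push_cast; omega
    · obtain rfl : c = x := by omega
      exact l1 d (by omega) (by omega)
  have g3 : Go0 m n p (r + n / 8) 32 b x (S.fb n b + 1) x (S.fb n b + n / 4) := by
    refine rect0 hS hm hn 31 ?_ ?_ fun c d hc hc' hd hd' => ?_
    · rw [abs_le]; push_cast; omega
    · rw [abs_le]; push_cast; omega
    · obtain rfl : c = x := by omega
      exact l2 d (by omega) (by omega)
  have g3' : Go0 m n p (r + n / 8) 32 b x (S.fb n b + n / 4) x (S.fb n b + 1) := by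
    refine rect0 hS hm hn 31 ?_ ?_ fun c d hc hc' hd hd' => ?_
    · rw [abs_le]; push_cast; omega
    · rw [abs_le]; push_cast; omega
    · obtain rfl : c = x := by omega
      exact l2 d (by omega) (by omega)
  have g2 : Go m n p (r + n / 8) 1 a x (S.ft n a - 1) b x (S.fb n b + 1) := by
    refine step1 hS hm hn (l1 _ (by omega) (by omega)) (l2 _ (by omega) (by omega)) ?_ ?_
    · rw [abs_le]; omega
    · rw [abs_le]; omega
  have g2' : Go m n p (r + n / 8) 1 b x (S.fb n b + 1) a x (S.ft n a - 1) := by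
    refine step1 hS hm hn (l2 _ (by omega) (by omega)) (l1 _ (by omega) (by omega)) ?_ ?_
    · rw [abs_le]; omega
    · rw [abs_le]; omega
  exact ⟨((g1.go hn8).trans g2).trans (g3.go hn8), ((g3'.go hn8).trans g2').trans (g1'.go hn8)⟩

/-- an opening: a column in both rooms with robust positions on both sides -/
theorem go_open {a b : S.Q} (h : S.On a b) {c : ℤ} (ha : S.xl a ≤ c) (ha' : c < S.xr a) (hb : S.xl b ≤ c)
    (hb' : c < S.xr b) (hp : ∀ x y, n * c ≤ x → x ≤ n * c + n → S.ft n a - n / 4 ≤ y → y ≤ S.ft n a + n / 4 →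
      Ner p r (.inl (x, y))) : ∃ x y y', Rb S n p r a x y ∧ Rb S n p r b x y' ∧
        Go m n p (r + n / 8) 65 a x y b x y' ∧ Go m n p (r + n / 8) 65 b x y' a x y := by
  have hn' : (256 : ℤ) ≤ n := by exact_mod_cast hn
  have h1 := on_ft (n := n) hS h
  have h2 := mul_stepS (n := n) (hS.y_lt a)
  have h3 := mul_stepS (n := n) (hS.y_lt b)
  have h4 : S.fb n a + n ≤ S.ft n a := h2
  have h5 : S.fb n b + n ≤ S.ft n b := h3
  have c1 : (n : ℤ) * S.xl a ≤ n * c := mul_le_mul_of_nonneg_left ha (by positivity)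
  have c2 : (n : ℤ) * S.xl b ≤ n * c := mul_le_mul_of_nonneg_left hb (by positivity)
  have c3 := mul_stepS (n := n) ha'
  have c4 := mul_stepS (n := n) hb'
  obtain ⟨x, hx⟩ : ∃ x, x = (n : ℤ) * c + n / 2 + n / 4 := ⟨_, rfl⟩
  refine ⟨x, S.ft n a - n / 4, S.fb n b + n / 4, ⟨by omega, by omega, by omega, by omega, ?_⟩,
    ⟨by omega, by omega, by omega, by omega, ?_⟩, ?_⟩
  · exact hp _ _ (by omega) (by omega) (by omega) (by omega)
  · exact hp _ _ (by omega) (by omega) (by omega) (by omega)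
  · exact go_up hS hm hn h (by omega) (by omega) (by omega) (by omega) fun y hy hy' =>
      hp _ _ (by omega) (by omega) hy hy'

/-- the graph of the rooms which touch near `p` -/
def Opn (S : Shape) (n : ℕ) (p : ℤ × ℤ) (r : ℤ) (a b : S.Q) : Prop :=
  S.On a b ∧ ∃ c, (S.xl a ≤ c ∧ c < S.xr a) ∧ (S.xl b ≤ c ∧ c < S.xr b) ∧
    ∀ x y, n * c ≤ x → x ≤ n * c + n → S.ft n a - n / 4 ≤ y → y ≤ S.ft n a + n / 4 → Ner p r (.inl (x, y))

/-- the path along a walk of rooms -/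
theorem go_walk {K : ℕ} (hK : ∀ q : S.Q, S.xr q - S.xl q ≤ K ∧ S.yt q - S.yb q ≤ K) {G : SimpleGraph S.Q}
    (hG : ∀ a b, G.Adj a b → Opn S n p r a b ∨ Opn S n p r b a) {a b : S.Q} (w : G.Walk a b) :
    ∀ {x y x' y' : ℤ}, Rb S n p r a x y → Rb S n p r b x' y' →
      Go m n p (r + n / 8) ((128 * K + 66) * w.length + (128 * K + 1)) a x y b x' y' := by
  have hn8 : 8 ≤ n := by omega
  induction w with
  | nil =>
    intro x y x' y' h h'
    rw [SimpleGraph.Walk.length_nil, mul_zero, zero_add]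
    exact (go_room hS hm hn hK h h').go hn8
  | @cons a b c hab w ih =>
    intro x y x' y' h h'
    rw [SimpleGraph.Walk.length_cons]
    have key : ∃ x₁ y₁ y₂, Rb S n p r a x₁ y₁ ∧ Rb S n p r b x₁ y₂ ∧
        Go m n p (r + n / 8) 65 a x₁ y₁ b x₁ y₂ := by
      rcases hG a b hab with ⟨h1, c, h2, h3, h4⟩ | ⟨h1, c, h2, h3, h4⟩
      · obtain ⟨x₁, y₁, y₂, g1, g2, g3, -⟩ := go_open hS hm hn h1 h2.1 h2.2 h3.1 h3.2 h4
        exact ⟨x₁, y₁, y₂, g1, g2, g3⟩
      · obtain ⟨x₁, y₁, y₂, g1, g2, -, g3⟩ := go_open hS hm hn h1 h2.1 h2.2 h3.1 h3.2 h4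
        exact ⟨x₁, y₂, y₁, g2, g1, g3⟩
    obtain ⟨x₁, y₁, y₂, g1, g2, g3⟩ := key
    refine ((((go_room hS hm hn hK h g1).go hn8).trans g3).trans (ih g2 h')).mono ?_
    ring_nf
    omega

end cross

/-! ### the path to the mark -/

section final
open Metric Full.P5

/-- rooms which touch near the mark -/
theorem opn_of (hS : S.Ok) (hm : m.Ok) (hn : 256 ≤ n) {a b : S.Q} (h : S.On a b) {P : ℂ} {δ : ℝ}
    (hP : dist P (m.pt 3) < δ) (ha : P ∈ rc S a) (hb : P ∈ rc S b) (hr : (δ + 2) * n ≤ r) :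
    Opn S n (n * m.x 3, S.fb n (.inl (m.room 3))) r a b := by
  have hn' : (256 : ℝ) ≤ n := by exact_mod_cast hn
  obtain ⟨⟨a1, a2⟩, a3, a4⟩ := ha
  obtain ⟨⟨b1, b2⟩, b3, b4⟩ := hb
  have hy := hS.on_y _ _ h
  have hy' : (S.yt a : ℝ) = S.yb b := by exact_mod_cast hy
  have hxa := hS.x_lt a
  have hxb := hS.x_lt b
  have hov : max (S.xl a) (S.xl b) < min (S.xr a) (S.xr b) := by
    rcases a with ρ | κ <;> rcases b with ρ' | κ'
    · exact absurd h id
    · have h1 : S.dn κ' = ρ := h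
      subst h1
      have := hS.dn_l κ'
      have := hS.dn_r κ'
      omega
    · have h1 : S.up κ = ρ' := h
      subst h1
      have := hS.up_l κ
      have := hS.up_r κ
      omega
    · exact absurd h id
  have f1 := Int.floor_le P.re
  have f2 := Int.lt_floor_add_one P.re
  have f3 : max (S.xl a) (S.xl b) ≤ ⌊P.re⌋ := by
    rw [Int.le_floor]
    push_cast
    exact max_le a1 b1
  obtain ⟨c, hc⟩ : ∃ c, c = min ⌊P.re⌋ (min (S.xr a) (S.xr b) - 1) := ⟨_, rfl⟩
  have c1 : (c : ℝ) ≤ P.re := by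
    have : (c : ℝ) ≤ (⌊P.re⌋ : ℤ) := by exact_mod_cast (by omega : c ≤ ⌊P.re⌋)
    linarith
  have c2 : P.re ≤ c + 1 := by
    rcases (by omega : c = ⌊P.re⌋ ∨ c + 1 = S.xr a ∨ c + 1 = S.xr b) with h1 | h1 | h1
    · rw [h1]; linarith
    · have : (c + 1 : ℝ) = S.xr a := by exact_mod_cast h1
      linarith
    · have : (c + 1 : ℝ) = S.xr b := by exact_mod_cast h1
      linarith
  rw [dist_eq_norm] at hP
  have d1 := (Complex.abs_re_le_norm (P - m.pt 3)).trans hP.le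
  have d2 := (Complex.abs_im_le_norm (P - m.pt 3)).trans hP.le
  have hpt : (m.pt 3).im = S.yb (.inl (m.room 3)) + 1 / 8 := by
    unfold Marks.pt
    simp [hm.low 3]
  have hpt' : (m.pt 3).re = m.x 3 + 1 / 8 := rfl
  rw [Complex.sub_re, hpt', abs_le] at d1
  rw [Complex.sub_im, hpt, abs_le] at d2
  refine ⟨h, c, ⟨by omega, by omega⟩, ⟨by omega, by omega⟩, fun x y hx hx' hyy hyy' => ?_⟩
  rw [ner_iff]
  have e1 : (n : ℝ) * c ≤ x := by exact_mod_cast hx
  have e2 : (x : ℝ) ≤ n * c + n := by exact_mod_cast hx'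
  have e3 : 4 * ((n : ℝ) * S.yt a) - n ≤ 4 * y := by
    have : 4 * ((n : ℤ) * S.yt a) - n ≤ 4 * y := by
      unfold ft at hyy
      omega
    exact_mod_cast this
  have e4 : 4 * (y : ℝ) ≤ 4 * ((n : ℝ) * S.yt a) + n := by
    have : 4 * y ≤ 4 * ((n : ℤ) * S.yt a) + n := by
      unfold ft at hyy'
      omega
    exact_mod_cast this
  have e5 : P.im = S.yt a := le_antisymm a4 (by rw [hy']; exact b3)
  rw [e5] at d2
  have hn0 : (0 : ℝ) ≤ n := by linarith
  have m1 := mul_le_mul_of_nonneg_left c1 hn0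
  have m2 := mul_le_mul_of_nonneg_left c2 hn0
  have m3 := mul_le_mul_of_nonneg_left d1.1 hn0
  have m4 := mul_le_mul_of_nonneg_left d1.2 hn0
  have m5 := mul_le_mul_of_nonneg_left d2.1 hn0
  have m6 := mul_le_mul_of_nonneg_left d2.2 hn0
  have k1 : ((n * m.x 3 - r : ℤ) : ℝ) ≤ x := by push_cast; nlinarith
  have k2 : (x : ℝ) ≤ ((n * m.x 3 + r : ℤ) : ℝ) := by push_cast; nlinarith
  have k3 : ((S.fb n (.inl (m.room 3)) - r : ℤ) : ℝ) ≤ y := by unfold fb; push_cast; nlinarith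
  have k4 : (y : ℝ) ≤ ((S.fb n (.inl (m.room 3)) + r : ℤ) : ℝ) := by unfold fb; push_cast; nlinarith
  exact ⟨⟨by exact_mod_cast k1, by exact_mod_cast k2⟩, by exact_mod_cast k3, by exact_mod_cast k4⟩

/-- a bound for the size of the rooms -/
lemma exists_size (S : Shape) : ∃ K : ℕ, ∀ q : S.Q, S.xr q - S.xl q ≤ K ∧ S.yt q - S.yb q ≤ K := by
  classical
  refine ⟨∑ q : S.Q, ((S.xr q - S.xl q).toNat + (S.yt q - S.yb q).toNat), fun q => ?_⟩
  have h : (S.xr q - S.xl q).toNat + (S.yt q - S.yb q).toNat ≤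
      ∑ q : S.Q, ((S.xr q - S.xl q).toNat + (S.yt q - S.yb q).toNat) :=
    Finset.single_le_sum (f := fun q : S.Q => (S.xr q - S.xl q).toNat + (S.yt q - S.yb q).toNat)
      (fun _ _ => Nat.zero_le _) (Finset.mem_univ q)
  omega

open Classical in
/-- **(S4 c)** the interior end `z` is moved to a position above the mark `3` -/
theorem exists_moved (hS : S.Ok) (hm : m.Ok) : ∃ N : ℕ, ∀ n : ℕ, N ≤ n → ∀ (z : ℂ) (δ : ℝ), S.Deep z →
    JoinedIn (S.dom ∩ ball (m.pt 3) δ) z (m.pt 3) → ∀ q : S.Q,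
    (((S.xl q : ℝ) < z.re ∧ z.re < S.xr q) ∧ (S.yb q : ℝ) ≤ z.im ∧ z.im < S.yt q) →
    ∃ (u : S.Q × Bool → ℤ) (v : Fin 4 → ℤ), (∀ i, |u i| ≤ N) ∧ (∀ j, |v j| ≤ N) ∧
      ∀ (s s' : S.Q × Bool → ℕ) (σ σ' : Fin 4 → ℕ), (∀ i, (s' i : ℤ) = s i + u i) →
        (∀ j, (σ' j : ℤ) = σ j + v j) → (∀ i, N ≤ s i ∧ 4 * (s i + N) ≤ n) →
        (∀ j, N ≤ σ j ∧ 4 * (σ j + N) ≤ n) → ∀ r : ℤ, (δ + 3) * n ≤ r →
        Moved m n (n * m.x 3, S.fb n (.inl (m.room 3))) r N s σ q ⌊n * z.re⌋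
          (min (⌊n * z.im⌋ + 1) (S.ft n q - 1)) s' σ' (.inl (m.room 3)) (n * m.x 3 + σ' 3)
          (S.fb n (.inl (m.room 3)) + n / 2) := by
  obtain ⟨K, hK⟩ := exists_size S
  refine ⟨(128 * K + 66) * Fintype.card S.Q + 2 * (128 * K + 1) + 32 + 256, fun n hnN z δ hz hj q hq => ?_⟩
  set N := (128 * K + 66) * Fintype.card S.Q + 2 * (128 * K + 1) + 32 + 256 with hN
  have hn : 256 ≤ n := by omega
  have hn8 : 8 ≤ n := by omega
  have hn' : (256 : ℤ) ≤ n := by exact_mod_cast hn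
  have hnR : (256 : ℝ) ≤ n := by exact_mod_cast hn
  obtain ⟨hinq, hstr⟩ := deep_inq hS (n := n) (by omega) hz hq
  obtain ⟨hfx, hfy⟩ := floor_near (n := n) (q := q) (z := z) (by omega) hq.2.2
  set x := ⌊n * z.re⌋ with hx
  set y := min (⌊n * z.im⌋ + 1) (S.ft n q - 1) with hy
  set p : ℤ × ℤ := (n * m.x 3, S.fb n (.inl (m.room 3))) with hp
  obtain ⟨r, hr, hr'⟩ : ∃ r : ℤ, (δ + 2) * n ≤ r ∧ r ≤ (δ + 2) * n + 1 :=
    ⟨⌈(δ + 2) * n⌉, Int.le_ceil _, (Int.ceil_lt_add_one _).le⟩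
  have hzp : dist z (m.pt 3) < δ := hj.source_mem.2
  have hδ : 0 < δ := lt_of_le_of_lt dist_nonneg hzp
  have hδn : 0 ≤ δ * n := by positivity
  have hr2 : 2 * (n : ℤ) ≤ r := by
    have : ((2 * (n : ℤ) : ℤ) : ℝ) ≤ r := by push_cast; linarith
    exact_mod_cast this
  have hpt : (m.pt 3).im = S.yb (.inl (m.room 3)) + 1 / 8 := by
    unfold Marks.pt
    simp [hm.low 3]
  have hpt' : (m.pt 3).re = m.x 3 + 1 / 8 := rfl
  -- the start is near the mark
  have hstart : (p.1 - r + n ≤ x ∧ x ≤ p.1 + r - n) ∧ p.2 - r + n ≤ y ∧ y ≤ p.2 + r - n := by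
    rw [dist_eq_norm] at hzp
    have d1 := (Complex.abs_re_le_norm (z - m.pt 3)).trans hzp.le
    have d2 := (Complex.abs_im_le_norm (z - m.pt 3)).trans hzp.le
    rw [Complex.sub_re, hpt', abs_le] at d1
    rw [Complex.sub_im, hpt, abs_le] at d2
    rw [abs_le] at hfx hfy
    have hn0 : (0 : ℝ) ≤ n := by linarith
    have m3 := mul_le_mul_of_nonneg_left d1.1 hn0
    have m4 := mul_le_mul_of_nonneg_left d1.2 hn0
    have m5 := mul_le_mul_of_nonneg_left d2.1 hn0
    have m6 := mul_le_mul_of_nonneg_left d2.2 hn0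
    have p1 : p.1 = n * m.x 3 := rfl
    have p2 : p.2 = n * S.yb (.inl (m.room 3)) := rfl
    rw [p1, p2]
    have k1 : ((n * m.x 3 - r + n : ℤ) : ℝ) ≤ x := by push_cast; linarith
    have k2 : (x : ℝ) ≤ ((n * m.x 3 + r - n : ℤ) : ℝ) := by push_cast; linarith
    have k3 : ((n * S.yb (.inl (m.room 3)) - r + n : ℤ) : ℝ) ≤ y := by push_cast; linarith
    have k4 : (y : ℝ) ≤ ((n * S.yb (.inl (m.room 3)) + r - n : ℤ) : ℝ) := by push_cast; linarith
    exact ⟨⟨by exact_mod_cast k1, by exact_mod_cast k2⟩, by exact_mod_cast k3, by exact_mod_cast k4⟩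
  -- to a robust height
  have hps : ∀ y', |y' - y| ≤ n / 4 → S.fb n q < y' → y' < S.ft n q → Ps S n p r q x y' := by
    intro y' h1 h2 h3
    refine ⟨⟨hinq.1, h2, h3⟩, hstr y' h1, ?_⟩
    rw [ner_iff]
    rw [abs_le] at h1
    omega
  have hft := mul_stepS (n := n) (hS.y_lt q)
  have hft' : S.fb n q + n ≤ S.ft n q := hft
  have hy1 := hinq.2.1
  have hy2 := hinq.2.2
  obtain ⟨y₀, hy₀⟩ : ∃ y₀, y₀ = max (S.fb n q + n / 4) (min (S.ft n q - n / 4) y) := ⟨_, rfl⟩
  have g0 : Go0 m n p (r + n / 8) 32 q x y x y₀ := by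
    refine rect0 hS hm hn 31 ?_ ?_ fun c d hc hc' hd hd' => ?_
    · rw [abs_le]; push_cast; omega
    · rw [abs_le]; push_cast; omega
    · obtain rfl : c = x := by omega
      exact hps d (by rw [abs_le]; omega) (by omega) (by omega)
  have hrb0 : Rb S n p r q x y₀ := by
    have h1 := hps y₀ (by rw [abs_le]; omega) (by omega) (by omega)
    have h2 := marg hS hn8 h1.st (u := q) (i := x) (j := y₀) (by omega) (by omega) (by omega) (by omega)
      hinq.1.1 hinq.1.2 (by omega) (by omega)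
    exact ⟨h2.1, h2.2, by omega, by omega, h1.ner⟩
  -- the target
  have hml := mul_stepS (n := n) (hm.left 3)
  have hmr := mul_stepS (n := n) (hm.right 3)
  have hmr' : (n : ℤ) * (m.x 3 + 1) = n * m.x 3 + n := by ring
  have hfb3 := mul_stepS (n := n) (hS.y_lt (.inl (m.room 3)))
  have hfb3' : S.fb n (.inl (m.room 3)) + n ≤ S.ft n (.inl (m.room 3)) := hfb3
  have hrb3 : ∀ a : ℤ, n * m.x 3 ≤ a → a ≤ n * m.x 3 + n / 4 →
      Rb S n p r (.inl (m.room 3)) a (S.fb n (.inl (m.room 3)) + n / 2) := by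
    intro a h1 h2
    refine ⟨by omega, by omega, by omega, by omega, ?_⟩
    rw [ner_iff, hp]
    simp only
    omega
  -- the graph of the rooms
  let G : SimpleGraph S.Q :=
    { Adj := fun a b => (S.On a b ∨ S.On b a) ∧ ∃ P ∈ ball (m.pt 3) δ, P ∈ rc S a ∧ P ∈ rc S b
      symm := ⟨fun a b h => ⟨h.1.symm, by obtain ⟨P, h1, h2, h3⟩ := h.2; exact ⟨P, h1, h3, h2⟩⟩⟩
      loopless := ⟨fun a h => h.1.elim (fun h => not_on_self a h) fun h => not_on_self a h⟩ }
  have hG : ∀ a b, G.Adj a b → Opn S n p r a b ∨ Opn S n p r b a := by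
    rintro a b ⟨h1 | h1, P, h2, h3, h4⟩
    · exact Or.inl (opn_of hS hm hn h1 h2 h3 h4 hr)
    · exact Or.inr (opn_of hS hm hn h1 h2 h4 h3 hr)
  have hzq : z ∈ rc S q := ⟨⟨hq.1.1.le, hq.1.2.le⟩, hq.2.1, hq.2.2.le⟩
  have hb : m.pt 3 ∈ rc S (.inl (m.room 3)) := by
    have h1 : (S.xl (.inl (m.room 3)) : ℝ) ≤ m.x 3 := by exact_mod_cast (hm.left 3).le
    have h2 : (m.x 3 + 1 : ℝ) ≤ S.xr (.inl (m.room 3)) := by exact_mod_cast (hm.right 3).le
    have h3 : (S.yb (.inl (m.room 3)) + 1 : ℝ) ≤ S.yt (.inl (m.room 3)) := by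
      exact_mod_cast (hS.y_lt (.inl (m.room 3)))
    refine ⟨⟨?_, ?_⟩, ?_, ?_⟩
    · rw [hpt']; linarith
    · rw [hpt']; linarith
    · rw [hpt]; linarith
    · rw [hpt]; linarith
  have hreach : G.Reachable q (.inl (m.room 3)) := by
    rw [SimpleGraph.reachable_iff_reflTransGen]
    exact rooms_of_joined hS hj hzq hb
  obtain ⟨w, hw⟩ := hreach.exists_isPath
  have hlen := hw.length_lt
  have g1 := (g0.go hn8).trans (go_walk hS hm hn hK hG w hrb0 (hrb3 (n * m.x 3) (by omega) (by omega)))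
  have hk1 : 32 + ((128 * K + 66) * w.length + (128 * K + 1)) + (128 * K + 1) ≤ N := by
    have := Nat.mul_le_mul_left (128 * K + 66) hlen.le
    omega
  obtain ⟨u, v, h1, h2, h3⟩ := g1.mono (by omega : _ ≤ N - (128 * K + 1))
  have hNK : N - (128 * K + 1) ≤ N := Nat.sub_le _ _
  have hNK' : ((N - (128 * K + 1) : ℕ) : ℤ) ≤ N := by exact_mod_cast hNK
  refine ⟨u, v, fun i => (h1 i).trans hNK', fun j => (h2 j).trans hNK', fun s s' σ σ' k1 k2 k3 k4 R hR => ?_⟩
  have h4 := h3 s s' σ σ' k1 k2 (fun i => by have := k3 i; omega) fun j => by have := k4 j; omega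
  have a1 := fun i => abs_le.1 (h1 i)
  have a2 := fun j => abs_le.1 (h2 j)
  have hs' : S.Small2 n s' := ⟨hn8, fun i => by have := k1 i; have := k3 i; have := a1 i; omega⟩
  have hσ' : ∀ j, 4 * σ' j ≤ n := fun j => by have := k2 j; have := k4 j; have := a2 j; omega
  have h5 := go_room hS hm hn hK (hrb3 (n * m.x 3) (by omega) (by omega))
    (hrb3 (n * m.x 3 + σ' 3) (by omega) (by have := hσ' 3; omega)) s' σ' hs' hσ'
  have h6 := h4.trans h5 (by positivity) (by positivity)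
  refine h6.mono ?_ ?_
  · have : ((r + n / 8 : ℤ) : ℝ) ≤ R := by
      have h8 : 8 * (((n : ℤ) / 8 : ℤ) : ℝ) ≤ n := by
        have : 8 * ((n : ℤ) / 8) ≤ n := by omega
        exact_mod_cast this
      push_cast at h8 ⊢
      linarith
    exact_mod_cast this
  · have : N - (128 * K + 1) + (128 * K + 1) = N := Nat.sub_add_cancel (by omega)
    exact_mod_cast this.le

end final

end Full.S4
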