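import Pool.Agent.Full.Loc.Trans

/-!
# Local changes of a surface: composition with different windows
-/

set_option autoImplicit false

namespace Full.Loc
open Function Relation

variable {τ σ υ : Type*} [DecidableEq τ] [DecidableEq σ] [DecidableEq υ]
variable {T : Finset τ} {g : Half τ → Half τ} {B : Finset τ} {T' : Finset σ}
  {g' : Half σ → Half σ} {B' C' : Finset σ} {T'' : Finset υ} {g'' : Half υ → Half υ} {C'' : Finset υ}
  {φ : τ → σ} {ψ : σ → υ}

/-- the window of a composition -/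
def cwin (T B : Finset τ) (C' : Finset σ) (φ : τ → σ) : Finset τ := B ∪ (T \ B).filter fun t => φ t ∈ C'

/-- the image window of a composition -/
def cwin' (B' C' : Finset σ) (C'' : Finset υ) (ψ : σ → υ) : Finset υ := C'' ∪ (B' \ C').image ψ

lemma mem_cwin {t : τ} : t ∈ cwin T B C' φ ↔ t ∈ B ∨ (t ∈ T ∧ t ∉ B ∧ φ t ∈ C') := by
  unfold cwin
  rw [Finset.mem_union, Finset.mem_filter, Finset.mem_sdiff, and_assoc]

lemma mem_cwin' {t : υ} : t ∈ cwin' B' C' C'' ψ ↔ t ∈ C'' ∨ ∃ u ∈ B' \ C', ψ u = t := by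
  unfold cwin'
  rw [Finset.mem_union, Finset.mem_image]

lemma not_mem_cwin {t : τ} (ht : t ∈ T \ cwin T B C' φ) : t ∈ T \ B ∧ φ t ∉ C' := by
  rw [Finset.mem_sdiff, mem_cwin] at ht
  push Not at ht
  exact ⟨Finset.mem_sdiff.2 ⟨ht.1, ht.2.1⟩, fun h => ht.2.2 ht.1 ht.2.1 h⟩

/-- **composition**: the window is the union of the first one and of the preimage of the second one -/
theorem Same.comp (h : Same T g B T' g' B' φ) (h' : Same T' g' C' T'' g'' C'' ψ) :
    Same T g (cwin T B C' φ) T'' g'' (cwin' B' C' C'' ψ) (ψ ∘ φ) := by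
  have hmid : ∀ t ∈ T \ cwin T B C' φ, φ t ∈ T' \ C' := fun t ht =>
    Finset.mem_sdiff.2 ⟨(Finset.mem_sdiff.1 (h.mem' (not_mem_cwin ht).1)).1, (not_mem_cwin ht).2⟩
  refine ⟨?_, ?_, ?_, ?_, ?_, ?_⟩
  · intro t ht
    rcases mem_cwin.1 ht with h1 | h1
    · exact h.sub h1
    · exact h1.1
  · intro t ht
    rcases mem_cwin'.1 ht with h1 | ⟨u, hu, rfl⟩
    · exact h'.sub' h1
    · rw [Finset.mem_sdiff] at hu
      exact (Finset.mem_sdiff.1 (h'.mem' (Finset.mem_sdiff.2 ⟨h.sub' hu.1, hu.2⟩))).1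
  · intro a ha b hb hab
    have ha' := Finset.mem_coe.1 ha
    have hb' := Finset.mem_coe.1 hb
    exact h.inj (Finset.mem_coe.2 (not_mem_cwin ha').1) (Finset.mem_coe.2 (not_mem_cwin hb').1)
      (h'.inj (Finset.mem_coe.2 (hmid a ha')) (Finset.mem_coe.2 (hmid b hb')) hab)
  · ext v
    rw [Finset.mem_image]
    constructor
    · rintro ⟨t, ht, rfl⟩
      have h1 := h'.mem' (hmid t ht)
      rw [Finset.mem_sdiff] at h1 ⊢
      refine ⟨h1.1, fun h2 => ?_⟩
      rcases mem_cwin'.1 h2 with h3 | ⟨u, hu, h3⟩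
      · exact h1.2 h3
      · rw [Finset.mem_sdiff] at hu
        have h4 := h'.inj (Finset.mem_coe.2 (Finset.mem_sdiff.2 ⟨h.sub' hu.1, hu.2⟩))
          (Finset.mem_coe.2 (hmid t ht)) h3
        rw [h4] at hu
        exact (Finset.mem_sdiff.1 (h.mem' (not_mem_cwin ht).1)).2 hu.1
    · intro hv
      rw [Finset.mem_sdiff, mem_cwin'] at hv
      push Not at hv
      have h1 : v ∈ T'' \ C'' := Finset.mem_sdiff.2 ⟨hv.1, hv.2.1⟩
      rw [← h'.img] at h1
      obtain ⟨u, hu, rfl⟩ := Finset.mem_image.1 h1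
      have h2 : u ∈ T' \ B' := by
        refine Finset.mem_sdiff.2 ⟨(Finset.mem_sdiff.1 hu).1, fun h3 => ?_⟩
        exact hv.2.2 u (Finset.mem_sdiff.2 ⟨h3, (Finset.mem_sdiff.1 hu).2⟩) rfl
      rw [← h.img] at h2
      obtain ⟨t, ht, rfl⟩ := Finset.mem_image.1 h2
      refine ⟨t, ?_, rfl⟩
      rw [Finset.mem_sdiff] at ht hu ⊢
      refine ⟨ht.1, fun h3 => ?_⟩
      rcases mem_cwin.1 h3 with h4 | h4
      · exact ht.2 h4
      · exact hu.2 h4.2.2
  · intro x hx hgx
    have h1 := h.glue x (not_mem_cwin hx).1 (not_mem_cwin hgx).1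
    have h2 : (g' (hmap φ x)).1 ∈ T' \ C' := by rw [h1]; exact hmid _ hgx
    have h3 := h'.glue (hmap φ x) (hmid _ hx) h2
    rw [h1] at h3
    exact h3
  · intro x hx hgx
    show (g'' (hmap ψ (hmap φ x))).1 ∈ cwin' B' C' C'' ψ
    rw [mem_cwin']
    have hx1 := (not_mem_cwin hx).1
    have key : (g' (hmap φ x)).1 ∈ C' ∨ ((g' (hmap φ x)).1 ∈ B' \ C') := by
      rcases mem_cwin.1 hgx with h1 | ⟨h1, h2, h3⟩
      · have h4 := h.inner x hx1 h1
        by_cases h5 : (g' (hmap φ x)).1 ∈ C'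
        · exact Or.inl h5
        · exact Or.inr (Finset.mem_sdiff.2 ⟨h4, h5⟩)
      · left
        rw [h.glue x hx1 (Finset.mem_sdiff.2 ⟨h1, h2⟩)]
        exact h3
    rcases key with h1 | h1
    · exact Or.inl (h'.inner (hmap φ x) (hmid _ hx) h1)
    · right
      refine ⟨_, h1, ?_⟩
      rw [Finset.mem_sdiff] at h1
      rw [h'.glue (hmap φ x) (hmid _ hx) (Finset.mem_sdiff.2 ⟨h.sub' h1.1, h1.2⟩)]
      rfl

/-- a larger window -/
theorem Same.enl (h : Same T g B T' g' B' φ) {C : Finset σ} (hC : C ⊆ T') :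
    Same T g (cwin T B C φ) T' g' (B' ∪ C) φ := by
  have h1 := h.comp (Same.refl (g := g') hC)
  have h2 : cwin' B' C C (id : σ → σ) = B' ∪ C := by
    ext t
    rw [mem_cwin', Finset.mem_union]
    constructor
    · rintro (h3 | ⟨u, hu, rfl⟩)
      · exact Or.inr h3
      · exact Or.inl (Finset.mem_sdiff.1 hu).1
    · rintro (h3 | h3)
      · by_cases h4 : t ∈ C
        · exact Or.inl h4
        · exact Or.inr ⟨t, Finset.mem_sdiff.2 ⟨h3, h4⟩, rfl⟩
      · exact Or.inl h3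
  rw [h2] at h1
  exact h1

/-- a larger window in the first surface -/
theorem Same.mono (h : Same T g B T' g' B' φ) {C : Finset τ} (hB : B ⊆ C) (hC : C ⊆ T) :
    Same T g C T' g' (B' ∪ (C \ B).image φ) φ := by
  have h1 := (Same.refl (g := g) hC).comp h
  have h2 : cwin T C B (id : τ → τ) = C := by
    ext t
    rw [mem_cwin]
    constructor
    · rintro (h3 | ⟨h3, h4, h5⟩)
      · exact h3
      · exact hB h5
    · exact Or.inl
  rw [h2] at h1
  exact h1

end Full.Loc
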