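import Pool.Agent.Full.S4.Key
import Pool.Agent.Full.S4.Adm

/-!
# (S4) from the comparison of the domains

`CompOk m`: near the fourth mark the domain with the end `z` is, after bounded changes `u`, `v` of the
shifts, the fine region with the four marks outside a window.
-/

set_option autoImplicit false
set_option linter.unusedSectionVars false

namespace Full.S4
open Function Relation Full.Shape Full.P5 Filter Topology Metric
open Pool.Agent.Helper69.RSW (P P_nonneg P_le_one)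

/-- the comparison of the domain with the end `z` with the fine region with the four marks -/
def CompOk {S : Shape} (m : S.Marks) : Prop := ∃ N : ℕ, 1 ≤ N ∧ ∀ δ : ℝ, 1 ≤ δ → ∀ᶠ n : ℕ in atTop,
  ∀ z : ℂ, S.Deep z → JoinedIn (S.dom ∩ ball (m.pt 3) δ) z (m.pt 3) → ∀ q : S.Q,
  (((S.xl q : ℝ) < z.re ∧ z.re < S.xr q) ∧ (S.yb q : ℝ) ≤ z.im ∧ z.im < S.yt q) → ∀ x y : ℤ,
  x = ⌊n * z.re⌋ → y = min (⌊n * z.im⌋ + 1) (S.ft n q - 1) →
  ∃ (u : S.Q × Bool → ℤ) (v : Fin 4 → ℤ), (∀ i, |u i| ≤ N) ∧ (∀ j, |v j| ≤ N) ∧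
    (∃ a₀ a₀' : Sh S n, (∀ j, (a₀'.σ j : ℤ) = a₀.σ j + v j) ∧ (∃ w, IsWz m n q x y a₀ w) ∧
      ∃ w, IsW4 m n a₀' w) ∧
    ∀ a a' : Sh S n, (∀ i, (a'.s i : ℤ) = a.s i + u i) → (∀ j, (a'.σ j : ℤ) = a.σ j + v j) →
      (∀ i, N ≤ a.s i ∧ a.s i + N < n / 4) → (∀ j, N ≤ a.σ j ∧ a.σ j + N < n / 4) →
      ∀ w w', IsWz m n q x y a w → IsW4 m n a' w' →
      ∃ (W : Finset ZT) (W' : Finset (ℤ × ℤ)) (φ : ZT → ℤ × ℤ) (r : ℤ), (r : ℝ) ≤ 64 * (n * δ) ∧
        Fin4 m n a.s a.σ q x y a'.s a'.σ r w w' W W' φ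

section
variable {S : Shape} {m : S.Marks} {n : ℕ} {q : S.Q} {x y : ℤ}

lemma fz_same {a a' : Sh S n} (h : SameBut a a') : Fz m n q x y a = Fz m n q x y a' := by
  classical
  let G : (S.Q × Bool → ℕ) → (Fin 3 → Half ZT) → ℂ := fun s e =>
    if h : ∃ w, IsW (S.zT n s q y) (S.zg n s q x y) ({zz x y} ∪ Set.range e) w then
      obs (S.zT n s q y) h.choose (zz x y) e else 0
  have h1 : ∀ a : Sh S n, Fz m n q x y a = G a.s fun j => m.ez n a.σ q j.castSucc := fun a => rfl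
  have hs : a.s = a'.s := by
    funext i
    show ((a.1 i : ℕ)) = (a'.1 i : ℕ)
    rw [h.1]
  have he : (fun j : Fin 3 => m.ez n a.σ q j.castSucc) = fun j : Fin 3 => m.ez n a'.σ q j.castSucc := by
    funext j
    have h2 : a.σ j.castSucc = a'.σ j.castSucc := by
      show ((a.2 j.castSucc : ℕ)) = (a'.2 j.castSucc : ℕ)
      rw [h.2 _ (by revert j; decide)]
    unfold Marks.ez
    simp only [h2]
  rw [h1, h1, hs, he]

lemma norm_obs_le {τ : Type} [DecidableEq τ] {T : Finset τ} {w : Half τ → Half τ} {z : Half τ}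
    {e : Fin 3 → Half τ} : ‖obs T w z e‖ ≤ 3 := by
  rw [obs_eq 0]
  have h : ∀ (j : Fin 3) (i : ℕ), ‖(ex T w z e j : ℂ) * vert i‖ ≤ 1 := by
    intro j i
    rw [norm_mul, norm_vert, mul_one, Complex.norm_real, Real.norm_eq_abs, abs_of_nonneg (ex_nonneg j)]
    exact P_le_one _ _
  refine (norm_add_le _ _).trans ?_
  have h1 := norm_add_le ((ex T w z e 0 : ℂ) * vert ((0 : Fin 3) : ℕ)) (ex T w z e (0 + 1) * vert ((0 : Fin 3) + 1))
  have h2 := h 0 ((0 : Fin 3) : ℕ)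
  have h3 := h (0 + 1) ((0 : Fin 3) + 1)
  have h4 := h (0 + 2) ((0 : Fin 3) + 2)
  linarith

lemma norm_fz_le (a : Sh S n) : ‖Fz m n q x y a‖ ≤ 3 := by
  unfold Fz
  split_ifs
  · exact norm_obs_le
  · rw [norm_zero]; norm_num

lemma p4_mem (a : Sh S n) : 0 ≤ P4 m n a ∧ P4 m n a ≤ 1 := by
  unfold P4
  split_ifs
  · exact ⟨P_nonneg _ _, P_le_one _ _⟩
  · exact ⟨le_rfl, by norm_num⟩

/-- the value at the fourth mark for given shifts -/
noncomputable def f4 (m : S.Marks) (n : ℕ) (a : Sh S n) : ℂ := vert 0 * (P4 m n a : ℂ) + vert 2 * (1 - (P4 m n a : ℂ))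

lemma norm_f4_le (a : Sh S n) : ‖f4 m n a‖ ≤ 3 := by
  obtain ⟨h1, h2⟩ := p4_mem (m := m) a
  unfold f4
  refine (norm_add_le _ _).trans ?_
  rw [norm_mul, norm_mul, norm_vert, norm_vert, one_mul, one_mul]
  have h3 : (1 : ℂ) - (P4 m n a : ℂ) = ((1 - P4 m n a : ℝ) : ℂ) := by push_cast; ring
  rw [h3, Complex.norm_real, Complex.norm_real, Real.norm_eq_abs, Real.norm_eq_abs, abs_of_nonneg h1,
    abs_of_nonneg (by linarith)]
  linarith

/-- the average of the values at the fourth mark -/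
lemma av_f4 (h : ∃ a : Sh S n, ∃ w, IsW4 m n a w) :
    avSh n (fun a => ∃ w, IsW4 m n a w) (f4 m n) = vert 0 * (p4 m n : ℂ) + vert 2 * (1 - (p4 m n : ℂ)) := by
  classical
  obtain ⟨a0, h0⟩ := h
  set p : Sh S n → Prop := fun a => ∃ w, IsW4 m n a w with hp
  set A := Finset.univ.filter p with hA
  have hcard : (A.card : ℂ) ≠ 0 := by
    have : 0 < A.card := Finset.card_pos.2 ⟨a0, Finset.mem_filter.2 ⟨Finset.mem_univ _, h0⟩⟩
    exact_mod_cast this.ne'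
  have hre : (p4 m n : ℂ) = avSh n p fun a => (P4 m n a : ℂ) := by
    unfold p4 avSh
    rw [← Finset.sum_filter]
    have h1 : (∑ a ∈ A, (P4 m n a : ℂ)) / (A.card : ℂ) = (((∑ a ∈ A, P4 m n a) / A.card : ℝ) : ℂ) := by
      push_cast
      ring
    rw [h1, Complex.ofReal_re]
  rw [hre]
  unfold avSh f4
  rw [← Finset.sum_filter, ← Finset.sum_filter, Finset.sum_add_distrib, ← Finset.mul_sum, ← Finset.mul_sum,
    Finset.sum_sub_distrib, Finset.sum_const, nsmul_eq_mul, mul_one]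
  change (vert 0 * ∑ i ∈ A, (P4 m n i : ℂ) + vert 2 * ((A.card : ℂ) - ∑ i ∈ A, (P4 m n i : ℂ))) / (A.card : ℂ) =
    vert 0 * ((∑ i ∈ A, (P4 m n i : ℂ)) / (A.card : ℂ)) +
      vert 2 * (1 - (∑ i ∈ A, (P4 m n i : ℂ)) / (A.card : ℂ))
  generalize (∑ i ∈ A, (P4 m n i : ℂ)) = X
  field_simp

end

/-- **(S4)** from the comparison of the domains -/
theorem s4_of (h : ∀ S : Shape, S.Ok → ∀ m : S.Marks, m.Ok → CompOk m) : S4 := by
  obtain ⟨C, c, hC, hc, hkey⟩ := key_le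
  refine ⟨3 * C, c, hc, ?_⟩
  intro S hS m hm δ R hδ hδR ε hε
  obtain ⟨N, hN1, hN⟩ := h S hS m hm
  have hlim : ∀ᶠ n : ℕ in atTop, 9000 * 3 * (N : ℝ) * (2 * Fintype.card S.Q + 4) / n ≤ ε := by
    have h1 : Tendsto (fun n : ℕ => 9000 * 3 * (N : ℝ) * (2 * Fintype.card S.Q + 4) / n) atTop (𝓝 0) :=
      tendsto_const_div_atTop_nhds_zero_nat _
    exact (h1.eventually (ge_mem_nhds hε))
  filter_upwards [eventually_ge_atTop (8 * N + 8), hN δ hδ, hlim] with n hn hn1 hn2 z hz hJ hfar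
  have hn8 : 8 ≤ n := by omega
  obtain ⟨q, hq, hF, hin⟩ := deep_F hS m hn8 hz
  have hnear := floor_near (n := n) (q := q) (z := z) (by omega) hq.2.2
  rw [hF]
  set x : ℤ := ⌊n * z.re⌋ with hx
  set y : ℤ := min (⌊n * z.im⌋ + 1) (S.ft n q - 1) with hy
  obtain ⟨u, v, hu, hv, ⟨a₀, a₀', h1, h2, h3⟩, h4⟩ := hn1 z hz hJ q hq x y rfl rfl
  have hp0 : (0 : ℝ) ≤ 3 * C * (δ / R) ^ c := by
    have : 0 < R := by linarith
    positivity
  rw [← av_f4 ⟨a₀', h3⟩, dist_eq_norm]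
  have key : ‖avSh n (fun a => ∃ w, IsWz m n q x y a w) (Fz m n q x y) -
      avSh n (fun a => ∃ w, IsW4 m n a w) (f4 m n)‖ ≤
      3 * C * (δ / R) ^ c + 9000 * 3 * N * (2 * Fintype.card S.Q + 4) / n := by
    refine avSh_four hS hm hn8 hin h1 h2 h3 hN1 hu hv hn (fun a a' h => fz_same h)
      (fun a => norm_fz_le a) (fun a => norm_f4_le a) hp0 ?_
    intro a a' e1 e2 i1 i2 hwz hw4
    have hex : Fz m n q x y a = obs (S.zT n a.s q y) hwz.choose (zz x y) fun j => m.ez n a.σ q j.castSucc :=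
      dif_pos hwz
    obtain ⟨w', hw'⟩ := hw4
    obtain ⟨W, W', φ, r, hr, hfin⟩ := h4 a a' e1 e2 i1 i2 _ w' hwz.choose_spec hw'
    have hk := hkey S hS m hm n hn8 a a' q x y (hin a) z ⟨⟨hq.1.1.le, hq.1.2.le⟩, hq.2.1, hq.2.2.le⟩
      (by rw [abs_sub_comm]; exact hnear.1) (by rw [abs_sub_comm]; exact hnear.2) δ R hδ hδR hJ hfar
      _ w' hwz.choose_spec hw' r hr W W' φ hfin
    have k0 := hk 0
    have k1 := hk 1
    have k2 := hk 2
    have c0 : Fin.castSucc (0 : Fin 3) = 0 := rfl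
    have c1 : Fin.castSucc (1 : Fin 3) = 1 := rfl
    have c2 : Fin.castSucc (2 : Fin 3) = 2 := rfl
    rw [c0, P_exit_zero hS hm (a'.small hn8).two a'.σ_le hw'] at k0
    rw [c1, P_exit_one hS hm (a'.small hn8).two a'.σ_le hw'] at k1
    rw [c2, P_exit_two hS hm (a'.small hn8).two a'.σ_le hw'] at k2
    rw [hex, obs_eq 0]
    unfold f4
    set E : Fin 3 → ℝ := ex (S.zT n a.s q y) hwz.choose (zz x y) fun j => m.ez n a.σ q j.castSucc with hE
    have e3 : ((E 0 : ℂ) * vert ((0 : Fin 3) : ℕ) + E (0 + 1) * vert ((0 : Fin 3) + 1) +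
        E (0 + 2) * vert ((0 : Fin 3) + 2)) - (vert 0 * (P4 m n a' : ℂ) + vert 2 * (1 - (P4 m n a' : ℂ))) =
        ((E 0 - P4 m n a' : ℝ) : ℂ) * vert 0 + ((E 1 - 0 : ℝ) : ℂ) * vert 1 +
          ((E 2 - (1 - P4 m n a') : ℝ) : ℂ) * vert 2 := by
      push_cast
      show ((E 0 : ℂ) * vert 0 + E 1 * vert 1 + E 2 * vert 2) - _ = _
      ring
    rw [e3]
    refine (norm_add_le _ _).trans ?_
    have t1 := norm_add_le (((E 0 - P4 m n a' : ℝ) : ℂ) * vert 0) (((E 1 - 0 : ℝ) : ℂ) * vert 1)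
    rw [norm_mul, norm_mul, norm_vert, norm_vert, Complex.norm_real, Complex.norm_real, Real.norm_eq_abs,
      Real.norm_eq_abs, mul_one, mul_one] at t1
    rw [norm_mul, norm_vert, Complex.norm_real, Real.norm_eq_abs, mul_one]
    linarith
  have h5 : avSh n (fun a => ∃ w, IsWz m n q x y a w) (Fz m n q x y) = Fav m n q x y := rfl
  rw [h5] at key
  linarith

end Full.S4
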