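import Pool.Agent.Full.S4.Moved
import Pool.Agent.Full.S4.Fin

/-!
# (S4): the path of the interior end and its last move give `CompOk`

`MovedOk m`: the interior end can be moved next to the fourth mark.  `LastMv`: the last move, the end `z`
becomes the fourth mark.  `compOk_of`: both give `CompOk m`.
-/

set_option autoImplicit false
set_option linter.unusedSectionVars false

namespace Full.S4
open Function Relation Full.Shape Full.Loc Full.Geo Filter Topology Metric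

/-- the interior end can be moved next to the fourth mark -/
def MovedOk {S : Shape} (m : S.Marks) : Prop := ∃ N : ℕ, ∀ n : ℕ, N ≤ n → ∀ (z : ℂ) (δ : ℝ), S.Deep z →
  JoinedIn (S.dom ∩ ball (m.pt 3) δ) z (m.pt 3) → ∀ q : S.Q,
  (((S.xl q : ℝ) < z.re ∧ z.re < S.xr q) ∧ (S.yb q : ℝ) ≤ z.im ∧ z.im < S.yt q) →
  ∃ (u : S.Q × Bool → ℤ) (v : Fin 4 → ℤ), (∀ i, |u i| ≤ N) ∧ (∀ j, |v j| ≤ N) ∧
    ∀ (s s' : S.Q × Bool → ℕ) (σ σ' : Fin 4 → ℕ), (∀ i, (s' i : ℤ) = s i + u i) → (∀ j, (σ' j : ℤ) = σ j + v j) →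
    (∀ i, N ≤ s i ∧ 4 * (s i + N) ≤ n) → (∀ j, N ≤ σ j ∧ 4 * (σ j + N) ≤ n) → ∀ r : ℤ, (δ + 3) * n ≤ r →
    Moved m n (n * m.x 3, S.fb n (.inl (m.room 3))) r N s σ q ⌊n * z.re⌋ (min (⌊n * z.im⌋ + 1) (S.ft n q - 1))
      s' σ' (.inl (m.room 3)) (n * m.x 3 + σ' 3) (S.fb n (.inl (m.room 3)) + n / 2)

/-- **the last move**: the end `z` above the fourth mark in its room becomes the fourth mark -/
structure LastMv {S : Shape} (m : S.Marks) (n : ℕ) (s : S.Q × Bool → ℕ) (σ : Fin 4 → ℕ) (x y : ℤ)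
    (s' : S.Q × Bool → ℕ) (σ' : Fin 4 → ℕ) (B : Finset ZT) (B' : Finset (ℤ × ℤ)) (φ : ZT → ℤ × ℤ) : Prop where
  same : Loc.Same (S.zT n s (.inl (m.room 3)) y) (S.zg n s (.inl (m.room 3)) x y) B
    (S.T n s') (plane.glue (S.T n s')) B' φ
  z : (zz x y).1 ∈ B
  z' : (m.e n σ' 3).1 ∈ B'
  mark : ∀ j : Fin 3, (m.ez n σ (.inl (m.room 3)) j.castSucc).1 ∉ B ∧
    m.e n σ' j.castSucc = hmap φ (m.ez n σ (.inl (m.room 3)) j.castSucc)
  near : ∀ t ∈ B, |(xy t).1 - x| ≤ 2 ∧ S.fb n (.inl (m.room 3)) ≤ (xy t).2 ∧ (xy t).2 ≤ y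
  wall : ∀ w w', IsW (S.zT n s (.inl (m.room 3)) y) (S.zg n s (.inl (m.room 3)) x y)
      (Ez m n σ (.inl (m.room 3)) x y) w →
    IsW (S.T n s') (plane.glue (S.T n s')) (Set.range (m.e n σ')) w' →
    Loc.Same (S.zT n s (.inl (m.room 3)) y) w B (S.T n s') w' B' φ
  ex : ∀ w, IsW (S.zT n s (.inl (m.room 3)) y) (S.zg n s (.inl (m.room 3)) x y)
      (Ez m n σ (.inl (m.room 3)) x y) w →
    ∃ σ'' : Fin 4 → ℕ, (∀ j, j ≠ 3 → σ'' j = σ' j) ∧ (σ'' 3 = σ' 3 ∨ σ'' 3 + 1 = σ' 3) ∧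
      ∃ w', IsW (S.T n s') (plane.glue (S.T n s')) (Set.range (m.e n σ'')) w'

/-- the last move exists -/
def LastOk {S : Shape} (m : S.Marks) : Prop := ∃ N : ℕ, ∀ n : ℕ, N ≤ n →
  ∃ (u : S.Q × Bool → ℤ) (v : Fin 4 → ℤ), (∀ i, |u i| ≤ 1) ∧ (∀ j, |v j| ≤ 1) ∧ v 3 = 0 ∧
    ∀ (s s' : S.Q × Bool → ℕ) (σ σ' : Fin 4 → ℕ), (∀ i, (s' i : ℤ) = s i + u i) → (∀ j, (σ' j : ℤ) = σ j + v j) →
    (∀ i, 4 * s i ≤ n) → (∀ i, 4 * s' i ≤ n) → (∀ j, 4 * σ j ≤ n) → (∀ j, 4 * σ' j ≤ n) → 1 ≤ σ' 3 → ∀ x y : ℤ,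
    x = n * m.x 3 + σ 3 → S.fb n (.inl (m.room 3)) + 2 ≤ y → y + 2 ≤ S.ft n (.inl (m.room 3)) →
    ∃ B B' φ, LastMv m n s σ x y s' σ' B B' φ

section
variable {S : Shape} {m : S.Marks} {n : ℕ}

/-- the windows are near `z` -/
lemma nrm_zpos_le {x y : ℤ} {k : ℤ} {u : Half ZT} (h : |(xy u.1).1 - x| ≤ k ∧ |(xy u.1).2 - y| ≤ k) :
    P5.nrm (P5.zpos x y u) ≤ k + 1 := by
  obtain ⟨h1, h2⟩ := h
  rw [abs_le] at h1 h2
  obtain ⟨t | t, d⟩ := u
  · have h3 := P5.clps_cases x (t.1 + (P5.off d).1)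
    have h4 := P5.off_cases d
    simp only [xy, Sum.elim_inl, id] at h1 h2
    unfold P5.nrm
    rw [P5.zpos_low, max_le_iff, abs_le, abs_le]
    dsimp only
    refine ⟨⟨?_, ?_⟩, ?_, ?_⟩ <;> omega
  · have h4 := P5.off_cases d
    simp only [xy, Sum.elim_inr, id] at h1 h2
    unfold P5.nrm
    rw [P5.zpos_up, max_le_iff, abs_le, abs_le]
    dsimp only
    refine ⟨⟨?_, ?_⟩, ?_, ?_⟩ <;> omega

/-- the composition of the path and of the last move -/
lemma fin4_of {s s₁ s' : S.Q × Bool → ℕ} {σ σ₁ σ' : Fin 4 → ℕ} {q : S.Q} {x y x₁ y₁ : ℤ} {p : ℤ × ℤ} {r N : ℤ}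
    (h : Moved m n p r N s σ q x y s₁ σ₁ (.inl (m.room 3)) x₁ y₁) {B : Finset ZT} {B' : Finset (ℤ × ℤ)}
    {ψ : ZT → ℤ × ℤ} (h' : LastMv m n s₁ σ₁ x₁ y₁ s' σ' B B' ψ) {w : Half ZT → Half ZT}
    {w' : Half (ℤ × ℤ) → Half (ℤ × ℤ)}
    (hw : IsW (S.zT n s q y) (S.zg n s q x y) (Ez m n σ q x y) w)
    (hw' : IsW (S.T n s') (plane.glue (S.T n s')) (Set.range (m.e n σ')) w') {k : ℤ}
    (hx : |x₁ - x| + (2 + N) ≤ k) (hy : |y₁ - y| ≤ k) (hy' : |S.fb n (.inl (m.room 3)) - y| ≤ k)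
    (hp : r + N + |p.1 - x| ≤ k) (hp' : r + N + |p.2 - y| ≤ k) :
    ∃ W W' φ, Fin4 m n s σ q x y s' σ' (k + 1) w w' W W' φ := by
  obtain ⟨W, W₁, φ, h⟩ := h
  obtain ⟨w₁, h1, h2⟩ := h.wall w hw
  refine ⟨cwin (S.zT n s q y) W B φ, cwin' W₁ B B' ψ, ψ ∘ φ, h.same.comp h'.same,
    h2.comp (h'.wall w₁ w' h1 hw'), mem_cwin.2 (Or.inl h.z), mem_cwin'.2 (Or.inl h'.z'), fun j => ?_,
    fun u hu => ?_⟩
  · obtain ⟨h3, h4⟩ := h'.mark j
    have h5 := Finset.mem_sdiff.1 (h.out j.castSucc)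
    rw [h.mark j.castSucc] at h3 h4
    refine ⟨fun h6 => ?_, h4⟩
    rcases mem_cwin.1 h6 with h7 | h7
    · exact h5.2 h7
    · exact h3 h7.2.2
  · refine nrm_zpos_le ?_
    rcases mem_cwin.1 hu with h3 | ⟨h3, h4, h5⟩
    · obtain ⟨h6, h7⟩ := h.ner _ h3
      constructor
      · calc |(xy u.1).1 - x| = |((xy u.1).1 - p.1) + (p.1 - x)| := by congr 1; ring
          _ ≤ _ := (abs_add_le _ _).trans (by linarith)
      · calc |(xy u.1).2 - y| = |((xy u.1).2 - p.2) + (p.2 - y)| := by congr 1; ring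
          _ ≤ _ := (abs_add_le _ _).trans (by linarith)
    · obtain ⟨h6, h7, h8⟩ := h'.near _ h5
      obtain ⟨h9, h10⟩ := h.disp _ h3 h4
      constructor
      · calc |(xy u.1).1 - x| = |-((xy (φ u.1)).1 - (xy u.1).1) + ((xy (φ u.1)).1 - x₁) + (x₁ - x)| := by
              congr 1; ring
          _ ≤ |-((xy (φ u.1)).1 - (xy u.1).1)| + |(xy (φ u.1)).1 - x₁| + |x₁ - x| := abs_add_three _ _ _
          _ ≤ k := by rw [abs_neg]; linarith
      · rw [h10] at h7 h8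
        rw [abs_le] at hy hy' ⊢
        constructor <;> omega

/-- the closed wall of the domain with the end `z` does not depend on the shift of the mark `3` -/
lemma ez_congr {σ σ' : Fin 4 → ℕ} (hσ : ∀ j, j ≠ 3 → σ j = σ' j) {q : S.Q} {x y : ℤ} :
    Ez m n σ q x y = Ez m n σ' q x y := by
  unfold Ez
  congr 2
  funext j
  have h2 : σ j.castSucc = σ' j.castSucc := hσ _ (by revert j; decide)
  unfold Marks.ez
  rw [h2]

end

/-- **the comparison** from the path and the last move -/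
theorem compOk_of {S : Shape} (hS : S.Ok) {m : S.Marks} (hm : m.Ok) (hA : MovedOk m) (hB : LastOk m) :
    CompOk m := by
  obtain ⟨N₁, hA⟩ := hA
  obtain ⟨N₂, hB⟩ := hB
  refine ⟨N₁ + 2, by omega, ?_⟩
  intro δ hδ
  filter_upwards [eventually_ge_atTop (64 * (N₁ + 8) + N₂)] with n hn z hz hJ q hq x y hx hy
  have hn8 : 8 ≤ n := by omega
  obtain ⟨u₁, v₁, hu₁, hv₁, hA⟩ := hA n (by omega) z δ hz hJ q hq
  obtain ⟨u₂, v₂, hu₂, hv₂, hv3, hB⟩ := hB n (by omega)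
  -- geometry
  have hin : ∀ a : Sh S n, S.In n a.s q x y := by
    obtain ⟨q', hq', -, hin⟩ := deep_F hS m hn8 hz
    obtain rfl := room_unique_pt hS hq hq'
    rw [hx, hy]
    exact hin
  set b : S.Q := .inl (m.room 3) with hb
  have hbt : S.yb b + 1 ≤ S.yt b := by
    have := hS.y_lt b
    omega
  have hft : S.fb n b + n ≤ S.ft n b := by
    unfold fb ft
    nlinarith
  have hu1 : ∀ i, -(N₁ : ℤ) ≤ u₁ i ∧ u₁ i ≤ N₁ := fun i => abs_le.1 (hu₁ i)
  have hv1 : ∀ i, -(N₁ : ℤ) ≤ v₁ i ∧ v₁ i ≤ N₁ := fun i => abs_le.1 (hv₁ i)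
  have hu2 : ∀ i, -1 ≤ u₂ i ∧ u₂ i ≤ 1 := fun i => abs_le.1 (hu₂ i)
  have hv2 : ∀ i, -1 ≤ v₂ i ∧ v₂ i ≤ 1 := fun i => abs_le.1 (hv₂ i)
  set r : ℤ := ⌈(δ + 3) * n⌉ with hr
  have hr1 : (δ + 3) * n ≤ r := Int.le_ceil _
  have hr2 : (r : ℝ) < (δ + 3) * n + 1 := Int.ceil_lt_add_one _
  -- both moves for given shifts
  have both : ∀ (s s' : S.Q × Bool → ℕ) (σ σ' : Fin 4 → ℕ), (∀ i, (s' i : ℤ) = s i + (u₁ i + u₂ i)) →
      (∀ j, (σ' j : ℤ) = σ j + (v₁ j + v₂ j)) → (∀ i, N₁ + 2 ≤ s i ∧ s i + (N₁ + 2) < n / 4) →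
      (∀ j, N₁ + 2 ≤ σ j ∧ σ j + (N₁ + 2) < n / 4) → ∃ (s₁ : S.Q × Bool → ℕ) (σ₁ : Fin 4 → ℕ),
      (∀ j, (σ₁ j : ℤ) = σ j + v₁ j) ∧
      Moved m n (n * m.x 3, S.fb n b) r N₁ s σ q x y s₁ σ₁ b (n * m.x 3 + σ₁ 3) (S.fb n b + n / 2) ∧
      ∃ B B' φ, LastMv m n s₁ σ₁ (n * m.x 3 + σ₁ 3) (S.fb n b + n / 2) s' σ' B B' φ := by
    intro s s' σ σ' hs hσ hs1 hσ1
    have e1 : ∀ i, ((s i + u₁ i).toNat : ℤ) = s i + u₁ i := fun i => by
      have := hs1 i
      have := hu1 i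
      omega
    have e2 : ∀ j, ((σ j + v₁ j).toNat : ℤ) = σ j + v₁ j := fun j => by
      have := hσ1 j
      have := hv1 j
      omega
    refine ⟨fun i => (s i + u₁ i).toNat, fun j => (σ j + v₁ j).toNat, e2, ?_, ?_⟩
    · rw [hx, hy]
      exact hA s _ σ _ e1 e2 (fun i => ⟨by have := hs1 i; omega, by have := hs1 i; omega⟩)
        (fun j => ⟨by have := hσ1 j; omega, by have := hσ1 j; omega⟩) r hr1
    · refine hB _ s' _ σ' (fun i => by rw [e1 i, hs i]; ring) (fun j => by rw [e2 j, hσ j]; ring)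
        (fun i => ?_) (fun i => ?_) (fun j => ?_) (fun j => ?_) ?_ _ _ rfl (by omega) (by omega)
      · have h1 := hs1 i
        have h2 := hu1 i
        have h3 := e1 i
        show 4 * (s i + u₁ i).toNat ≤ n
        omega
      · have h1 := hs1 i
        have h2 := hu1 i
        have h3 := hu2 i
        have h4 := hs i
        omega
      · have h1 := hσ1 j
        have h2 := hv1 j
        have h3 := e2 j
        show 4 * (σ j + v₁ j).toNat ≤ n
        omega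
      · have h1 := hσ1 j
        have h2 := hv1 j
        have h3 := hv2 j
        have h4 := hσ j
        omega
      · have h1 := hσ1 3
        have h2 := hv1 3
        have h3 := hv2 3
        have h4 := hσ 3
        omega
  refine ⟨fun i => u₁ i + u₂ i, fun j => v₁ j + v₂ j, fun i => ?_, fun j => ?_, ?_, ?_⟩
  · have h1 := hu1 i
    have h2 := hu2 i
    rw [abs_le]
    push_cast
    constructor <;> omega
  · have h1 := hv1 j
    have h2 := hv2 j
    rw [abs_le]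
    push_cast
    constructor <;> omega
  · -- admissible shifts
    obtain ⟨a, ha⟩ := exists_wall hS m hm hn8 q hin
    have hc : 3 * N₁ + 12 < n / 4 := by omega
    let a₀ : Sh S n := (fun _ => ⟨N₁ + 3, by omega⟩, fun j => ⟨2 * N₁ + 4 + a.σ j % 2, by omega⟩)
    have hs0 : ∀ i, a₀.s i = N₁ + 3 := fun i => rfl
    have hσ0 : ∀ j, a₀.σ j = 2 * N₁ + 4 + a.σ j % 2 := fun j => rfl
    have ha₀ : ∃ w, IsWz m n q x y a₀ w :=
      (wall_inv hS m hm hn8 q a₀ a (fun j => by rw [hσ0]; omega) (hin _) (hin _)).2 ha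
    obtain ⟨w, hw⟩ := ha₀
    have f1 : ∀ i, (((a₀.s i + (u₁ i + u₂ i)).toNat : ℕ) : ℤ) = a₀.s i + (u₁ i + u₂ i) := fun i => by
      have := hu1 i
      have := hu2 i
      rw [hs0]
      omega
    have f2 : ∀ j, (((a₀.σ j + (v₁ j + v₂ j)).toNat : ℕ) : ℤ) = a₀.σ j + (v₁ j + v₂ j) := fun j => by
      have := hv1 j
      have := hv2 j
      have := hσ0 j
      omega
    obtain ⟨s₁, σ₁, g1, g2, B, B', ψ, g3⟩ := both a₀.s (fun i => (a₀.s i + (u₁ i + u₂ i)).toNat) a₀.σ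
      (fun j => (a₀.σ j + (v₁ j + v₂ j)).toNat) f1 f2 (fun i => by rw [hs0]; constructor <;> omega)
      (fun j => by rw [hσ0]; constructor <;> omega)
    obtain ⟨W, W', φ, g4⟩ := g2
    obtain ⟨w₁, g5, g6⟩ := g4.wall w hw
    obtain ⟨σ'', k1, k2, w'', k3⟩ := g3.ex w₁ g5
    have hs2 : ∀ i, (a₀.s i + (u₁ i + u₂ i)).toNat < n / 4 := fun i => by
      have := hu1 i
      have := hu2 i
      have := f1 i
      have := hs0 i
      omega
    have hσ2 : ∀ j, σ'' j < n / 4 := fun j => by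
      have := hv1 j
      have := hv2 j
      have := f2 j
      have := hσ0 j
      by_cases h3 : j = 3
      · subst h3
        omega
      · rw [k1 j h3]
        omega
    let a₀' : Sh S n := (fun i => ⟨_, hs2 i⟩, fun j => ⟨_, hσ2 j⟩)
    rcases k2 with k2 | k2
    · refine ⟨a₀, a₀', fun j => ?_, ⟨w, hw⟩, w'', k3⟩
      show ((σ'' j : ℕ) : ℤ) = _
      by_cases h3 : j = 3
      · subst h3
        rw [k2]
        exact f2 3
      · rw [k1 j h3]
        exact f2 j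
    · have hσ3 : ∀ j, (if j = 3 then a₀.σ j - 1 else a₀.σ j) < n / 4 := fun j => by
        have := (a₀.2 j).2
        have h4 : a₀.σ j < n / 4 := this
        split_ifs <;> omega
      let a₁ : Sh S n := (a₀.1, fun j => ⟨_, hσ3 j⟩)
      refine ⟨a₁, a₀', fun j => ?_, ?_, w'', k3⟩
      · show ((σ'' j : ℕ) : ℤ) = ((if j = 3 then a₀.σ j - 1 else a₀.σ j : ℕ) : ℤ) + _
        by_cases h3 : j = 3
        · subst h3
          rw [if_pos rfl]
          have e3 := f2 3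
          have e4 := hσ0 3
          have e6 : σ'' 3 + 1 = (a₀.σ 3 + (v₁ 3 + v₂ 3)).toNat := k2
          show ((σ'' 3 : ℕ) : ℤ) = ((a₀.σ 3 - 1 : ℕ) : ℤ) + (v₁ 3 + v₂ 3)
          omega
        · rw [if_neg h3, k1 j h3]
          exact f2 j
      · refine (wall_inv hS m hm hn8 q a₁ a₀ (fun j => ?_) (hin _) (hin _)).2 ⟨w, hw⟩
        have e5 : a₁.σ j.castSucc = if j.castSucc = 3 then a₀.σ j.castSucc - 1 else a₀.σ j.castSucc := rfl
        rw [e5, if_neg (by clear * -; revert j; decide)]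
  · intro a a' hs hσ hs1 hσ1 w w' hw hw'
    obtain ⟨s₁, σ₁, g1, g2, B, B', ψ, g3⟩ := both a.s a'.s a.σ a'.σ hs hσ (fun i => by
      have := hs1 i
      exact this) (fun j => by
      have := hσ1 j
      exact this)
    -- distances
    have hnR : (0 : ℝ) < n := by
      have : 0 < n := by omega
      exact_mod_cast this
    have hlow := hm.low 3
    have hzb := (hJ.source_mem).2
    rw [mem_ball, Complex.dist_eq] at hzb
    have hre := (Complex.abs_re_le_norm _).trans_lt hzb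
    have him := (Complex.abs_im_le_norm _).trans_lt hzb
    have hp1 : (m.pt 3).re = m.x 3 + 1 / 8 := rfl
    have hp2 : (m.pt 3).im = S.yb (.inl (m.room 3)) + 1 / 8 := by
      unfold Marks.pt
      rw [hlow]
      rfl
    rw [Complex.sub_re, hp1, abs_lt] at hre
    rw [Complex.sub_im, hp2, abs_lt] at him
    have hnear := P5.floor_near (n := n) (q := q) (z := z) (by omega) hq.2.2
    rw [← hx, ← hy, abs_le, abs_le] at hnear
    have hsig : (0 : ℝ) ≤ σ₁ 3 ∧ 4 * (σ₁ 3 : ℝ) ≤ n := by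
      have h1 := g1 3
      have h2 := hv1 3
      have h3 := hσ1 3
      have h4 : 4 * σ₁ 3 ≤ n := by omega
      exact ⟨Nat.cast_nonneg _, by exact_mod_cast h4⟩
    have hfbR : ((S.fb n b : ℤ) : ℝ) = n * S.yb b := by
      unfold fb
      push_cast
      ring
    set k : ℤ := ⌊64 * ((n : ℝ) * δ)⌋ - 1 with hk
    have hk1 : 64 * ((n : ℝ) * δ) - 2 < k := by
      have := Int.sub_one_lt_floor (64 * ((n : ℝ) * δ))
      rw [hk]
      push_cast
      linarith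
    have hk2 : (k : ℝ) + 1 ≤ 64 * ((n : ℝ) * δ) := by
      have := Int.floor_le (64 * ((n : ℝ) * δ))
      rw [hk]
      push_cast
      linarith
    have hnδ : (n : ℝ) ≤ n * δ := by nlinarith
    have hnN : 64 * ((N₁ : ℝ) + 8) ≤ n := by
      have : 64 * (N₁ + 8) ≤ n := by omega
      exact_mod_cast this
    have hN0 : (0 : ℝ) ≤ N₁ := Nat.cast_nonneg _
    have hxx : |(n : ℝ) * m.x 3 - x| ≤ n * δ + n + 1 := by
      rw [abs_le]
      constructor <;> nlinarith [hre.1, hre.2, hnear.1.1, hnear.1.2]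
    have hyy : |(n : ℝ) * S.yb b - y| ≤ n * δ + n + 1 := by
      rw [abs_le]
      constructor <;> nlinarith [him.1, him.2, hnear.2.1, hnear.2.2]
    have hdiv : (((n : ℤ) / 2 : ℤ) : ℝ) ≤ n ∧ (0 : ℝ) ≤ (((n : ℤ) / 2 : ℤ) : ℝ) := by
      constructor
      · have : (n : ℤ) / 2 ≤ n := by omega
        exact_mod_cast this
      · have : 0 ≤ (n : ℤ) / 2 := by omega
        exact_mod_cast this
    obtain ⟨W, W', φ, hF⟩ := fin4_of (k := k) g2 g3 hw hw' (by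
      have : |((n * m.x 3 + σ₁ 3 - x : ℤ) : ℝ)| + (2 + N₁) ≤ (k : ℝ) := by
        push_cast
        rw [abs_le] at hxx
        have : |(n : ℝ) * m.x 3 + σ₁ 3 - x| ≤ n * δ + 2 * n + 1 := by
          rw [abs_le]
          constructor <;> linarith [hxx.1, hxx.2, hsig.1, hsig.2]
        linarith
      exact_mod_cast this) (by
      have : |((S.fb n b + n / 2 - y : ℤ) : ℝ)| ≤ (k : ℝ) := by
        push_cast
        rw [hfbR]
        rw [abs_le] at hyy
        have : |(n : ℝ) * S.yb b + (((n : ℤ) / 2 : ℤ) : ℝ) - y| ≤ n * δ + 2 * n + 1 := by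
          rw [abs_le]
          constructor <;> linarith [hyy.1, hyy.2, hdiv.1, hdiv.2]
        linarith
      exact_mod_cast this) (by
      have : |((S.fb n b - y : ℤ) : ℝ)| ≤ (k : ℝ) := by
        push_cast
        rw [hfbR]
        linarith
      exact_mod_cast this) (by
      have : (r : ℝ) + N₁ + |((n * m.x 3 - x : ℤ) : ℝ)| ≤ (k : ℝ) := by
        push_cast
        nlinarith
      exact_mod_cast this) (by
      have : (r : ℝ) + N₁ + |((S.fb n b - y : ℤ) : ℝ)| ≤ (k : ℝ) := by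
        push_cast
        rw [hfbR]
        nlinarith
      exact_mod_cast this)
    exact ⟨W, W', φ, k + 1, by push_cast; exact hk2, hF⟩

end Full.S4
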