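import Pool.Agent.Full.P5.Bd
import Pool.Agent.Full.Loc.WallT

/-!
# Labels of two regions which agree outside a window

If the arcs with the labels `2` and `0` (from the mark `e 0` over `e 1` to `e 2`) avoid the window, then the
labels of the two regions agree outside the window.
-/

set_option autoImplicit false

namespace Full.P5
open Function Relation Full.Loc

variable {τ σ : Type*} [DecidableEq τ] [DecidableEq σ] {T : Finset τ} {g w : Half τ → Half τ} {z : Half τ}
  {e : Fin 3 → Half τ} {lab : Half τ → Fin 3} {T' : Finset σ} {g' w' : Half σ → Half σ} {z' : Half σ}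
  {e' : Fin 3 → Half σ} {lab' : Half σ → Fin 3} {W : Finset τ} {W' : Finset σ} {φ : τ → σ}

omit [DecidableEq τ] in
/-- only the end `z` can be a boundary cycle of length one -/
lemma Lab.fix (h : Lab T g w z e lab) {u : Half τ} (hu : Bd T g u) (hn : next g u = u) : u = z := by
  have h1 : w u = u := by
    rcases h.wall.near u hu with h1 | h1 | h1
    · exact h1
    · rw [h1, hn]
    · have h2 : Bd T g (w u) := h.bd_pair hu
      exact h.glu.next_inj h2.2 hu.2 (by rw [← h1, hn])
  rcases h.ends u ⟨hu.1, h1⟩ with h2 | ⟨i, rfl⟩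
  · exact h2
  · exfalso
    have h3 := h.lab_e i
    rw [hn, h3.1] at h3
    have h4 : ∀ i : Fin 3, i + 1 ≠ i + 2 := by decide
    exact h4 i h3.2

omit [DecidableEq τ] in
lemma Lab.e_next_ne (h : Lab T g w z e lab) (i : Fin 3) : next g (e i) ≠ e i := by
  intro h1
  have h3 := h.lab_e i
  rw [h1, h3.1] at h3
  have h4 : ∀ i : Fin 3, i + 1 ≠ i + 2 := by decide
  exact h4 i h3.2

omit [DecidableEq τ] in
/-- from a mark to a boundary half edge -/
lemma Lab.reach_from (h : Lab T g w z e lab) {u : Half τ} (hu : Bd T g u) (hn : next g u ≠ u) (i : Fin 3) :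
    ∃ k, (next g)^[k] (e i) = u := by
  obtain ⟨k, hk⟩ := h.reach u hu hn i
  obtain ⟨n, hn1, hn2⟩ := h.glu.next_periodic hu
  refine ⟨n * k - k, ?_⟩
  rw [← hk, ← iterate_add_apply, show n * k - k + k = n * k by
    have : k ≤ n * k := Nat.le_mul_of_pos_left k hn1
    omega]
  clear hk
  induction k with
  | zero => rfl
  | succ k ih => rw [Nat.mul_succ, iterate_add_apply, hn2, ih]

/-- the arcs `2`, `0` correspond -/
theorem arc_agree (h : Lab T g w z e lab) (h' : Lab T' g' w' z' e' lab')
    (hs : Same T g W T' g' W' φ) (hzW : z.1 ∈ W) (he : ∀ k, (e k).1 ∉ W ∧ e' k = hmap φ (e k))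
    (ha : ∀ u, Bd T g u → u ≠ z → (lab u ≠ 1 ∨ u = e 0) → Avoid g W u) {K : ℕ}
    (hK2 : ∀ k, 1 ≤ k → k < K → (next g)^[k] (e 0) ≠ e 2) :
    ∀ k, 1 ≤ k → k ≤ K → lab ((next g)^[k] (e 0)) ≠ 1 ∧ ((next g)^[k] (e 0)).1 ∉ W ∧
      Bd T g ((next g)^[k] (e 0)) ∧ (next g')^[k] (e' 0) = hmap φ ((next g)^[k] (e 0)) ∧
      lab' (hmap φ ((next g)^[k] (e 0))) = lab ((next g)^[k] (e 0)) := by
  have hbe : ∀ k, Bd T g (e k) := fun k => h.bd_of_w (h.be k)
  have hmem : ∀ u, Bd T g u → u.1 ∉ W → u.1 ∈ T \ W := fun u hu hW => Finset.mem_sdiff.2 ⟨hu.1, hW⟩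
  have hzn : ∀ u : Half τ, u.1 ∉ W → u ≠ z := fun u hu h1 => hu (by rw [h1]; exact hzW)
  have hbd' : ∀ u, Bd T g u → u.1 ∉ W → Bd T' g' (hmap φ u) := fun u hu hW =>
    (hs.bd_iff h.glu (hmem u hu hW)).2 hu
  have hinj : ∀ u, Bd T g u → u.1 ∉ W → ∀ i, hmap φ u = e' i → u = e i := by
    intro u hu hW i h1
    rw [(he i).2] at h1
    exact hs.hmap_inj (hmem u hu hW) (hmem _ (hbe i) (he i).1) h1
  intro k hk
  induction k, hk using Nat.le_induction with
  | base =>
    intro _
    have h1 := hs.next_eq h.glu (hbe 0) (ha _ (hbe 0) (Ne.symm (h.ze 0)) (Or.inr rfl))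
    rw [← (he 0).2] at h1
    have h2 := (h.lab_e 0).2
    have h3 := (h'.lab_e 0).2
    simp only [iterate_one]
    rw [h2]
    refine ⟨by decide, h1.2, h.glu.next_bd (hbe 0), h1.1, ?_⟩
    rw [← h1.1, h3]
  | succ k hk ih =>
    intro hkK
    obtain ⟨i1, i2, i3, i4, i5⟩ := ih (by omega)
    rw [iterate_succ_apply', iterate_succ_apply']
    set u := (next g)^[k] (e 0) with hu
    have h1 := hs.next_eq h.glu i3 (ha _ i3 (hzn u i2) (Or.inl i1))
    rw [i4]
    have n2 : u ≠ e 2 := hK2 k hk (by omega)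
    have n0 : u ≠ e 0 := by
      intro h2
      rw [h2, (h.lab_e 0).1] at i1
      exact i1 rfl
    refine ⟨?_, h1.2, h.glu.next_bd i3, h1.1, ?_⟩
    · by_cases n1 : u = e 1
      · rw [n1, (h.lab_e 1).2]; decide
      · rw [h.step u i3 (fun i => by fin_cases i; exacts [n0, n1, n2])]
        exact i1
    · rw [← h1.1]
      by_cases n1 : u = e 1
      · rw [n1, (h.lab_e 1).2, ← (he 1).2, (h'.lab_e 1).2]
      · rw [h.step u i3 (fun i => by fin_cases i; exacts [n0, n1, n2]),
          h'.step _ (hbd' u i3 i2) (fun i h2 => ?_), i5]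
        have h3 := hinj u i3 i2 i h2
        fin_cases i
        · exact n0 h3
        · exact n1 h3
        · exact n2 h3

/-- **the labels agree outside the window** -/
theorem lab_agree (h : Lab T g w z e lab) (h' : Lab T' g' w' z' e' lab')
    (hs : Same T g W T' g' W' φ) (hzW : z.1 ∈ W) (hzW' : z'.1 ∈ W')
    (he : ∀ k, (e k).1 ∉ W ∧ e' k = hmap φ (e k))
    (ha : ∀ u, Bd T g u → u ≠ z → (lab u ≠ 1 ∨ u = e 0) → Avoid g W u) {y : Half τ} (hy : Bd T g y)
    (hyW : y.1 ∉ W) : lab' (hmap φ y) = lab y := by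
  classical
  have hbe : ∀ k, Bd T g (e k) := fun k => h.bd_of_w (h.be k)
  have hmem : ∀ u, Bd T g u → u.1 ∉ W → u.1 ∈ T \ W := fun u hu hW => Finset.mem_sdiff.2 ⟨hu.1, hW⟩
  have hyz : y ≠ z := fun h1 => hyW (by rw [h1]; exact hzW)
  have hyn : next g y ≠ y := fun h1 => hyz (h.fix hy h1)
  -- the length of the arcs
  have hex : ∃ k, 1 ≤ k ∧ (next g)^[k] (e 0) = e 2 := by
    obtain ⟨k, hk⟩ := h.reach (e 0) (hbe 0) (h.e_next_ne 0) 2
    refine ⟨k, ?_, hk⟩
    by_contra h1
    have h2 : k = 0 := by omega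
    rw [h2] at hk
    exact absurd (h.ee hk) (by decide)
  set K := Nat.find hex with hK
  obtain ⟨hK1, hK3⟩ := Nat.find_spec hex
  have hK2 : ∀ k, 1 ≤ k → k < K → (next g)^[k] (e 0) ≠ e 2 := fun k h1 h2 h3 =>
    Nat.find_min hex h2 ⟨h1, h3⟩
  have hA := arc_agree h h' hs hzW he ha hK2
  have hK' : (next g')^[K] (e' 0) = e' 2 := by
    rw [(hA K hK1 le_rfl).2.2.2.1, hK3, (he 2).2]
  by_cases hl : lab y = 1
  · -- backwards in the second region
    by_contra hne
    rw [hl] at hne
    set Y := hmap φ y with hY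
    have hYb : Bd T' g' Y := (hs.bd_iff h.glu (hmem y hy hyW)).2 hy
    have hYz : Y ≠ z' := by
      intro h1
      have h2 := (Finset.mem_sdiff.1 (hs.mem' (hmem y hy hyW))).2
      exact h2 (by rw [← h1] at hzW'; exact hzW')
    have hex' := h'.reach_from hYb (fun h1 => hYz (h'.fix hYb h1)) 0
    set l := Nat.find hex' with hl'
    have hl1 := Nat.find_spec hex'
    have hl0 : 1 ≤ l := by
      by_contra h1
      have h2 : l = 0 := by omega
      rw [← hl', h2] at hl1
      have h3 : e' 0 = Y := hl1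
      rw [← h3, (h'.lab_e 0).1] at hne
      exact hne rfl
    have key : ∀ d, d < l → lab' ((next g')^[l - d] (e' 0)) ≠ 1 := by
      intro d
      induction d with
      | zero => intro _; rw [Nat.sub_zero, hl1]; exact hne
      | succ d ih =>
        intro hd h1
        have h2 := ih (by omega)
        have hX : Bd T' g' ((next g')^[l - (d + 1)] (e' 0)) :=
          h'.glu.bd_iter (h'.bd_of_w (h'.be 0)) _
        rw [show l - d = (l - (d + 1)) + 1 by omega, iterate_succ_apply'] at h2
        set X := (next g')^[l - (d + 1)] (e' 0) with hXd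
        have n0 : X ≠ e' 0 := by
          intro h3
          refine Nat.find_min hex' (m := d + 1) (by omega) ?_
          have h4 := hl1
          rw [← hl', show l = (d + 1) + (l - (d + 1)) by omega, iterate_add_apply, ← hXd, h3] at h4
          exact h4
        have n1 : X ≠ e' 1 := by
          intro h3
          rw [h3, (h'.lab_e 1).1] at h1
          exact absurd h1 (by decide)
        by_cases n2 : X = e' 2
        · rw [n2, (h'.lab_e 2).2] at h2
          exact h2 rfl
        · rw [h'.step X hX (fun i => by fin_cases i; exacts [n0, n1, n2])] at h2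
          exact h2 h1
    have hlK : l ≤ K := by
      by_contra h1
      have h2 := key (l - (K + 1)) (by omega)
      rw [show l - (l - (K + 1)) = K + 1 by omega, iterate_succ_apply', hK', (h'.lab_e 2).2] at h2
      exact h2 rfl
    obtain ⟨a1, a2, a3, a4, -⟩ := hA l hl0 hlK
    rw [← hl', a4] at hl1
    have h3 := hs.hmap_inj (hmem _ a3 a2) (hmem y hy hyW) hl1
    rw [h3] at a1
    exact a1 hl
  · -- forwards in the first region
    have hex' := h.reach_from hy hyn 0
    set l := Nat.find hex' with hl'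
    have hl1 := Nat.find_spec hex'
    have hl0 : 1 ≤ l := by
      by_contra h1
      have h2 : l = 0 := by omega
      rw [← hl', h2] at hl1
      have h3 : e 0 = y := hl1
      rw [← h3, (h.lab_e 0).1] at hl
      exact hl rfl
    have key : ∀ d, d < l → lab ((next g)^[l - d] (e 0)) ≠ 1 := by
      intro d
      induction d with
      | zero => intro _; rw [Nat.sub_zero, hl1]; exact hl
      | succ d ih =>
        intro hd h1
        have h2 := ih (by omega)
        have hX : Bd T g ((next g)^[l - (d + 1)] (e 0)) := h.glu.bd_iter (hbe 0) _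
        rw [show l - d = (l - (d + 1)) + 1 by omega, iterate_succ_apply'] at h2
        set X := (next g)^[l - (d + 1)] (e 0) with hXd
        have n0 : X ≠ e 0 := by
          intro h3
          refine Nat.find_min hex' (m := d + 1) (by omega) ?_
          have h4 := hl1
          rw [← hl', show l = (d + 1) + (l - (d + 1)) by omega, iterate_add_apply, ← hXd, h3] at h4
          exact h4
        have n1 : X ≠ e 1 := by
          intro h3
          rw [h3, (h.lab_e 1).1] at h1
          exact absurd h1 (by decide)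
        by_cases n2 : X = e 2
        · rw [n2, (h.lab_e 2).2] at h2
          exact h2 rfl
        · rw [h.step X hX (fun i => by fin_cases i; exacts [n0, n1, n2])] at h2
          exact h2 h1
    have hlK : l ≤ K := by
      by_contra h1
      have h2 := key (l - (K + 1)) (by omega)
      rw [show l - (l - (K + 1)) = K + 1 by omega, iterate_succ_apply', hK3, (h.lab_e 2).2] at h2
      exact h2 rfl
    obtain ⟨-, -, -, -, a5⟩ := hA l hl0 hlK
    rw [← hl', ] at hl1
    rw [hl1] at a5
    exact a5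

/-- the hypothesis of `pair_exit_le` for a boundary half edge which is not next to the window -/
theorem agree_at (h : Lab T g w z e lab) (h' : Lab T' g' w' z' e' lab')
    (hs : Same T g W T' g' W' φ) (hsw : Same T w W T' w' W' φ) (hzW : z.1 ∈ W) (hzW' : z'.1 ∈ W')
    (he : ∀ k, (e k).1 ∉ W ∧ e' k = hmap φ (e k))
    (ha : ∀ u, Bd T g u → u ≠ z → (lab u ≠ 1 ∨ u = e 0) → Avoid g W u) {y : Half τ} (hy : Bd T g y)
    (hyW : y.1 ∉ W) (hyA : Avoid g W y) : Bd T' g' (hmap φ y) ∧ lab' (hmap φ y) = lab y ∧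
      (w y = next g y → w' (hmap φ y) = next g' (hmap φ y)) := by
  have hmem : y.1 ∈ T \ W := Finset.mem_sdiff.2 ⟨hy.1, hyW⟩
  refine ⟨(hs.bd_iff h.glu hmem).2 hy, lab_agree h h' hs hzW hzW' he ha hy hyW, fun h1 => ?_⟩
  have h2 := hs.next_eq h.glu hy hyA
  have h3 := hsw.glue y hmem (by rw [h1]; exact Finset.mem_sdiff.2 ⟨(h.glu.next_bd hy).1, h2.2⟩)
  rw [h3, h1, h2.1]

end Full.P5

namespace Full.P5
open Function Relation Full.Loc

/-- the corners of a boundary half edge which is far from the window avoid the window -/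
theorem Pos.avoid {τ : Type} [DecidableEq τ] {T : Finset τ} {g : Half τ → Half τ} {W : Finset τ} {pos : Half τ → ℤ × ℤ} {kt : Dir → τ → ℤ × ℤ} {m : ℕ} (hP : Pos T g pos kt m)
    (hG : Glu T g) {r : ℤ} (hW : ∀ x : Half τ, x.1 ∈ W → nrm (pos x) ≤ r) {y : Half τ} (hy : Bd T g y)
    (hr : r + 1 < nrm (pos y)) : Avoid g W y := by
  intro k hk hkW
  have h9 := hP.nrm_tile (x := y) (y := rho y) hy.1 rfl
  have h1 := hW _ hkW
  rcases Nat.eq_zero_or_pos k with rfl | hk0
  · have h1' : nrm (pos y) ≤ r := h1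
    omega
  have key : ∀ j, 1 ≤ j → j ≤ k → Sm T pos kt m (rho y) ((rot g)^[j] y) := by
    intro j hj
    induction j, hj using Nat.le_induction with
    | base =>
      intro _
      show Sm T pos kt m (rho y) (rho (g y))
      rw [hy.2]
      exact Sm.refl hy.1
    | succ j hj ih =>
      intro h3
      have h4 := ih (by omega)
      rw [iterate_succ_apply']
      exact h4.trans (hP.sm hG h4.2.1 (hk j hj (by omega)))
  have h2 := (key k hk0 le_rfl).2.2.1
  rw [← h2] at h1
  omega

end Full.P5
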