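import Pool.Agent.Full.P5.NearArc
import Pool.Agent.Full.Geo.LabelZ
import Pool.Agent.Full.Geo.Deep

/-!
# The domain with an end `z` near the fourth mark: collected data
-/

set_option autoImplicit false

namespace Full.S4
open Function Relation Full.Shape Full.P5

section
variable {S : Shape} {m : S.Marks} {n : ℕ} {s : S.Q × Bool → ℕ} {σ : Fin 4 → ℕ} {q : S.Q} {x y : ℤ}

/-- the labels of the boundary of the domain with the end `z` -/
theorem exists_ZL (hS : S.Ok) (hm : m.Ok) (hs : S.Small n s) (hσ : ∀ j, 4 * σ j ≤ n) (h : S.In n s q x y) :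
    ∃ lab, ZL m n s σ q x y lab := by
  obtain ⟨lab, h1, h2, h3, h4⟩ := lab_z (σ := σ) hS hm hs hσ h
  refine ⟨lab, h1, h2, h3, ?_⟩
  rintro ⟨c, d⟩ hu hz t ht
  have h5 := h4 _ hu hz
  rcases ht with ht | ht
  · obtain rfl : c = .inl t := ht
    exact h5
  · obtain rfl : c = .inr t := ht
    exact h5

/-- the data of the domain with the end `z` near the mark `3`: `rr` = size of the ball which contains a path
from `z` to the mark, `RR` = distance of the boundary half edges with the labels `0` and `2` -/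
structure NearData (m : S.Marks) (n : ℕ) (s : S.Q × Bool → ℕ) (σ : Fin 4 → ℕ) (q : S.Q) (x y rr RR : ℤ)
    (lab : Half ZT → Fin 4) : Prop where
  zl : ZL m n s σ q x y lab
  pos : Pos (S.zT n s q y) (S.zg n s q x y) (zpos x y) (zkt x y) 1
  tri : ∀ w, IsW (S.zT n s q y) (S.zg n s q x y)
    ({zz x y} ∪ Set.range fun j : Fin 3 => m.ez n σ q j.castSucc) w →
    Lab (S.zT n s q y) (S.zg n s q x y) w (zz x y) (fun j => m.ez n σ q j.castSucc) (fun u => tr (lab u))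
  zero : zpos x y (zz x y) = (0, 0)
  bz : Bd (S.zT n s q y) (S.zg n s q x y) (zz x y)
  be : ∀ j, Bd (S.zT n s q y) (S.zg n s q x y) (m.ez n σ q j)
  ne : ∀ j, m.ez n σ q j ≠ zz x y
  path : ReflTransGen (ZSt S n s q x y rr) (zz x y) (m.ez n σ q 3)
  close : nrm (zpos x y (m.ez n σ q 3)) ≤ rr + 1
  far : ∀ u, Bd (S.zT n s q y) (S.zg n s q x y) u → u ≠ zz x y → nrm (zpos x y u) ≤ RR →
    tr (lab u) ≠ 0 ∧ tr (lab u) ≠ 2

lemma ez_ne (hS : S.Ok) (hs : S.Small2 n s) (h : S.In n s q x y) {lab : Half ZT → Fin 4}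
    (hl : ZL m n s σ q x y lab) (j : Fin 4) : m.ez n σ q j ≠ zz x y := by
  intro hj
  have hnz : next (S.zg n s q x y) (zz x y) = zz x y := next_z hS hs q h.1.1 h.1.2 h.2.1 h.2.2
  have h1 := hl.lab_e j
  rw [hj, hnz, ← hj] at h1
  have f4 : ∀ j : Fin 4, j - 1 ≠ j := by decide
  exact f4 j (h1.1.symm.trans h1.2)

/-- **(6)** -/
theorem nearData (hS : S.Ok) (hm : m.Ok) (hs : S.Small n s) (hσ : ∀ j, 4 * σ j ≤ n) (h : S.In n s q x y)
    {z : ℂ} (hx : |(x : ℝ) - n * z.re| ≤ 1) (hy : |(y : ℝ) - n * z.im| ≤ 1) (hz : z ∈ rc S q)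
    {δ R : ℝ} (hδ : 1 ≤ δ) (hJ : JoinedIn (S.dom ∩ Metric.ball (m.pt 3) δ) z (m.pt 3))
    (hR : δ + 2 < R) (hfar : ∀ w ∈ m.arc 0 ∪ m.arc 1, R ≤ dist (m.pt 3) w) {rr RR : ℤ} (hr : 4 * n * δ ≤ rr)
    (hRR : (RR : ℝ) ≤ n * ((R - δ) / 4)) : ∃ lab, NearData m n s σ q x y rr RR lab := by
  obtain ⟨lab, hl⟩ := exists_ZL (σ := σ) hS hm hs hσ h
  have hn := hs.1
  have hr0 : 0 ≤ rr := by
    have : (0 : ℝ) ≤ rr := by
      have h1 : (0 : ℝ) ≤ 4 * n * δ := by positivity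
      linarith
    exact_mod_cast this
  have hp := path_mark (σ := σ) (r := rr) hS (tree hS) hm hs (hσ 3) h hz (by rw [abs_sub_comm]; exact hx)
    (by rw [abs_sub_comm]; exact hy) hδ hJ hr
  have hfar' : ∀ i : Fin 3, i = 0 ∨ i = 2 → ∀ w ∈ m.opp i, R - δ ≤ dist z w := by
    intro i hi w hw
    have hw' : w ∈ m.arc 0 ∪ m.arc 1 := by
      rcases hi with rfl | rfl
      · exact Or.inr hw
      · exact Or.inl hw
    have h1 := hfar w hw'
    have h2 : dist z (m.pt 3) < δ := hJ.source_mem.2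
    have h3 := dist_triangle_left (m.pt 3) w z
    linarith
  have key : ∀ i : Fin 3, i = 0 ∨ i = 2 → ∀ u, Bd (S.zT n s q y) (S.zg n s q x y) u → u ≠ zz x y →
      nrm (zpos x y u) ≤ RR → tr (lab u) ≠ i := by
    intro i hi u hu huz hur
    refine hl.far hm hn hx hy (R := R - δ) (by linarith) (hfar' i hi) hu huz ?_
    have h1 : (nrm (zpos x y u) : ℝ) ≤ RR := by exact_mod_cast hur
    exact h1.trans hRR
  exact ⟨lab, {
    zl := hl
    pos := zpos_pos hS hs.two h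
    tri := fun w hw => zlab hS hs h hl.step hl.bd hl.lab_e hw
    zero := zpos_zz
    bz := bd_zz hS hs.two h
    be := hl.bd
    ne := ez_ne hS hs.two h hl
    path := hp
    close := path_end hr0 hp
    far := fun u hu huz hur => ⟨key 0 (Or.inl rfl) u hu huz hur, key 2 (Or.inr rfl) u hu huz hur⟩ }⟩

end

/-- (6) for the lattice point of the observable, for all shifts at once -/
theorem near_F {S : Shape} (hS : S.Ok) {m : S.Marks} (hm : m.Ok) {n : ℕ} (hn : 8 ≤ n) {z : ℂ} (hz : S.Deep z)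
    {δ R : ℝ} (hδ : 1 ≤ δ) (hJ : JoinedIn (S.dom ∩ Metric.ball (m.pt 3) δ) z (m.pt 3))
    (hR : δ + 2 < R) (hfar : ∀ w ∈ m.arc 0 ∪ m.arc 1, R ≤ dist (m.pt 3) w) {rr RR : ℤ} (hr : 4 * n * δ ≤ rr)
    (hRR : (RR : ℝ) ≤ n * ((R - δ) / 4)) :
    ∃ (q : S.Q) (x y : ℤ), F m n z = Fav m n q x y ∧ (|(x : ℝ) - n * z.re| ≤ 1 ∧ |(y : ℝ) - n * z.im| ≤ 1) ∧
      (((S.xl q : ℝ) < z.re ∧ z.re < S.xr q) ∧ (S.yb q : ℝ) ≤ z.im ∧ z.im < S.yt q) ∧
      ∀ a : Sh S n, S.In n a.s q x y ∧ ∃ lab, NearData m n a.s a.σ q x y rr RR lab := by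
  obtain ⟨q, hq, hF, hin⟩ := deep_F hS m hn hz
  have h0 : (0 : ℝ) < n := by
    have : 0 < n := by omega
    exact_mod_cast this
  have hp := point_near (n := n) (z := z) (b := S.ft n q) (by
    unfold Shape.ft
    push_cast
    exact mul_lt_mul_of_pos_left hq.2.2 h0)
  have hsm : ∀ a : Sh S n, S.Small n a.s := fun a => ⟨hn, fun v => by
    have h1 : a.s v < n / 4 := (a.1 v).isLt
    omega⟩
  have hσ : ∀ a : Sh S n, ∀ j, 4 * a.σ j ≤ n := fun a j => by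
    have h1 : a.σ j < n / 4 := (a.2 j).isLt
    omega
  exact ⟨q, _, _, hF, hp, hq, fun a => ⟨hin a, nearData hS hm (hsm a) (hσ a) (hin a) hp.1 hp.2
    ⟨⟨hq.1.1.le, hq.1.2.le⟩, hq.2.1, hq.2.2.le⟩ hδ hJ hR hfar hr hRR⟩⟩

end Full.S4
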