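import Pool.Agent.Full.P5.Exit
import Pool.Agent.Full.S4.Comp
import Pool.Agent.Full.Loc.Pair
import Pool.Agent.Full.Loc.WallT

/-!
# Two regions with closed walls which agree outside a small window

`Same T w W T' w' W' φ` for two labelled regions; the boundary may be near the window, but the arc `i` is
far.  Then the laws of the exits differ by at most `C (r/R)^c`.
-/

set_option autoImplicit false
set_option linter.unusedSectionVars false

namespace Full.P5
open Function Relation Full.Loc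
open Pool.Agent.Helper69.RSW (P P_mono P_congr P_restrict Dep P_nonneg P_le_one P_or_le P_compl)

section
variable {τ σ : Type} [DecidableEq τ] [DecidableEq σ] {T : Finset τ} {g w : Half τ → Half τ} {z : Half τ}
  {e : Fin 3 → Half τ} {lab : Half τ → Fin 3} {T' : Finset σ} {g' w' : Half σ → Half σ} {z' : Half σ}
  {e' : Fin 3 → Half σ} {lab' : Half σ → Fin 3} {pos : Half τ → ℤ × ℤ} {kt : Dir → τ → ℤ × ℤ} {m : ℕ}

/-- the colouring of the second region is constant along the common steps -/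
theorem col_pull {B : Finset τ} {B' : Finset σ} {φ : τ → σ} (hs : Same T w B T' w' B' φ) (hG : Glu T w)
    (h' : Mk T' w' z' e') (hz : z.1 ∈ B) {ω : Finset τ} {ω' : Finset σ}
    (hω : ∀ t ∈ T \ B, φ t ∈ ω' ↔ t ∈ ω) {k : Fin 3} {c : Half σ → ZMod 2} (hc : Col T' w' z' e' ω' k c)
    {x y : Half τ} (hst : StS (B : Set τ) T w w z z ω x y) : c (hmap φ y) = c (hmap φ x) := by
  have key : ∀ {x y : Half τ}, x.1 ∈ T → y.1 ∈ T → Stp (B : Set τ) w w z z ω x y →
      c (hmap φ y) = c (hmap φ x) := by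
    rintro x y hx hy ⟨hxB, hyB, h3⟩
    have hxm : x.1 ∈ T \ B := Finset.mem_sdiff.2 ⟨hx, hxB⟩
    rcases h3 with ⟨h3, -, rfl⟩ | ⟨h3, rfl⟩ | ⟨rfl, -, -⟩
    · have h4 : w' (hmap φ x) = hmap φ (w x) := hs.glue x hxm (Finset.mem_sdiff.2 ⟨hG.mem x hx, hyB⟩)
      have h5 : w' (hmap φ x) ≠ hmap φ x := fun h6 => h3 ((hs.fix_iff hG hxm).1 h6)
      have h6 := corner_w h'.glu hc.corner h5
      rw [h4] at h6
      exact h6
    · have h4 : mate ω' (hmap φ x) = rho (hmap φ x) := by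
        have h5 : mate ω' (hmap φ x) = hmap φ (mate ω x) := by
          have h6 := hω _ hxm
          unfold mate hmap
          simp only [h6]
        rw [h5, h3]
        rfl
      exact hc.diag (hmap φ x) (Finset.mem_sdiff.1 (hs.mem' hxm)).1 h4
    · exact absurd hz hxB
  obtain ⟨h1, h2, h3⟩ := hst
  rcases h3 with h3 | h3
  · exact key h1 h2 h3
  · exact (key h2 h1 h3).symm

lemma sts_out {B : Set τ} {ω : Finset τ} {s y : Half τ} (hs : s.1 ∉ B)
    (h : ReflTransGen (StS B T w w z z ω) s y) : y.1 ∉ B := by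
  rcases ReflTransGen.cases_tail h with h1 | ⟨x, -, h2⟩
  · rw [h1]; exact hs
  · rcases h2.2.2 with h3 | h3
    · exact h3.2.1
    · exact h3.1

/-- **different exits of the two regions: there is an arm** -/
theorem arm_of_pair (h : Lab T g w z e lab) (h' : Lab T' g' w' z' e' lab') (hP : Pos T g pos kt m)
    {b : Half τ} {B : Finset τ} {B' : Finset σ} {φ : τ → σ} (hs : Same T w B T' w' B' φ)
    (hzB : z.1 ∈ B) (hzB' : z'.1 ∈ B') {r R : ℤ} (hB : ∀ x : Half τ, x.1 ∈ T → x.1 ∈ B → nrm (pos x) ≤ r)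
    (hrR : r < R) (he : ∀ k, (e k).1 ∉ B → e' k = hmap φ (e k)) {i : Fin 3}
    (hnear : ∀ u, Bd T g u → u ≠ z → nrm (pos u) < R + 2 → lab u ≠ i)
    (ho : ∀ y, Bd T g y → y.1 ∉ B → Bd T' g' (hmap φ y) ∧ lab' (hmap φ y) = lab y ∧
      (w y = next g y → w' (hmap φ y) = next g' (hmap φ y))) {K : Finset τ}
    (hK : ∀ t ∈ T, t ∉ B → t ∈ K) {c cut : Half τ → ZMod 2} (hc : CutCol T g z b (B : Set τ) c cut)
    {ω : Finset τ} {ω' : Finset σ} (hω : ∀ t ∈ T \ B, φ t ∈ ω' ↔ t ∈ ω) {j k : Fin 3}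
    (hj : other (mate ω) w z = e j) (hk : other (mate ω') w' z' = e' k) (hjk : j ≠ k) :
    ∃ ε u v, nrm (pos0 T pos u) ≤ r + 2 ∧ R ≤ nrm (pos0 T pos v) ∧
      ReflTransGen (St (ga c ε) (gb c ε) (Sm T pos kt m) (Sg K c ε ω)) u v := by
  have hG := h.glu
  have hbe : ∀ k, Bd T g (e k) := fun k => h.bd_of_w (h.be k)
  -- the two ends of the arc `i` are far
  have hfar1 : ¬ nrm (pos (rho (e (i + 1)))) < R + 2 := by
    intro hh
    have h1 := (hP.sm_next hG (hbe (i + 1))).2.2.1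
    have h2 : lab (next g (e (i + 1))) = i := by rw [(h.lab_e (i + 1)).2, f12]
    by_cases h3 : next g (e (i + 1)) = z
    · have h4 : next g z ≠ z := by
        rcases h.next_e_ne (i + 1) with h5 | h5
        · rw [h3] at h5; exact h5
        · exact absurd h3 h5
      have h5 : lab (next g z) = i := by
        rw [h.step z (h.bd_of_w h.bz) h.ze, ← h3, h2]
      have h6 := (hP.sm_next hG (h.bd_of_w h.bz)).2.2.1
      have h7 := hB (rho z) h.bz.1 hzB
      rw [h6] at h7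
      exact hnear _ (hG.next_bd (h.bd_of_w h.bz)) h4 (by omega) h5
    · rw [h1] at hh
      exact hnear _ (hG.next_bd (hbe _)) h3 hh h2
  have hfar2 : ¬ nrm (pos (e (i + 2))) < R + 2 := fun hh =>
    hnear _ (hbe _) (Ne.symm (h.ze _)) hh (by rw [(h.lab_e _).1, f21])
  have hB1 : (e (i + 1)).1 ∉ B := fun hm =>
    hfar1 (lt_of_le_of_lt (hB (rho (e (i + 1))) (h.be _).1 hm) (by omega))
  have hB2 : (e (i + 2)).1 ∉ B := fun hm =>
    hfar2 (lt_of_le_of_lt (hB (e (i + 2)) (h.be _).1 hm) (by omega))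
  obtain ⟨c₁, hc₁⟩ := h.mk'.col hj
  obtain ⟨c₂, hc₂⟩ := h'.mk'.col hk
  obtain ⟨x, hx⟩ := hs.link h.mk' h'.mk' hzB hzB' hω hj hk hjk hc₁ hc₂ i (he _ hB1) (he _ hB2) hB1 hB2
  -- the start of the path
  obtain ⟨s, hs', hsR, hsB⟩ : ∃ s, ReflTransGen (StS (B : Set τ) T w w z z ω) s x ∧ R ≤ nrm (pos s) ∧
      s.1 ∉ (B : Set τ) := by
    rcases hx.path with hp | hp
    · exact ⟨_, hp, by omega, hB2⟩
    · exact ⟨_, hp, by omega, hB1⟩
  have k0 : ∀ {x y : Half τ}, StS (B : Set τ) T w w z z ω x y → c y = c x := fun hs => hc.st h hzB hs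
  have k1 : ∀ {x y : Half τ}, StS (B : Set τ) T w w z z ω x y → c₁ y = c₁ x := fun hs => hc₁.st h.mk' hs
  have k2 : ∀ {x y : Half τ}, StS (B : Set τ) T w w z z ω x y → c₂ (hmap φ y) = c₂ (hmap φ x) :=
    fun hst => col_pull hs h.wall.toGlu h'.mk' hzB hω hc₂ hst
  have hcz : c₁ (rho z) = c₁ z := by rw [(hc₁.hit _ (Conn.refl _)).1, (hc₁.hit _ (Conn.refl _)).2]
  have hcz' : c₂ (rho z') = c₂ z' := by rw [(hc₂.hit _ (Conn.refl _)).1, (hc₂.hit _ (Conn.refl _)).2]
  have hwall : ∀ y, Bd T g y → w y = next g y → w y ≠ y → nrm (pos y) < R + 2 →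
      ReflTransGen (StS (B : Set τ) T w w z z ω) s y → False := by
    intro y hy hwy hwy' hyR hsy
    have hyz : y ≠ z := fun h1 => hwy' (by rw [h1]; exact h.bz.2)
    have hyi := hnear y hy hyz hyR
    have hyB : y.1 ∉ B := sts_out hsB hsy
    obtain ⟨o1, o2, o3⟩ := ho y hy hyB
    have hyz' : hmap φ y ≠ z' := by
      intro h1
      have h2 := (Finset.mem_sdiff.1 (hs.mem' (Finset.mem_sdiff.2 ⟨hy.1, hyB⟩))).2
      exact h2 (by rw [← h1] at hzB'; exact hzB')
    have e1 : c₁ y = c₁ (e (i + 2)) := by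
      rw [st_path_const k1 hsy, ← st_path_const k1 hs', hx.val1]
    have e2 := h.val_w hc₁.corner hcz hy (Or.inr hyz) (Or.inl hwy)
    have f1' : c₂ (hmap φ y) = c₂ (e' (i + 2)) := by
      have h1 := st_path_const (c := fun v => c₂ (hmap φ v)) k2 hsy
      have h2 := st_path_const (c := fun v => c₂ (hmap φ v)) k2 hs'
      exact (h1.trans h2.symm).trans hx.val2
    have f2' := h'.val_w hc₂.corner hcz' o1 (Or.inr hyz') (Or.inl (o3 hwy))
    rw [o2] at f2'
    refine hx.sep (lab y) hyi ?_ ?_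
    · show c₁ (e (lab y + 2)) = c₁ (e (i + 2))
      rw [← e2, e1]
    · show c₂ (e' (lab y + 2)) = c₂ (e' (i + 2))
      rw [← f2', f1']
  obtain ⟨v, hv1, hv2, hv3⟩ := arm_of_path hG h.wall hP hK
    (fun x hx hxB => by rw [hc.nx x hx, hc.supp x hxB, add_zero]) hzB hs' hsR
    (fun y hy => st_path_const k0 hy) hwall
  have hvT : v.1 ∈ T := by
    rcases hv2 with h1 | h1
    · rw [h1]; exact hx.mem
    · exact h1
  refine ⟨c s, x, v, ?_, by rw [pos0_eq hvT]; exact hv1, hv3⟩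
  rw [pos0_eq hx.mem]
  obtain ⟨x', h1, h2⟩ := hx.exit
  rw [or_self] at h2
  have h3 : x'.1 ∈ T := by rw [h1]; exact hx.mem
  have h4 : w x' ≠ x' := fun h4 => hx.out (by rw [← h1, ← h4]; exact h2)
  have h5 := hP.nrm_tile (x := x) (y := x') hx.mem h1.symm
  rcases hP.sm_w hG h.wall h3 h4 with h6 | ⟨h6, h7⟩
  · have h8 := hB (rho (w x')) (h.wall.mem x' h3) h2
    rw [← h6.2.2.1] at h8
    omega
  · have h8 := hB (w x') (h.wall.mem x' h3) h2
    rw [h7, ← (hP.sm_next hG h6).2.2.1] at h8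
    have h9 := hP.nrm_tile (x := x) (y := rho x') hx.mem h1.symm
    omega

/-- the exits -/
lemma Mk.exit (h : Mk T w z e) (ω : Finset τ) : ∃ j, other (mate ω) w z = e j := by
  have h1 := h.glu.other_bd (ω := ω) h.bz
  rcases h.ends _ h1 with h2 | h2
  · exact absurd h2 (h.glu.other_ne h.bz)
  · exact h2

end

lemma z01 : ∀ ε : ZMod 2, ε = 0 ∨ ε = 1 := by decide

lemma P_exZ2 {E : Type*} [DecidableEq E] {T : Finset E} {A : ZMod 2 → Finset E → Prop} {q : ℝ}
    (h : ∀ ε, P T (A ε) ≤ q) : P T (fun ω => ∃ ε, A ε ω) ≤ 2 * q := by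
  have h1 : P T (fun ω => ∃ ε, A ε ω) = P T (fun ω => A 0 ω ∨ A 1 ω) := by
    refine P_congr fun ω _ => ?_
    constructor
    · rintro ⟨ε, hε⟩
      rcases z01 ε with rfl | rfl
      · exact Or.inl hε
      · exact Or.inr hε
    · rintro (h2 | h2)
      · exact ⟨0, h2⟩
      · exact ⟨1, h2⟩
  rw [h1]
  have h2 := P_or_le (F := T) (A := A 0) (B := A 1)
  linarith [h 0, h 1]

/-- **the laws of the exits of two labelled regions which agree outside a small window** -/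
theorem pair_exit_le : ∃ C c : ℝ, 0 < C ∧ 0 < c ∧ ∀ (τ σ : Type) (_ : DecidableEq τ) (_ : DecidableEq σ)
    (T : Finset τ) (g w : Half τ → Half τ) (z : Half τ) (e : Fin 3 → Half τ) (lab : Half τ → Fin 3)
    (T' : Finset σ) (g' w' : Half σ → Half σ) (z' : Half σ) (e' : Fin 3 → Half σ) (lab' : Half σ → Fin 3)
    (W : Finset τ) (W' : Finset σ) (φ : τ → σ)
    (pos : Half τ → ℤ × ℤ) (kt : Dir → τ → ℤ × ℤ) (m : ℕ) (b : Half τ) (i j : Fin 3) (r R : ℕ),
    Lab T g w z e lab → Lab T' g' w' z' e' lab' → Same T w W T' w' W' φ → z.1 ∈ W → z'.1 ∈ W' →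
    (∀ k, e' k = hmap φ (e k)) →
    (∀ y, Bd T g y → r < nrm (pos y) → Bd T' g' (hmap φ y) ∧ lab' (hmap φ y) = lab y ∧
      (w y = next g y → w' (hmap φ y) = next g' (hmap φ y))) →
    (∀ x : Half τ, x.1 ∈ W → nrm (pos x) ≤ r) →
    Pos T g pos kt m → Bd T g b → b ≠ z → 1 ≤ r → m ≤ r → 1 ≤ R →
    ReflTransGen (fun u v : Half τ => u.1 ∈ T ∧ nrm (pos u) ≤ r ∧ (v = rho u ∨ v = g u)) z b →
    (∀ u, Bd T g u → u ≠ z → nrm (pos u) < R → lab u ≠ i) →
    |P T (fun ω => other (mate ω) w z = e j) - P T' (fun ω => other (mate ω) w' z' = e' j)| ≤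
      C * ((r : ℝ) / R) ^ c := by
  obtain ⟨C, c, hC, hc, harm⟩ := arm_le
  refine ⟨2 * (max 1 C * 6 ^ c), c, by positivity, hc, ?_⟩
  intro τ σ _ _ T g w z e lab T' g' w' z' e' lab' W W' φ pos kt m b i j r R h h' hsame hzW hzW' he ho hW
    hP hb hbz hr hm hR hp hnear
  have hr0 : (0 : ℝ) < r := by exact_mod_cast hr
  have hR0 : (0 : ℝ) < R := by exact_mod_cast hR
  by_cases hRr : R ≤ r + 5
  · -- trivial bound
    have h1 : (1 : ℝ) ≤ 6 * ((r : ℝ) / R) := by
      rw [mul_div_assoc', le_div_iff₀ hR0, one_mul]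
      have h2 : R ≤ 6 * r := by omega
      exact_mod_cast h2
    have h2 : (1 : ℝ) ≤ (6 * ((r : ℝ) / R)) ^ c := Real.one_le_rpow h1 hc.le
    rw [Real.mul_rpow (by norm_num) (by positivity)] at h2
    have a1 := P_le_one (F := T) (A := fun ω => other (mate ω) w z = e j)
    have a2 := P_nonneg T (fun ω => other (mate ω) w z = e j)
    have a3 := P_le_one (F := T') (A := fun ω => other (mate ω) w' z' = e' j)
    have a4 := P_nonneg T' (fun ω => other (mate ω) w' z' = e' j)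
    have h4 : (1 : ℝ) ≤ max 1 C := le_max_left _ _
    have h5 : (0 : ℝ) ≤ 6 ^ c * ((r : ℝ) / R) ^ c := by positivity
    have h6 : (1 : ℝ) ≤ 2 * (max 1 C * 6 ^ c) * ((r : ℝ) / R) ^ c := by nlinarith
    rw [abs_le]
    constructor <;> linarith
  · classical
    set Bs : Set τ := Bl T pos (r + 1) with hBs
    set B : Finset τ := T.filter fun t => t ∈ Bs with hBd
    have hmB : ∀ t, t ∈ B ↔ t ∈ T ∧ t ∈ Bs := fun t => Finset.mem_filter
    have hBT : B ⊆ T := Finset.filter_subset _ _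
    have hG := h.glu
    have hWB : W ⊆ B := by
      intro t ht
      rw [hmB]
      exact ⟨hsame.sub ht, fun d _ => (hW (t, d) ht).trans (by omega)⟩
    have hzB : z.1 ∈ B := hWB hzW
    have hBB : ∀ x : Half τ, x.1 ∈ T → x.1 ∈ B → nrm (pos x) ≤ r + 1 := fun x hx hxB =>
      ((hmB _).1 hxB).2 x.2 hx
    have hs' := hsame.mono hWB hBT
    have hzB' : z'.1 ∈ W' ∪ (B \ W).image φ := Finset.mem_union_left _ hzW'
    have hp' : ReflTransGen (fun x y : Half τ => y.1 ∈ (B : Set τ) ∧ (y = rho x ∨ y = g x)) z b := by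
      refine ReflTransGen.mono ?_ z b hp
      rintro u v ⟨h1, h2, rfl | rfl⟩
      · refine ⟨(hmB _).2 ⟨h1, fun d _ => ?_⟩, Or.inl rfl⟩
        have := hP.nrm_tile (x := (u.1, d)) (y := u) h1 rfl
        show nrm (pos (u.1, d)) ≤ _
        omega
      · refine ⟨(hmB _).2 ⟨hG.mem u h1, fun d _ => ?_⟩, Or.inr rfl⟩
        by_cases h3 : g u = u
        · rw [h3]
          have := hP.nrm_tile (x := (u.1, d)) (y := u) h1 rfl
          omega
        · have h4 := (hP.sm hG h1 h3).2.2.1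
          have := hP.nrm_tile (x := ((g u).1, d)) (y := rho (g u)) (hG.mem u h1) rfl
          rw [← h4] at this
          omega
    obtain ⟨cc, cut, hcc⟩ := exists_cutCol hG h.sc (h.bd_of_w h.bz) hb hbz (Finset.mem_coe.2 hzB) hp'
    set K : Finset τ := T.filter fun t => t ∉ B with hK
    have hKT : K ⊆ T := Finset.filter_subset _ _
    -- the arm event
    let D : Finset τ → Prop := fun ω => ∃ ε u v, nrm (pos0 T pos u) ≤ ((r + 3 : ℕ) : ℤ) ∧
      ((R - 2 : ℕ) : ℤ) ≤ nrm (pos0 T pos v) ∧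
        ReflTransGen (St (ga cc ε) (gb cc ε) (Sm T pos kt m) (Sg K cc ε ω)) u v
    have hD : ∀ (ω : Finset τ) (ω' : Finset σ), (∀ t ∈ T \ B, φ t ∈ ω' ↔ t ∈ ω) → ∀ k l : Fin 3, k ≠ l →
        other (mate ω) w z = e k → other (mate ω') w' z' = e' l → D ω := by
      intro ω ω' hω k l hkl hk hl
      obtain ⟨ε, u, v, h2, h3, h4⟩ := arm_of_pair h h' hP (r := r + 1) (R := R - 2) hs' hzB hzB' hBB
        (by omega) (fun k _ => he k) (fun u hu huz hur => hnear u hu huz (by omega))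
        (fun y hy hyB => ho y hy (by
          by_contra h1
          refine hyB ((hmB _).2 ⟨hy.1, fun d _ => ?_⟩)
          have := hP.nrm_tile (x := (y.1, d)) (y := y) hy.1 rfl
          omega)) (K := K) (fun t ht htB => Finset.mem_filter.2 ⟨ht, htB⟩) hcc hω hk hl hkl
      exact ⟨ε, u, v, by push_cast; omega, by omega, h4⟩
    have h1 : P T (fun ω => other (mate ω) w z = e j) ≤
        P T' (fun ω => other (mate ω) w' z' = e' j) + P T D := by
      refine hs'.P_le fun ω ω' _ _ hω hA hA' => ?_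
      obtain ⟨l, hl⟩ := h'.mk'.exit ω'
      exact hD ω ω' hω j l (fun h2 => hA' (by rw [hl, h2])) hA hl
    have h2 : P T (fun ω => ¬ other (mate ω) w z = e j) ≤
        P T' (fun ω => ¬ other (mate ω) w' z' = e' j) + P T D := by
      refine hs'.P_le fun ω ω' _ _ hω hA hA' => ?_
      rw [not_not] at hA'
      obtain ⟨l, hl⟩ := h.mk'.exit ω
      exact hD ω ω' hω l j (fun h2 => hA (by rw [hl, h2])) hl hA'
    have h3 := P_compl T (fun ω => other (mate ω) w z = e j)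
    have h4 := P_compl T' (fun ω => other (mate ω) w' z' = e' j)
    have h5 : P T D ≤ 2 * (C * (((r + 3 : ℕ) : ℝ) / ((R - 2 : ℕ) : ℝ)) ^ c) := by
      refine P_exZ2 fun ε => ?_
      have h2 : P T (fun ω => ∃ u v, nrm (pos0 T pos u) ≤ ((r + 3 : ℕ) : ℤ) ∧
            ((R - 2 : ℕ) : ℤ) ≤ nrm (pos0 T pos v) ∧
            ReflTransGen (St (ga cc ε) (gb cc ε) (Sm T pos kt m) (Sg K cc ε ω)) u v) =
          P K (fun S => ∃ u v, nrm (pos0 T pos u) ≤ ((r + 3 : ℕ) : ℤ) ∧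
            ((R - 2 : ℕ) : ℤ) ≤ nrm (pos0 T pos v) ∧
            ReflTransGen (St (ga cc ε) (gb cc ε) (Sm T pos kt m) S) u v) :=
        P_good hKT (fun t => cc (t, .E) ≠ ε) (fun S => ∃ u v, nrm (pos0 T pos u) ≤ ((r + 3 : ℕ) : ℤ) ∧
            ((R - 2 : ℕ) : ℤ) ≤ nrm (pos0 T pos v) ∧
            ReflTransGen (St (ga cc ε) (gb cc ε) (Sm T pos kt m) S) u v)
      rw [h2]
      exact harm τ (Half τ) inferInstance K (ga cc ε) (gb cc ε) (Sm T pos kt m) (pos0 T pos) kt (kv kt) m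
        (r + 3) (R - 2) (hP.charts hKT cc ε) (by omega) (by omega) (by omega)
    have h6 : (((r + 3 : ℕ) : ℝ) / ((R - 2 : ℕ) : ℝ)) ≤ 6 * ((r : ℝ) / R) := by
      have h5 : (0 : ℝ) < ((R - 2 : ℕ) : ℝ) := by exact_mod_cast (show 0 < R - 2 by omega)
      rw [mul_div_assoc', div_le_div_iff₀ h5 hR0]
      have h6 : (r + 3) * R ≤ 6 * r * (R - 2) := by
        obtain ⟨R', rfl⟩ : ∃ R', R = R' + 2 := ⟨R - 2, by omega⟩
        rw [Nat.add_sub_cancel]
        nlinarith
      exact_mod_cast h6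
    have h7 : C * (((r + 3 : ℕ) : ℝ) / ((R - 2 : ℕ) : ℝ)) ^ c ≤ max 1 C * 6 ^ c * ((r : ℝ) / R) ^ c := by
      calc C * (((r + 3 : ℕ) : ℝ) / ((R - 2 : ℕ) : ℝ)) ^ c ≤ C * (6 * ((r : ℝ) / R)) ^ c :=
            mul_le_mul_of_nonneg_left (Real.rpow_le_rpow (by positivity) h6 hc.le) hC.le
        _ = C * 6 ^ c * ((r : ℝ) / R) ^ c := by
            rw [Real.mul_rpow (by norm_num) (by positivity)]; ring
        _ ≤ max 1 C * 6 ^ c * ((r : ℝ) / R) ^ c := by
            have h4 : C ≤ max 1 C := le_max_right _ _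
            have h5 : (0 : ℝ) ≤ 6 ^ c * ((r : ℝ) / R) ^ c := by positivity
            nlinarith
    rw [abs_le]
    constructor <;> linarith

end Full.P5
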