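import Pool.Agent.Full.P5.S3
import Pool.Agent.Full.S4.PairExit
import Pool.Agent.Full.S4.LabAgree
import Pool.Agent.Full.S4.Near
import Pool.Agent.Full.S4.Four

/-!
# The fourth mark: the estimate for fixed shifts

`Fin4`: the domain with the end `z` and the fine region with the four marks are the same outside a window.
Then the exit of `z` and the exit of the fourth mark have almost the same law.
-/

set_option autoImplicit false
set_option linter.unusedSectionVars false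

namespace Full.S4
open Function Relation Full.Shape Full.P5 Full.Loc
open Pool.Agent.Helper69.RSW (P P_nonneg P_le_one)

/-- the domain with the end `z` and the fine region with the four marks are the same outside a window -/
structure Fin4 {S : Shape} (m : S.Marks) (n : ℕ) (s : S.Q × Bool → ℕ) (σ : Fin 4 → ℕ) (q : S.Q) (x y : ℤ)
    (s' : S.Q × Bool → ℕ) (σ' : Fin 4 → ℕ) (r : ℤ) (w : Half ZT → Half ZT)
    (w' : Half (ℤ × ℤ) → Half (ℤ × ℤ)) (W : Finset ZT) (W' : Finset (ℤ × ℤ)) (φ : ZT → ℤ × ℤ) : Prop where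
  same : Loc.Same (S.zT n s q y) (S.zg n s q x y) W (S.T n s') (plane.glue (S.T n s')) W' φ
  samew : Loc.Same (S.zT n s q y) w W (S.T n s') w' W' φ
  z : (zz x y).1 ∈ W
  z' : (m.e n σ' 3).1 ∈ W'
  mark : ∀ k : Fin 3, (m.ez n σ q k.castSucc).1 ∉ W ∧ m.e n σ' k.castSucc = hmap φ (m.ez n σ q k.castSucc)
  near : ∀ u : Half ZT, u.1 ∈ W → nrm (zpos x y u) ≤ r

/-- **the exits of `z` and of the fourth mark** -/
theorem key_le : ∃ C c : ℝ, 0 < C ∧ 0 < c ∧ ∀ (S : Shape), S.Ok → ∀ (m : S.Marks), m.Ok → ∀ (n : ℕ), 8 ≤ n →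
    ∀ (a a' : Sh S n) (q : S.Q) (x y : ℤ), S.In n a.s q x y → ∀ (z : ℂ), z ∈ rc S q →
    |(x : ℝ) - n * z.re| ≤ 1 → |(y : ℝ) - n * z.im| ≤ 1 → ∀ (δ R : ℝ), 1 ≤ δ → δ ≤ R →
    JoinedIn (S.dom ∩ Metric.ball (m.pt 3) δ) z (m.pt 3) →
    (∀ w ∈ m.arc 0 ∪ m.arc 1, R ≤ dist (m.pt 3) w) → ∀ (w : Half ZT → Half ZT)
    (w' : Half (ℤ × ℤ) → Half (ℤ × ℤ)), IsWz m n q x y a w → IsW4 m n a' w' → ∀ (r : ℤ),
    (r : ℝ) ≤ 64 * (n * δ) → ∀ (W : Finset ZT) (W' : Finset (ℤ × ℤ)) (φ : ZT → ℤ × ℤ),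
    Fin4 m n a.s a.σ q x y a'.s a'.σ r w w' W W' φ → ∀ j : Fin 3,
    |ex (S.zT n a.s q y) w (zz x y) (fun j => m.ez n a.σ q j.castSucc) j -
      P (S.T n a'.s) (fun ω => other (mate ω) w' (m.e n a'.σ 3) = m.e n a'.σ j.castSucc)| ≤ C * (δ / R) ^ c := by
  obtain ⟨C, c, hC, hc, hpair⟩ := pair_exit_le
  refine ⟨max 1 C * 2048 ^ c, c, by positivity, hc, ?_⟩
  intro S hS m hm n hn a a' q x y hin z hz hx hy δ R hδ hδR hJ hfar w w' hw hw' r hr W W' φ hF j
  have hnR : (8 : ℝ) ≤ n := by exact_mod_cast hn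
  have hR0 : 0 < R := by linarith
  have hM : (1 : ℝ) ≤ max 1 C := le_max_left _ _
  have hMC : C ≤ max 1 C := le_max_right _ _
  have h5 : (0 : ℝ) ≤ 2048 ^ c * (δ / R) ^ c := by positivity
  by_cases hR : R ≤ 2048 * δ
  · -- trivial bound
    have h1 : (1 : ℝ) ≤ 2048 * (δ / R) := by
      rw [mul_div_assoc', le_div_iff₀ hR0]
      linarith
    have h2 : (1 : ℝ) ≤ (2048 * (δ / R)) ^ c := Real.one_le_rpow h1 hc.le
    rw [Real.mul_rpow (by norm_num) (by positivity)] at h2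
    have a1 : ex (S.zT n a.s q y) w (zz x y) (fun j => m.ez n a.σ q j.castSucc) j ≤ 1 := P_le_one _ _
    have a2 : 0 ≤ ex (S.zT n a.s q y) w (zz x y) (fun j => m.ez n a.σ q j.castSucc) j := ex_nonneg j
    have a3 := P_le_one (S.T n a'.s) (fun ω => other (mate ω) w' (m.e n a'.σ 3) = m.e n a'.σ j.castSucc)
    have a4 := P_nonneg (S.T n a'.s) (fun ω => other (mate ω) w' (m.e n a'.σ 3) = m.e n a'.σ j.castSucc)
    have h6 : (1 : ℝ) ≤ max 1 C * 2048 ^ c * (δ / R) ^ c := by nlinarith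
    rw [abs_le]
    constructor <;> linarith
  have hR : 2048 * δ < R := not_le.1 hR
  -- the radii
  set r₁ : ℕ := ⌈64 * (n * δ)⌉₊ + 2 with hr₁
  have hr1 : 64 * (n * δ) + 2 ≤ r₁ := by
    have := Nat.le_ceil (64 * (n * δ))
    rw [hr₁]; push_cast; linarith
  have hr2 : (r₁ : ℝ) < 64 * (n * δ) + 3 := by
    have := Nat.ceil_lt_add_one (a := 64 * (n * δ)) (by positivity)
    rw [hr₁]; push_cast; linarith
  set N : ℕ := ⌊n * R / 8⌋₊ with hN
  have hN1 : (N : ℝ) ≤ n * R / 8 := Nat.floor_le (by positivity)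
  have hN2 : n * R / 8 < N + 1 := Nat.lt_floor_add_one _
  have hnδ : (8 : ℝ) ≤ n * δ := by nlinarith
  have hnR' : 2048 * (n * δ) ≤ n * R := by nlinarith
  have hN3 : n * R / 16 ≤ N := by nlinarith
  have hN0 : (0 : ℝ) < N := by nlinarith
  have hrr : r + 2 ≤ r₁ := by
    have : ((r + 2 : ℤ) : ℝ) ≤ ((r₁ : ℤ) : ℝ) := by push_cast; linarith
    exact_mod_cast this
  have hrN : (r₁ : ℤ) + 4 < N := by
    have : ((r₁ : ℝ) + 4) < N := by nlinarith
    exact_mod_cast this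
  obtain ⟨lab, D⟩ := nearData (rr := (r₁ : ℤ)) (RR := (N : ℤ)) hS hm (a.small hn) a.σ_le hin hx hy hz hδ hJ
    (by linarith) hfar (by push_cast; nlinarith) (by push_cast; nlinarith)
  have hL := D.tri w hw
  have hL' := lab4 hS hm (a'.small hn).two a'.σ_le hw'
  have hG := hL.glu
  -- the arcs `0` and `2` are far from the window
  have hWr : ∀ u : Half ZT, u.1 ∈ W → nrm (zpos x y u) ≤ r := hF.near
  have hnr : ∀ u, Bd (S.zT n a.s q y) (S.zg n a.s q x y) u → u ≠ zz x y → tr (lab u) ≠ 1 →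
      (N : ℤ) < nrm (zpos x y u) := by
    intro u hu huz h1
    by_contra h2
    obtain ⟨h3, h4⟩ := D.far u hu huz (not_lt.1 h2)
    have h5 : ∀ i : Fin 3, i ≠ 0 → i ≠ 2 → i = 1 := by decide
    exact h1 (h5 _ h3 h4)
  have hav : ∀ u, Bd (S.zT n a.s q y) (S.zg n a.s q x y) u → u ≠ zz x y →
      ((fun u => tr (lab u)) u ≠ 1 ∨ u = (fun j : Fin 3 => m.ez n a.σ q j.castSucc) 0) →
      Avoid (S.zg n a.s q x y) W u := by
    intro u hu huz h1
    refine D.pos.avoid hG hWr hu ?_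
    rcases h1 with h1 | h1
    · have := hnr u hu huz h1
      omega
    · -- the mark `0`
      have h2 := hL.lab_e 0
      have hbe := hL.bd_of_w (hL.be 0)
      have h3 : next (S.zg n a.s q x y) (m.ez n a.σ q (Fin.castSucc 0)) ≠ zz x y := by
        intro h4
        have h5 : next (S.zg n a.s q x y) (zz x y) = zz x y :=
          next_z hS (a.small hn).two q hin.1.1 hin.1.2 hin.2.1 hin.2.2
        exact D.ne _ (hG.next_inj hbe.2 D.bz.2 (h4.trans h5.symm))
      have h4 := hnr _ (hG.next_bd hbe) h3 (by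
        have h5 : tr (lab (next (S.zg n a.s q x y) (m.ez n a.σ q (Fin.castSucc 0)))) = 0 + 2 := h2.2
        rw [h5]; decide)
      have h5 := (D.pos.sm_next hG hbe).2.2.1
      have h6 := D.pos.nrm_tile (x := rho (m.ez n a.σ q (Fin.castSucc 0))) (y := m.ez n a.σ q (Fin.castSucc 0))
        hbe.1 rfl
      have h7 : nrm (zpos x y (rho (m.ez n a.σ q (Fin.castSucc 0)))) =
          nrm (zpos x y (next (S.zg n a.s q x y) (m.ez n a.σ q (Fin.castSucc 0)))) := congrArg nrm h5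
      rw [h1]
      show r + 1 < nrm (zpos x y (m.ez n a.σ q (Fin.castSucc 0)))
      omega
  have key := hpair ZT (ℤ × ℤ) inferInstance inferInstance (S.zT n a.s q y) (S.zg n a.s q x y) w (zz x y)
    (fun j => m.ez n a.σ q j.castSucc) (fun u => tr (lab u)) (S.T n a'.s) (plane.glue (S.T n a'.s)) w'
    (m.e n a'.σ 3) (fun j => m.e n a'.σ j.castSucc) (fun u => tri (S.lab m n a'.s a'.σ u)) W W' φ
    (zpos x y) (zkt x y) 1 (m.ez n a.σ q 3) 0 j r₁ N hL hL' hF.samew hF.z hF.z' (fun k => (hF.mark k).2)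
    (fun u hu hur => agree_at hL hL' hF.same hF.samew hF.z hF.z' hF.mark hav hu (fun h1 => by
        have := hWr u h1
        omega) (D.pos.avoid hG hWr hu (by omega)))
    (fun u hu => (hWr u hu).trans (by omega)) D.pos (D.be 3) (D.ne 3) (by omega) (by omega)
    (by exact_mod_cast hN0) D.path (fun u hu huz hur => (D.far u hu huz hur.le).1)
  refine key.trans ?_
  have h4 : ((r₁ : ℝ) / N) ≤ 2048 * (δ / R) := by
    rw [mul_div_assoc', div_le_div_iff₀ hN0 hR0]
    nlinarith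
  calc C * ((r₁ : ℝ) / N) ^ c ≤ C * (2048 * (δ / R)) ^ c :=
      mul_le_mul_of_nonneg_left (Real.rpow_le_rpow (by positivity) h4 hc.le) hC.le
    _ = C * 2048 ^ c * (δ / R) ^ c := by
      rw [Real.mul_rpow (by norm_num) (by positivity)]; ring
    _ ≤ max 1 C * 2048 ^ c * (δ / R) ^ c := by nlinarith

end Full.S4
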