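import Pool.Agent.Full.S4.Chain
import Pool.Agent.Full.S4.Glue

/-!
# (S4) from the last move
-/

set_option autoImplicit false

namespace Full.S4

/-- **(S4)** from the last move -/
theorem s4_of_last (h : ∀ S : Shape, S.Ok → ∀ m : S.Marks, m.Ok → LastOk m) : Full.S4 :=
  s4_of fun S hS m hm => compOk_of hS hm (exists_moved hS hm) (h S hS m hm)

end Full.S4
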